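import Pool.Agent.Helper31.EC.Sep

/-! Uniqueness of the coefficients of a polynomial in several real variables. -/

set_option autoImplicit false

namespace Pool.Agent.Helper31.EC

open Finset Filter Topology Pool.Agent.Helper69.RK

noncomputable section

open Sp

variable {S : Sp}

namespace QS

/-- values of univariate polynomials with coefficients -/
theorem pe_eval (P : Polynomial (QS S)) (x : QS S) (k : ℕ) (hk : P.natDegree < k + 1) :
    pe (fun a : Fin (k + 1) => P.coeff a) x = P.eval x := by
  rw [Polynomial.eval_eq_sum_range' hk, ← Fin.sum_univ_eq_sum_range (fun a => P.coeff a * x ^ a) (k + 1)]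
  rfl

/-- a polynomial in several real variables with known coefficients which vanishes is zero -/
theorem mv_eq_zero : ∀ (D : ℕ) {S : Sp} (A : S.L) (x : Fin D → QS S) (P : MvPolynomial (Fin D) (QS S)),
    Rl x A → P ∈ PK A → MvPolynomial.eval x P = 0 → P = 0 := by
  classical
  intro D
  induction D with
  | zero =>
    intro S A x P _ _ h
    rw [MvPolynomial.eq_C_of_isEmpty P] at h ⊢
    rw [MvPolynomial.eval_C] at h
    rw [h, map_zero]
  | succ D ih =>
    intro S A x P hx hP hev
    set x' : Fin D → QS S := fun i => x i.succ with hx'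
    have e1 : x = Fin.cons (x 0) x' := by
      funext i
      induction i using Fin.cases with
      | zero => rw [Fin.cons_zero]
      | succ i => rw [Fin.cons_succ]
    rw [e1, MvPolynomial.eval_eq_eval_mv_eval'] at hev
    set F := MvPolynomial.finSuccEquiv (QS S) D P with hF
    set Q := Polynomial.map (MvPolynomial.eval x') F with hQ
    have hFk : ∀ a, F.coeff a ∈ PK A := by
      intro a m
      rw [hF, MvPolynomial.finSuccEquiv_coeff_coeff]
      exact hP _
    have a2 : vd x 1 = dg (x 0) 1 ⊔ vd x' 1 := by
      apply le_antisymm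
      · rw [vd_le]
        intro j
        induction j using Fin.cases with
        | zero => exact le_sup_left
        | succ j => exact (dg_le_vd x' 1 j).trans le_sup_right
      · apply sup_le (dg_le_vd x 1 0)
        rw [vd_le]
        intro j
        exact dg_le_vd x 1 j.succ
    have hx0 : h (dg (x 0) 1) (vd x' 1 ⊔ A) = 1 := by
      apply le_antisymm (h_dg_le_one _ _)
      have b1 : h (vd x 1) A = (D + 1 : ℝ) := by
        have := hx
        unfold Rl at this
        rw [Fintype.card_fin] at this
        push_cast at this
        exact this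
      rw [a2, sup_comm, h_chain] at b1
      have b2 := h_sd_le x' Finset.univ A
      rw [sd_univ, Finset.card_univ, Fintype.card_fin] at b2
      linarith
    have hxr : Rl x' A := hx.comp Fin.succ (Fin.succ_injective D)
    have hc : ∀ a, dg (Q.coeff a) 1 ≤ vd x' 1 ⊔ A := by
      intro a
      rw [hQ, Polynomial.coeff_map]
      exact eval_mem (hFk a) x' le_sup_right (fun i => (dg_le_vd x' 1 i).trans le_sup_left)
    have hz : ∀ a, F.coeff a = 0 := by
      intro a
      apply ih A x' (F.coeff a) hxr (hFk a)
      have h1 : pe (fun b : Fin (max Q.natDegree a + 1) => Q.coeff b) (x 0) = 0 := by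
        rw [pe_eval Q (x 0) (max Q.natDegree a) (Nat.lt_succ_of_le (le_max_left _ _))]
        exact hev
      have h2 := real_eq_zero (fun b : Fin (max Q.natDegree a + 1) => Q.coeff b) (x 0) (by
        apply le_antisymm (h_dg_le_one _ _)
        refine hx0.ge.trans (h_anti ?_)
        rw [vd_le]
        intro b
        exact hc b) h1 ⟨a, Nat.lt_succ_of_le (le_max_right _ _)⟩
      have h3 : Q.coeff a = 0 := h2
      rw [hQ, Polynomial.coeff_map] at h3
      exact h3
    have hF0 : F = 0 := by
      ext a : 1
      rw [hz a, Polynomial.coeff_zero]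
    rw [hF] at hF0
    exact (map_eq_zero_iff _ (MvPolynomial.finSuccEquiv (QS S) D).injective).mp hF0

/-- the same for any finite family -/
theorem mv_eq_zero' {σ : Type} [Fintype σ] (A : S.L) (x : σ → QS S) (P : MvPolynomial σ (QS S))
    (hx : Rl x A) (hP : P ∈ PK A) (h : MvPolynomial.eval x P = 0) : P = 0 := by
  classical
  set e : Fin (Fintype.card σ) ≃ σ := (Fintype.equivFin σ).symm with he
  have h1 : MvPolynomial.rename e.symm P = 0 := by
    apply mv_eq_zero _ A (fun i => x (e i)) _ (hx.comp e e.injective) (rename_mem _ hP)
    rw [MvPolynomial.eval_rename]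
    have : (fun i => x (e i)) ∘ e.symm = x := by
      funext i
      simp
    rw [this, h]
  exact (map_eq_zero_iff _ (MvPolynomial.rename_injective _ e.symm.injective)).mp h1

/-- uniqueness -/
theorem mv_unique {σ : Type} [Fintype σ] (A : S.L) (x : σ → QS S) (P Q : MvPolynomial σ (QS S))
    (hx : Rl x A) (hP : P ∈ PK A) (hQ : Q ∈ PK A) (h : MvPolynomial.eval x P = MvPolynomial.eval x Q) : P = Q := by
  rw [← sub_eq_zero]
  apply mv_eq_zero' A x _ hx ((PK A).sub_mem hP hQ)
  rw [map_sub, h, sub_self]

end QS

end

end Pool.Agent.Helper31.EC
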