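import Pool.Agent.Helper19.SP.LoopAlg

/-! The transport along the directions of a basis, with primitives instead of slopes (algebra of the potential). -/

set_option autoImplicit false

namespace Pool.Agent.Helper19.SP

open Finset MvPolynomial

noncomputable section

variable {A : Type*} [CommRing A] {n : ℕ}

/-- the points of the broken line from `x` to `y` after `k` steps -/
def qt (Mi u : Fin n → Fin n → A) (x y : Fin n → A) (k : ℕ) (m : Fin n) : A :=
  x m + ∑ l : Fin n, if (l : ℕ) < k then sol Mi x y l * u l m else 0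

/-- transport along the broken line: sum of the increments of the primitives -/
def bh (Mi u : Fin n → Fin n → A) (H : Fin n → MvPolynomial (Fin n) A) (x y : Fin n → A) : A :=
  ∑ j : Fin n, (eval (qt Mi u x y (j + 1)) (H j) - eval (qt Mi u x y j) (H j))

def QT (Mi u : Fin n → Fin n → A) (k : ℕ) (m : Fin n) : MvPolynomial (Fin n ⊕ Fin n) A :=
  X (Sum.inl m) + ∑ l : Fin n, if (l : ℕ) < k then SOL Mi l * C (u l m) else 0

def BH (Mi u : Fin n → Fin n → A) (H : Fin n → MvPolynomial (Fin n) A) : MvPolynomial (Fin n ⊕ Fin n) A :=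
  ∑ j : Fin n, (bind₁ (QT Mi u (j + 1)) (H j) - bind₁ (QT Mi u j) (H j))

theorem eval_QT (Mi u : Fin n → Fin n → A) (x y : Fin n → A) (k : ℕ) (m : Fin n) :
    eval (Sum.elim x y) (QT Mi u k m) = qt Mi u x y k m := by
  unfold QT qt
  rw [map_add, map_sum, eval_X, Sum.elim_inl]
  congr 1
  apply Finset.sum_congr rfl
  intro l _
  by_cases h : (l : ℕ) < k
  · rw [if_pos h, if_pos h, map_mul, eval_SOL, eval_C]
  · rw [if_neg h, if_neg h, map_zero]

theorem eval_BH (Mi u : Fin n → Fin n → A) (H : Fin n → MvPolynomial (Fin n) A) (x y : Fin n → A) :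
    eval (Sum.elim x y) (BH Mi u H) = bh Mi u H x y := by
  unfold BH bh
  rw [map_sum]
  apply Finset.sum_congr rfl
  intro j _
  have e : ∀ k, (fun i => eval (Sum.elim x y) (QT Mi u k i)) = qt Mi u x y k :=
    fun k => funext fun m => eval_QT Mi u x y k m
  rw [map_sub, eval_bind1, eval_bind1, e, e]

/-- the point of the first step -/
def sbv (vi : Fin n → A) (m : Fin n) : MvPolynomial (Fin n ⊕ (Unit ⊕ Fin n)) A :=
  X (Sum.inl m) + X (Sum.inr (Sum.inl ())) * C (vi m)

/-- the transport along the loop `(v, basis)` -/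
def LH (Mi u : Fin n → Fin n → A) (H : Fin n → MvPolynomial (Fin n) A) (vi : Fin n → A)
    (Hi : MvPolynomial (Fin n) A) : MvPolynomial (Fin n ⊕ (Unit ⊕ Fin n)) A :=
  (bind₁ (sbv vi) Hi - rename Sum.inl Hi) + bind₁ (sb1 vi) (BH Mi u H)

def LH0 (Mi u : Fin n → Fin n → A) (H : Fin n → MvPolynomial (Fin n) A) :
    MvPolynomial (Fin n ⊕ (Unit ⊕ Fin n)) A := bind₁ sb0 (BH Mi u H)

theorem eval_sb1 (vi x y : Fin n → A) (τ : A) :
    (fun i => eval (pnt x τ y) (sb1 vi i)) = Sum.elim (fun m => x m + τ * vi m) y := by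
  funext i
  rcases i with m | l
  · show eval (pnt x τ y) (X (Sum.inl m) + X (Sum.inr (Sum.inl ())) * C (vi m)) = x m + τ * vi m
    rw [map_add, map_mul, eval_X, eval_X, eval_C]
    rfl
  · show eval (pnt x τ y) (X (Sum.inr (Sum.inr l))) = y l
    rw [eval_X]
    rfl

theorem eval_sb0 (x y : Fin n → A) (τ : A) :
    (fun i => eval (pnt x τ y) (sb0 i)) = Sum.elim x y := by
  funext i
  rcases i with m | l
  · show eval (pnt x τ y) (X (Sum.inl m)) = x m
    rw [eval_X]
    rfl
  · show eval (pnt x τ y) (X (Sum.inr (Sum.inr l))) = y l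
    rw [eval_X]
    rfl

theorem eval_LH (Mi u : Fin n → Fin n → A) (H : Fin n → MvPolynomial (Fin n) A) (vi : Fin n → A)
    (Hi : MvPolynomial (Fin n) A) (x : Fin n → A) (τ : A) (y : Fin n → A) : eval (pnt x τ y) (LH Mi u H vi Hi) =
      (eval (fun m => x m + τ * vi m) Hi - eval x Hi) + bh Mi u H (fun m => x m + τ * vi m) y := by
  unfold LH
  have e2 : (fun i => eval (pnt x τ y) (sbv vi i)) = fun m => x m + τ * vi m := by
    funext m
    show eval (pnt x τ y) (X (Sum.inl m) + X (Sum.inr (Sum.inl ())) * C (vi m)) = x m + τ * vi m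
    rw [map_add, map_mul, eval_X, eval_X, eval_C]
    rfl
  rw [map_add, map_sub, eval_bind1, eval_bind1, ← eval_BH, eval_rename, eval_sb1, e2]
  rfl

theorem eval_LH0 (Mi u : Fin n → Fin n → A) (H : Fin n → MvPolynomial (Fin n) A)
    (x : Fin n → A) (τ : A) (y : Fin n → A) : eval (pnt x τ y) (LH0 Mi u H) = bh Mi u H x y := by
  unfold LH0
  rw [eval_bind1, ← eval_BH, eval_sb0]

/-- the potential -/
def PFH (Mi u : Fin n → Fin n → A) (H : Fin n → MvPolynomial (Fin n) A) : MvPolynomial (Fin n) A :=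
  -bind₁ (Sum.elim X (fun _ => 0)) (BH Mi u H)

theorem eval_PFH (Mi u : Fin n → Fin n → A) (H : Fin n → MvPolynomial (Fin n) A) (x : Fin n → A) :
    eval x (PFH Mi u H) = -bh Mi u H x 0 := by
  unfold PFH
  have e : (fun i => eval x ((Sum.elim X (fun _ => 0) : Fin n ⊕ Fin n → MvPolynomial (Fin n) A) i)) =
      Sum.elim x 0 := by
    funext i
    rcases i with m | l
    · show eval x (X m) = x m
      rw [eval_X]
    · show eval x (0 : MvPolynomial (Fin n) A) = 0
      rw [map_zero]
  rw [map_neg, eval_bind1, ← eval_BH, e]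

theorem PFH_coeff_zero (Mi u : Fin n → Fin n → A) (H : Fin n → MvPolynomial (Fin n) A) :
    (PFH Mi u H).coeff 0 = 0 := by
  have h1 : (PFH Mi u H).coeff 0 = eval (0 : Fin n → A) (PFH Mi u H) := by
    rw [← constantCoeff_eq]
    simp [MvPolynomial.eval_zero]
  rw [h1, eval_PFH]
  have h2 : ∀ k, qt Mi u (0 : Fin n → A) 0 k = 0 := by
    intro k
    funext m
    unfold qt sol
    simp
  unfold bh
  simp only [h2]
  simp

section map

variable {B : Type*} [CommRing B] (φ : A →+* B)

theorem map_QT (Mi u : Fin n → Fin n → A) (k : ℕ) (m : Fin n) :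
    map φ (QT Mi u k m) = QT (fun a b => φ (Mi a b)) (fun a b => φ (u a b)) k m := by
  unfold QT
  rw [map_add, map_sum, map_X]
  congr 1
  apply Finset.sum_congr rfl
  intro l _
  by_cases h : (l : ℕ) < k
  · rw [if_pos h, if_pos h, map_mul, map_SOL, map_C]
  · rw [if_neg h, if_neg h, map_zero]

theorem map_BH (Mi u : Fin n → Fin n → A) (H : Fin n → MvPolynomial (Fin n) A) :
    map φ (BH Mi u H) = BH (fun a b => φ (Mi a b)) (fun a b => φ (u a b)) (fun j => map φ (H j)) := by
  unfold BH
  rw [map_sum]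
  apply Finset.sum_congr rfl
  intro j _
  have e : ∀ k, (fun m => map φ (QT Mi u k m)) = QT (fun a b => φ (Mi a b)) (fun a b => φ (u a b)) k :=
    fun k => funext fun m => map_QT φ Mi u k m
  rw [map_sub, map_bind₁, map_bind₁, e, e]

theorem map_sbv (vi : Fin n → A) : (fun i => map φ (sbv vi i)) = sbv (fun m => φ (vi m)) := by
  funext m
  show map φ (X (Sum.inl m) + X (Sum.inr (Sum.inl ())) * C (vi m)) = X (Sum.inl m) + X (Sum.inr (Sum.inl ())) *
    C (φ (vi m))
  rw [map_add, map_mul, map_X, map_X, map_C]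

theorem map_sb1 (vi : Fin n → A) : (fun i => map φ (sb1 vi i)) = sb1 (fun m => φ (vi m)) := by
  funext i
  rcases i with m | l
  · exact congrFun (map_sbv φ vi) m
  · show map φ (X (Sum.inr (Sum.inr l))) = X (Sum.inr (Sum.inr l))
    rw [map_X]

theorem map_sb0 : (fun i => map φ ((sb0 : Fin n ⊕ Fin n → MvPolynomial (Fin n ⊕ (Unit ⊕ Fin n)) A) i)) = sb0 := by
  funext i
  rcases i with m | l
  · show map φ (X (Sum.inl m)) = X (Sum.inl m)
    rw [map_X]
  · show map φ (X (Sum.inr (Sum.inr l))) = X (Sum.inr (Sum.inr l))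
    rw [map_X]

theorem map_LH (Mi u : Fin n → Fin n → A) (H : Fin n → MvPolynomial (Fin n) A) (vi : Fin n → A)
    (Hi : MvPolynomial (Fin n) A) : map φ (LH Mi u H vi Hi) =
      LH (fun a b => φ (Mi a b)) (fun a b => φ (u a b)) (fun j => map φ (H j)) (fun m => φ (vi m)) (map φ Hi) := by
  unfold LH
  rw [map_add, map_sub, map_rename, map_bind₁, map_bind₁, map_BH, map_sbv, map_sb1]

theorem map_LH0 (Mi u : Fin n → Fin n → A) (H : Fin n → MvPolynomial (Fin n) A) : map φ (LH0 Mi u H) =
    LH0 (fun a b => φ (Mi a b)) (fun a b => φ (u a b)) (fun j => map φ (H j)) := by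
  unfold LH0
  rw [map_bind₁, map_BH, map_sb0]

theorem map_PFH (Mi u : Fin n → Fin n → A) (H : Fin n → MvPolynomial (Fin n) A) : map φ (PFH Mi u H) =
    PFH (fun a b => φ (Mi a b)) (fun a b => φ (u a b)) (fun j => map φ (H j)) := by
  unfold PFH
  rw [map_neg, map_bind₁, map_BH]
  congr 3
  funext i
  rcases i with m | l
  · show map φ (X m) = X m
    rw [map_X]
  · show map φ (0 : MvPolynomial (Fin n) A) = 0
    rw [map_zero]

end map

/-- the potential, if the loop polynomials are constant -/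
theorem PFH_eq (Mi u : Fin n → Fin n → A) (H : Fin n → MvPolynomial (Fin n) A) (vi : Fin n → A)
    (Hi : MvPolynomial (Fin n) A) (h : LH Mi u H vi Hi = LH0 Mi u H) (x : Fin n → A) (s : A) :
    eval (fun m => x m + s * vi m) (PFH Mi u H) - eval x (PFH Mi u H) =
      eval (fun m => x m + s * vi m) Hi - eval x Hi := by
  have h1 := congrArg (eval (pnt x s 0)) h
  rw [eval_LH, eval_LH0] at h1
  rw [eval_PFH, eval_PFH]
  linear_combination -h1

/-- values at zero time -/
theorem eval_LH_zero (Mi u : Fin n → Fin n → A) (H : Fin n → MvPolynomial (Fin n) A) (vi : Fin n → A)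
    (Hi : MvPolynomial (Fin n) A) (x y : Fin n → A) (s : A) :
    eval (pnt x 0 y) (LH Mi u H vi Hi) = eval (pnt x s y) (LH0 Mi u H) := by
  rw [eval_LH, eval_LH0]
  have e : (fun m => x m + 0 * vi m) = x := by
    funext m
    rw [zero_mul, add_zero]
  rw [e, sub_self, zero_add]

/-- transport along a broken line in the directions `vi, u_0, …, u_(n-1)` -/
theorem loop_eqH (Mi u : Fin n → Fin n → A) (hM : ∀ j l, ∑ m, Mi j m * u l m = if j = l then 1 else 0)
    (H : Fin n → MvPolynomial (Fin n) A) (vi : Fin n → A)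
    (Hi : MvPolynomial (Fin n) A) (x : Fin (n + 1 + 1) → Fin n → A) (z : Fin (n + 1 + 1) → A) (τ : Fin (n + 1) → A)
    (hx0 : ∀ m, x 1 m = x 0 m + τ 0 * vi m)
    (hx : ∀ (j : Fin n) m, x j.succ.succ m = x j.succ.castSucc m + τ j.succ * u j m)
    (hz0 : z 1 = z 0 + (eval (x 1) Hi - eval (x 0) Hi))
    (hz : ∀ j : Fin n, z j.succ.succ = z j.succ.castSucc + (eval (x j.succ.succ) (H j) -
      eval (x j.succ.castSucc) (H j))) :
    (∀ j, sol Mi (fun m => x 0 m + τ 0 * vi m) (x (Fin.last (n + 1))) j = τ j.succ) ∧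
    z (Fin.last (n + 1)) = z 0 + eval (pnt (x 0) (τ 0) (x (Fin.last (n + 1)))) (LH Mi u H vi Hi) := by
  classical
  -- the points after the first step
  obtain ⟨y, hy⟩ : ∃ y : Fin (n + 1) → Fin n → A, y = fun k => x k.succ := ⟨_, rfl⟩
  have hy0 : y 0 = fun m => x 0 m + τ 0 * vi m := by
    funext m
    rw [hy]
    exact hx0 m
  have hy1 : x 1 = fun m => x 0 m + τ 0 * vi m := by
    rw [← hy0, hy]
    rfl
  have hys : ∀ m (k : Fin n), y k.succ m = y k.castSucc m + τ k.succ * u k m := by
    intro m k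
    rw [hy]
    show x k.succ.succ m = x k.castSucc.succ m + _
    rw [hx k m, Fin.succ_castSucc]
  have hlast : x (Fin.last (n + 1)) = y (Fin.last n) := by rw [hy]; rfl
  have hpath : ∀ (k : Fin (n + 1)) m, y k m = y 0 m + ∑ l : Fin n, if l.castSucc < k then τ l.succ * u l m else 0 :=
    fun k m => path_sum (fun k => y k m) (fun l => τ l.succ * u l m) (hys m) k
  have hend : ∀ m, y (Fin.last n) m = y 0 m + ∑ l : Fin n, τ l.succ * u l m :=
    fun m => path_last (fun k => y k m) (fun l => τ l.succ * u l m) (hys m)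
  have hsol : ∀ j, sol Mi (y 0) (y (Fin.last n)) j = τ j.succ := by
    intro j
    unfold sol
    have e1 : ∀ l, Mi j l * (y (Fin.last n) l - y 0 l) = ∑ a : Fin n, τ a.succ * (Mi j l * u a l) := by
      intro l
      rw [hend l, add_sub_cancel_left, Finset.mul_sum]
      apply Finset.sum_congr rfl
      intro a _
      ring
    rw [Finset.sum_congr rfl fun l _ => e1 l, Finset.sum_comm]
    have e2 : ∀ a : Fin n, ∑ l, τ a.succ * (Mi j l * u a l) = if j = a then τ a.succ else 0 := by
      intro a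
      rw [← Finset.mul_sum, hM j a]
      split_ifs <;> simp
    rw [Finset.sum_congr rfl fun a _ => e2 a, Finset.sum_ite_eq]
    simp
  have hqt : ∀ k : Fin (n + 1), qt Mi u (y 0) (y (Fin.last n)) (k : ℕ) = y k := by
    intro k
    funext m
    unfold qt
    rw [hpath k m]
    congr 1
    apply Finset.sum_congr rfl
    intro l _
    rw [hsol l]
    rfl
  refine ⟨fun j => ?_, ?_⟩
  · rw [← hy0, hlast]
    exact hsol j
  · rw [eval_LH, ← hy0, hlast]
    have hzz : z (Fin.last (n + 1)) = z 1 + ∑ j : Fin n, (eval (x j.succ.succ) (H j) -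
        eval (x j.succ.castSucc) (H j)) := by
      have := path_last (fun k : Fin (n + 1) => z k.succ) (fun j => eval (x j.succ.succ) (H j) -
        eval (x j.succ.castSucc) (H j))
        (fun j => by
          show z j.succ.succ = z j.castSucc.succ + _
          rw [hz j, Fin.succ_castSucc])
      exact this
    rw [hzz, hz0, hy1, ← hy0]
    have hb : bh Mi u H (y 0) (y (Fin.last n)) = ∑ j : Fin n, (eval (x j.succ.succ) (H j) -
        eval (x j.succ.castSucc) (H j)) := by
      unfold bh
      apply Finset.sum_congr rfl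
      intro j _
      have e5 : qt Mi u (y 0) (y (Fin.last n)) (j : ℕ) = x j.succ.castSucc := by
        have := hqt j.castSucc
        rw [Fin.val_castSucc] at this
        rw [this, hy]
        show x j.castSucc.succ = x j.succ.castSucc
        rw [Fin.succ_castSucc]
      have e6 : qt Mi u (y 0) (y (Fin.last n)) ((j : ℕ) + 1) = x j.succ.succ := by
        have := hqt j.succ
        rw [Fin.val_succ] at this
        rw [this, hy]
      rw [e5, e6]
    rw [hb]
    ring

end

end Pool.Agent.Helper19.SP
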