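import Pool.Agent.Helper19.SP.Walk

/-! Walks along types of lines, every type with its own family of frozen functions. -/

set_option autoImplicit false

namespace Pool.Agent.Helper31.EC

open Finset Filter Topology Pool.Agent.Helper69.RK

noncomputable section

open Sp QS

variable {W : Sp}

/-- one step, general family of frozen functions -/
theorem exists_stepF {R : Sp} (p : Pj R W) {α : Type} [Fintype α] (F : α → QS W) (t : QS W)
    (ht : h (dg t 1) (vd F 1) = 1) :
    ∃ (D : Sp) (p1 : Pj D R) (p2 : Pj D W) (τ : QS D), τ = p2.qs t - p1.qs (p.qs t) ∧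
      (∀ i, p2.qs (F i) = p1.qs (p.qs (F i))) ∧ (∀ x : R.L, h (dg τ 1) (p1.map x) = 1) ∧
      (∀ x y, I (p1.map x) (p2.map y) (p1.map (p.map (vd F 1))) = 0) := by
  obtain ⟨D, p1, p2, h1, h2⟩ := p.exists_copy' F
  refine ⟨D, p1, p2, p2.qs t - p1.qs (p.qs t), rfl, fun i => (h1 i).symm, fun x => ?_, h2⟩
  apply le_antisymm (h_dg_le_one _ _)
  obtain ⟨C, hC⟩ : ∃ C, C = p1.map (p.map (vd F 1)) := ⟨_, rfl⟩
  have hC2 : C = p2.map (vd F 1) := by
    rw [hC, ← p.qs_vd, ← p1.qs_vd, ← p2.qs_vd]
    congr 1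
    funext i
    exact h1 i
  have e1 := h2 (x ⊔ p.map (dg t 1)) (dg t 1)
  rw [← hC, I_zero_iff_h'] at e1
  have e2 : h (p2.map (dg t 1)) C = 1 := by rw [hC2, Pj.h_map]; exact ht
  rw [e2] at e1
  -- `t'` is known to `τ` and `t`
  have e3 : p2.map (dg t 1) ≤ dg (p2.qs t - p1.qs (p.qs t)) 1 ⊔ p1.map (x ⊔ p.map (dg t 1)) := by
    rw [← p2.qs_dg]
    have e4 : p2.qs t = (p2.qs t - p1.qs (p.qs t)) + p1.qs (p.qs t) := by ring
    have e5 := dg_add_le (p2.qs t - p1.qs (p.qs t)) (p1.qs (p.qs t)) (le_refl (1 : ℝ))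
    rw [← e4] at e5
    refine e5.trans (sup_le_sup_left ?_ _)
    rw [p1.qs_dg, p.qs_dg]
    exact p1.map_mono le_sup_right
  have e6 : h (p2.map (dg t 1)) (p1.map (x ⊔ p.map (dg t 1)) ⊔ C) ≤
      h (dg (p2.qs t - p1.qs (p.qs t)) 1) (p1.map (x ⊔ p.map (dg t 1)) ⊔ C) := by
    have e7 := h_mono (B := p1.map (x ⊔ p.map (dg t 1)) ⊔ C) (e3.trans (sup_le_sup_left le_sup_left _ :
      dg (p2.qs t - p1.qs (p.qs t)) 1 ⊔ p1.map (x ⊔ p.map (dg t 1)) ≤
        dg (p2.qs t - p1.qs (p.qs t)) 1 ⊔ (p1.map (x ⊔ p.map (dg t 1)) ⊔ C)))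
    rw [h_sup_right_of_le (le_refl (p1.map (x ⊔ p.map (dg t 1)) ⊔ C))] at e7
    exact e7
  rw [e1] at e6
  refine e6.trans (h_anti ?_)
  exact (p1.map_mono le_sup_left).trans le_sup_left

/-- walks: the step `k` is a copy of the current point given the functions `F (σ k)` -/
structure WkF {κ α : Type} (F : κ → α → QS W) (t : QS W) (K : ℕ) (σ : Fin K → κ) where
  R : Sp
  p : Fin (K + 1) → Pj R W
  τ : Fin K → QS R
  ht : ∀ k, τ k = (p k.succ).qs t - (p k.castSucc).qs t
  hF : ∀ k i, (p k.succ).qs (F (σ k) i) = (p k.castSucc).qs (F (σ k) i)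
  rl : ∀ x : W.L, Rl τ ((p 0).map x)

/-- walks exist -/
theorem exists_walkF {κ α : Type} [Fintype α] (F : κ → α → QS W) (t : QS W)
    (ht : ∀ k, h (dg t 1) (vd (F k) 1) = 1) :
    ∀ (K : ℕ) (σ : Fin K → κ), Nonempty (WkF F t K σ) := by
  intro K
  induction K with
  | zero =>
    intro σ
    refine ⟨⟨W, fun _ => Pj.id W, fun k => k.elim0, fun k => k.elim0, fun k => k.elim0, fun x => ?_⟩⟩
    unfold Rl
    have h1 : vd (fun k : Fin 0 => (k.elim0 : QS W)) 1 = ⊥ := by
      apply le_antisymm _ bot_le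
      rw [vd_le]
      intro i
      exact i.elim0
    rw [h1, h_zero bot_le]
    simp
  | succ K ih =>
    intro σ
    obtain ⟨w⟩ := ih (fun k => σ k.castSucc)
    obtain ⟨D, p1, p2, τ, hτ, hF, hr, _⟩ := exists_stepF (w.p (Fin.last K)) (F (σ (Fin.last K))) t (ht _)
    refine ⟨⟨D, Fin.snoc (fun a => p1.comp (w.p a)) p2, Fin.snoc (fun k => p1.qs (w.τ k)) τ, ?_, ?_, ?_⟩⟩
    · intro k
      induction k using Fin.lastCases with
      | last =>
        rw [Fin.snoc_last, Fin.succ_last, Fin.snoc_last, Fin.snoc_castSucc, Pj.comp_qs]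
        exact hτ
      | cast k =>
        rw [Fin.snoc_castSucc, Fin.succ_castSucc, Fin.snoc_castSucc, Fin.snoc_castSucc, Pj.comp_qs, Pj.comp_qs,
          w.ht k, map_sub]
    · intro k m
      induction k using Fin.lastCases with
      | last =>
        rw [Fin.succ_last, Fin.snoc_last, Fin.snoc_castSucc, Pj.comp_qs]
        exact hF m
      | cast k =>
        rw [Fin.succ_castSucc, Fin.snoc_castSucc, Fin.snoc_castSucc, Pj.comp_qs, Pj.comp_qs, w.hF k m]
    · intro x
      have e0 : (Fin.snoc (α := fun _ => Pj D W) (fun a => p1.comp (w.p a)) p2 0) = p1.comp (w.p 0) := by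
        have : (0 : Fin (K + 1 + 1)) = (0 : Fin (K + 1)).castSucc := rfl
        rw [this, Fin.snoc_castSucc]
      rw [e0, Pj.comp_map]
      apply Rl.of_ge
      have e1 : vd (Fin.snoc (α := fun _ => QS D) (fun k => p1.qs (w.τ k)) τ) 1 = p1.map (vd w.τ 1) ⊔ dg τ 1 := by
        rw [← p1.qs_vd]
        apply le_antisymm
        · rw [vd_le]
          intro k
          induction k using Fin.lastCases with
          | last => rw [Fin.snoc_last]; exact le_sup_right
          | cast k =>
            rw [Fin.snoc_castSucc]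
            exact (dg_le_vd (fun k => p1.qs (w.τ k)) 1 k).trans le_sup_left
        · apply sup_le
          · rw [vd_le]
            intro k
            have := dg_le_vd (Fin.snoc (α := fun _ => QS D) (fun k => p1.qs (w.τ k)) τ) 1 k.castSucc
            rw [Fin.snoc_castSucc] at this
            exact this
          · have := dg_le_vd (Fin.snoc (α := fun _ => QS D) (fun k => p1.qs (w.τ k)) τ) 1 (Fin.last K)
            rw [Fin.snoc_last] at this
            exact this
      rw [e1, h_chain]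
      have e2 : h (p1.map (vd w.τ 1)) (p1.map ((w.p 0).map x)) = K := by
        rw [Pj.h_map]
        have := w.rl x
        unfold Rl at this
        rw [Fintype.card_fin] at this
        exact this
      have e3 : h (dg τ 1) (p1.map (vd w.τ 1) ⊔ p1.map ((w.p 0).map x)) = 1 := by
        rw [← p1.map_sup]
        exact hr _
      rw [e2, e3, Fintype.card_fin]
      push_cast
      exact le_rfl

/-- functions which are frozen in every step -/
theorem WkF.com {κ α : Type} {F : κ → α → QS W} {t : QS W} {K : ℕ} {σ : Fin K → κ} (w : WkF F t K σ) (g : QS W)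
    (i : κ → α) (hi : ∀ k, F k (i k) = g) (a : Fin (K + 1)) : (w.p a).qs g = (w.p 0).qs g := by
  induction a using Fin.induction with
  | zero => rfl
  | succ k ih =>
    have := w.hF k (i (σ k))
    rw [hi] at this
    rw [this, ih]

end

end Pool.Agent.Helper31.EC
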