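import Pool.Agent.Helper19.SP.LoopA
import Pool.Agent.Helper19.SP.LoopAlgH
import Pool.Agent.Helper19.SP.WalkF
import Pool.Agent.Helper38.NS.LeafA

/-! LOOP (50b, section 5 and 7) with primitives: along lines of frozen directions `v i` on which `z - H_i(q)` is
frozen, over an unsaturated coordinate `z`, the increments of the primitives `H_i` come from a potential. -/

set_option autoImplicit false

namespace Pool.Agent.Helper31.EC

open Finset Filter Topology Pool.Agent.Helper69.RK Pool.Agent.Helper19.SP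

noncomputable section

open Sp QS

section mem

variable {S : Sp} {n : ℕ} {A : S.L} {Mi u : Fin n → Fin n → QS S} {H : Fin n → MvPolynomial (Fin n) (QS S)}
  {vi : Fin n → QS S} {Hi : MvPolynomial (Fin n) (QS S)} (hMi : ∀ j l, dg (Mi j l) 1 ≤ A)
  (hu : ∀ j l, dg (u j l) 1 ≤ A) (hH : ∀ j, H j ∈ PK A)

include hMi hu in
theorem QT_mem (k : ℕ) (m : Fin n) : QT Mi u k m ∈ PK A := by
  apply (PK A).add_mem (X_mem A _)
  apply (PK A).sum_mem
  intro l _
  split_ifs
  · exact (PK A).mul_mem (SOL_mem hMi l) (C_mem (hu l m))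
  · exact (PK A).zero_mem

include hMi hu hH in
theorem BH_mem : BH Mi u H ∈ PK A :=
  (PK A).sum_mem fun j _ => (PK A).sub_mem (bind1_mem _ (QT_mem hMi hu _) (hH j))
    (bind1_mem _ (QT_mem hMi hu _) (hH j))

theorem sbv_mem (hvi : ∀ l, dg (vi l) 1 ≤ A) (m : Fin n) : sbv vi m ∈ PK A :=
  (PK A).add_mem (X_mem A _) ((PK A).mul_mem (X_mem A _) (C_mem (hvi m)))

include hMi hu hH in
theorem LH_mem (hvi : ∀ l, dg (vi l) 1 ≤ A) (hHi : Hi ∈ PK A) : LH Mi u H vi Hi ∈ PK A := by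
  apply (PK A).add_mem
  · exact (PK A).sub_mem (bind1_mem _ (sbv_mem hvi) hHi) (rename_mem _ hHi)
  · apply bind1_mem _ _ (BH_mem hMi hu hH)
    rintro (m | l)
    · exact sbv_mem hvi m
    · exact X_mem A _

include hMi hu hH in
theorem LH0_mem : LH0 Mi u H ∈ PK A := by
  apply bind1_mem _ _ (BH_mem hMi hu hH)
  rintro (m | l)
  · exact X_mem A _
  · exact X_mem A _

include hMi hu hH in
theorem PFH_mem : PFH Mi u H ∈ PK A := by
  apply (PK A).neg_mem
  apply bind1_mem _ _ (BH_mem hMi hu hH)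
  rintro (m | l)
  · exact X_mem A _
  · exact (PK A).zero_mem

end mem

/-- the core of the loop argument: `z' = z + L(x, τ, x')` with `z` unsaturated, `(x, τ, x')` real -/
theorem loop_core {W : Sp} (A : W.L) {n : ℕ} (q : Fin n → QS W) (z : QS W) (hq : Rl q A)
    (R : Sp) (p p' : Pj R W) (τ : Fin (n + 1) → QS R) (L L0 : MvPolynomial (Fin n ⊕ (Unit ⊕ Fin n)) (QS W))
    (hL : L ∈ PK A) (hL0 : L0 ∈ PK A) (hG : p'.map A = p.map A)
    (hrl : ∀ x : W.L, Rl τ (p.map x))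
    (hτ : ∀ j : Fin n, dg (τ j.succ) 1 ≤ (dg (τ 0) 1 ⊔ p'.map (vd q 1)) ⊔ (p.map (vd q 1) ⊔ p.map A))
    (hz : p'.qs z = p.qs z + MvPolynomial.eval (pnt (fun m => p.qs (q m)) (τ 0) (fun m => p'.qs (q m)))
      (MvPolynomial.map p.qs L))
    (h0 : ∀ (x y : Fin n → QS R) (s : QS R), MvPolynomial.eval (pnt x 0 y) (MvPolynomial.map p.qs L) =
      MvPolynomial.eval (pnt x s y) (MvPolynomial.map p.qs L0))
    (a0 γ : ℝ) (ha0 : a0 < 1) (hγ : 0 < γ) (hun : UnS z (vd q 1 ⊔ A) a0 γ) : L = L0 := by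
  classical
  obtain ⟨Gm, hGm⟩ : ∃ Gm, Gm = p.map A := ⟨_, rfl⟩
  obtain ⟨x, hx⟩ : ∃ x : Fin n → QS R, x = fun m => p.qs (q m) := ⟨_, rfl⟩
  obtain ⟨y, hy⟩ : ∃ y : Fin n → QS R, y = fun m => p'.qs (q m) := ⟨_, rfl⟩
  rw [← hx, ← hy] at hz
  have hxv : vd x 1 = p.map (vd q 1) := by rw [← Pj.qs_vd, hx]
  have hyv : vd y 1 = p'.map (vd q 1) := by rw [← Pj.qs_vd, hy]
  rw [← hxv, ← hyv, ← hGm] at hτ
  obtain ⟨L', hL'⟩ : ∃ L', L' = MvPolynomial.map p.qs L := ⟨_, rfl⟩
  obtain ⟨L0', hL0'⟩ : ∃ L0', L0' = MvPolynomial.map p.qs L0 := ⟨_, rfl⟩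
  rw [← hL'] at hz
  rw [← hL', ← hL0'] at h0
  have mL : L' ∈ PK Gm := by rw [hL', hGm]; exact map_PK p hL
  have mL0 : L0' ∈ PK Gm := by rw [hL0', hGm]; exact map_PK p hL0
  obtain ⟨X, hX⟩ : ∃ X, X = vd y 1 ⊔ (vd x 1 ⊔ Gm) := ⟨_, rfl⟩
  have hxX : ∀ m, dg (x m) 1 ≤ X := by
    intro m
    rw [hX]
    exact (dg_le_vd x 1 m).trans (le_sup_left.trans le_sup_right)
  have hyX : ∀ m, dg (y m) 1 ≤ X := by
    intro m
    rw [hX]
    exact (dg_le_vd y 1 m).trans le_sup_left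
  have hGX : Gm ≤ X := by
    rw [hX]
    exact le_sup_right.trans le_sup_right
  -- counts
  have cnt := loop_counts (n := n) (X := X) (Q := vd x 1) (Q' := vd y 1) (G := Gm)
    (T := dg (τ 0) 1) (Z := dg (p.qs z) 1) (Z' := dg (p'.qs z) 1) (V := vd τ 1)
    (by
      intro B
      have := h_sd_le y Finset.univ B
      rwa [sd_univ, Finset.card_univ, Fintype.card_fin] at this)
    (fun B => h_dg_le_one _ B)
    (by
      have := hrl (vd q 1 ⊔ A ⊔ dg z 1)
      unfold Rl at this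
      rw [Fintype.card_fin] at this
      push_cast at this
      rw [← this, Pj.map_sup, Pj.map_sup, hxv, hGm, Pj.qs_dg])
    (by
      rw [vd_le]
      intro k
      induction k using Fin.cases with
      | zero => exact le_sup_left.trans le_sup_left
      | succ j => exact hτ j)
    hX
    (by
      have e1 : p.qs z = p'.qs z - MvPolynomial.eval (pnt x (τ 0) y) L' := by rw [hz]; ring
      have e2 := dg_sub_le (p'.qs z) (MvPolynomial.eval (pnt x (τ 0) y) L') (le_refl (1 : ℝ))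
      rw [← e1] at e2
      refine e2.trans (sup_le (le_sup_left.trans le_sup_left) ?_)
      apply eval_mem mL _ (hGX.trans le_sup_right)
      rintro (m | m | m)
      · exact (hxX m).trans le_sup_right
      · exact le_sup_right.trans le_sup_left
      · exact (hyX m).trans le_sup_right)
    (by
      rw [Pj.qs_dg, Pj.qs_dg, hyv, hxv, hGm, ← Pj.map_sup, Pj.h_map, ← hG, ← Pj.map_sup, Pj.h_map])
  obtain ⟨cnt1, cnt2⟩ := cnt
  -- absorption
  have habs : MvPolynomial.eval (pnt x (τ 0) y) L' = MvPolynomial.eval (pnt x (τ 0) y) L0' := by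
    obtain ⟨Φ, hΦ⟩ : ∃ Φ, Φ = pev x y L' := ⟨_, rfl⟩
    have hΦe : ∀ s, pe (fun a : Fin (Φ.natDegree + 1) => Φ.coeff a) s = MvPolynomial.eval (pnt x s y) L' := by
      intro s
      rw [pe_eval Φ s Φ.natDegree (Nat.lt_succ_self _), hΦ, pev_eval]
    have mΦ : ∀ a, dg (Φ.coeff a) 1 ≤ X := by
      intro a
      rw [hΦ]
      exact pev_coeff _ _ _ mL hGX hxX hyX _
    have key := absorb' X (fun a : Fin (Φ.natDegree + 1) => Φ.coeff a) (p.qs z) (p'.qs z) (τ 0)
      (fun j => mΦ _) (by rw [hΦe, hz]; ring) cnt2 a0 γ ha0 hγ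
      (by
        apply (hun.pull p).mono
        rw [Pj.map_sup, ← hxv, ← hGm, hX]
        exact le_sup_right)
    rw [← hΦe, key, ← key 0, hΦe]
    exact h0 x y (τ 0)
  -- the polynomials agree
  have hfin : L' = L0' := by
    apply mv_unique Gm (pnt x (τ 0) y) _ _ _ mL mL0 habs
    apply Rl.of_ge
    have e1 : vd (pnt x (τ 0) y) 1 = vd x 1 ⊔ (dg (τ 0) 1 ⊔ vd y 1) := by
      apply le_antisymm
      · rw [vd_le]
        rintro (m | m | m)
        · exact (dg_le_vd x 1 m).trans le_sup_left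
        · exact le_sup_left.trans le_sup_right
        · exact (dg_le_vd y 1 m).trans (le_sup_right.trans le_sup_right)
      · refine sup_le ?_ (sup_le ?_ ?_)
        · rw [vd_le]
          intro m
          exact dg_le_vd (pnt x (τ 0) y) 1 (Sum.inl m)
        · exact dg_le_vd (pnt x (τ 0) y) 1 (Sum.inr (Sum.inl ()))
        · rw [vd_le]
          intro m
          exact dg_le_vd (pnt x (τ 0) y) 1 (Sum.inr (Sum.inr m))
    rw [e1, h_chain, cnt1]
    have e2 : h (vd x 1) Gm = n := by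
      rw [hxv, hGm, Pj.h_map]
      have := hq
      unfold Rl at this
      rw [Fintype.card_fin] at this
      exact this
    rw [e2]
    simp only [Fintype.card_sum, Fintype.card_fin, Fintype.card_unit]
    push_cast
    linarith
  rw [hL', hL0'] at hfin
  exact MvPolynomial.map_injective _ p.qs_injective hfin

/-- the transport along loops is trivial, form with primitives -/
theorem loop_LH {W : Sp} {ι : Type} [Fintype ι] (G : ι → QS W) {n : ℕ} (t : QS W) (q : Fin n → QS W) (z : QS W)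
    (Mi u : Fin n → Fin n → QS W) (hM : ∀ j l, ∑ m, Mi j m * u l m = if j = l then 1 else 0)
    (H : Fin n → MvPolynomial (Fin n) (QS W)) (vi : Fin n → QS W) (Hi : MvPolynomial (Fin n) (QS W))
    (hq : Rl q (vd G 1)) (hMi : ∀ j l, dg (Mi j l) 1 ≤ vd G 1) (hu : ∀ j l, dg (u j l) 1 ≤ vd G 1)
    (hvi : ∀ l, dg (vi l) 1 ≤ vd G 1) (hH : ∀ j, H j ∈ PK (vd G 1)) (hHi : Hi ∈ PK (vd G 1))
    (h1 : h (dg t 1) (vd (fun k => q k - t * vi k) 1 ⊔ dg (z - MvPolynomial.eval q Hi) 1 ⊔ vd G 1) = 1)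
    (h1' : ∀ j, h (dg t 1) (vd (fun k => q k - t * u j k) 1 ⊔ dg (z - MvPolynomial.eval q (H j)) 1 ⊔
      vd G 1) = 1)
    (a0 γ : ℝ) (ha0 : a0 < 1) (hγ : 0 < γ) (hun : UnS z (vd q 1 ⊔ vd G 1) a0 γ) :
    LH Mi u H vi Hi = LH0 Mi u H := by
  classical
  -- directions and primitives by types
  obtain ⟨vs, hvn, hvs⟩ : ∃ vs : Option (Fin n) → Fin n → QS W, vs none = vi ∧ ∀ j, vs (some j) = u j :=
    ⟨fun o => o.elim vi u, rfl, fun _ => rfl⟩
  obtain ⟨Hs, hHn, hHs⟩ : ∃ Hs : Option (Fin n) → MvPolynomial (Fin n) (QS W), Hs none = Hi ∧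
      ∀ j, Hs (some j) = H j := ⟨fun o => o.elim Hi H, rfl, fun _ => rfl⟩
  have kv : ∀ o l, dg (vs o l) 1 ≤ vd G 1 := by
    rintro (_ | j) l
    · rw [hvn]; exact hvi l
    · rw [hvs]; exact hu j l
  have kH : ∀ o, Hs o ∈ PK (vd G 1) := by
    rintro (_ | j)
    · rw [hHn]; exact hHi
    · rw [hHs]; exact hH j
  have kt : ∀ o, h (dg t 1) (vd (fun k => q k - t * vs o k) 1 ⊔ dg (z - MvPolynomial.eval q (Hs o)) 1 ⊔
      vd G 1) = 1 := by
    rintro (_ | j)
    · rw [hvn, hHn]; exact h1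
    · rw [hvs, hHs]; exact h1' j
  -- the labels
  obtain ⟨G', g1, g2, g4⟩ : ∃ G' : ι ⊕ ((Option (Fin n) × Fin n) ⊕ (Σ o : Option (Fin n),
      (Hs o).support)) → QS W, (∀ a, G' (Sum.inl a) = G a) ∧ (∀ o m, G' (Sum.inr (Sum.inl (o, m))) = vs o m) ∧
        (∀ o (m : (Hs o).support), G' (Sum.inr (Sum.inr ⟨o, m⟩)) = (Hs o).coeff m.1) :=
    ⟨Sum.elim G (Sum.elim (fun x => vs x.1 x.2) (fun x => (Hs x.1).coeff x.2.1)), fun _ => rfl, fun _ _ => rfl,
      fun _ _ => rfl⟩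
  have hGG : vd G' 1 = vd G 1 := by
    apply le_antisymm
    · rw [vd_le]
      rintro (a | ⟨a, b⟩ | ⟨a, b⟩)
      · rw [g1]
        exact dg_le_vd G 1 a
      · rw [g2]
        exact kv _ _
      · rw [g4]
        exact kH _ _
    · rw [vd_le]
      intro a
      rw [← g1 a]
      exact dg_le_vd G' 1 (Sum.inl a)
  -- frozen functions
  obtain ⟨F, f1, f2, f3⟩ : ∃ F : Option (Fin n) → ((ι ⊕ ((Option (Fin n) × Fin n) ⊕ (Σ o : Option (Fin n),
      (Hs o).support))) ⊕ (Fin n ⊕ Unit)) → QS W, (∀ o a, F o (Sum.inl a) = G' a) ∧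
        (∀ o m, F o (Sum.inr (Sum.inl m)) = q m - t * vs o m) ∧
        (∀ o, F o (Sum.inr (Sum.inr ())) = z - MvPolynomial.eval q (Hs o)) :=
    ⟨fun o => Sum.elim G' (Sum.elim (fun m => q m - t * vs o m) (fun _ => z - MvPolynomial.eval q (Hs o))),
      fun _ _ => rfl, fun _ _ => rfl, fun _ => rfl⟩
  have hline : ∀ o, h (dg t 1) (vd (F o) 1) = 1 := by
    intro o
    apply le_antisymm (h_dg_le_one _ _)
    refine (kt o).ge.trans (h_anti ?_)
    rw [vd_le]
    rintro (a | m | m)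
    · rw [f1]
      refine (dg_le_vd G' 1 a).trans ?_
      rw [hGG]
      exact le_sup_right
    · rw [f2]
      exact (dg_le_vd (fun k => q k - t * vs o k) 1 m).trans (le_sup_left.trans le_sup_left)
    · rw [f3]
      exact le_sup_right.trans le_sup_left
  obtain ⟨w⟩ := exists_walkF F t hline (n + 1) (Fin.cases none some)
  -- literally common data
  have cV : ∀ a o m, (w.p a).qs (vs o m) = (w.p 0).qs (vs o m) := by
    intro a o m
    exact w.com _ (fun _ => Sum.inl (Sum.inr (Sum.inl (o, m)))) (fun k => by rw [f1, g2]) a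
  have cH : ∀ a o, MvPolynomial.map (w.p a).qs (Hs o) = MvPolynomial.map (w.p 0).qs (Hs o) := by
    intro a o
    apply map_eq_of_coeff
    intro m hm
    exact w.com _ (fun _ => Sum.inl (Sum.inr (Sum.inr ⟨o, ⟨m, hm⟩⟩))) (fun k => by rw [f1, g4]) a
  have cG : ∀ a, (w.p a).map (vd G 1) = (w.p 0).map (vd G 1) := by
    intro a
    rw [← hGG, ← Pj.qs_vd, ← Pj.qs_vd]
    congr 1
    funext i
    exact w.com _ (fun _ => Sum.inl i) (fun k => by rw [f1]) a
  -- the points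
  obtain ⟨x, hx⟩ : ∃ x : Fin (n + 1 + 1) → Fin n → QS w.R, ∀ a, x a = fun m => (w.p a).qs (q m) := ⟨_, fun _ => rfl⟩
  obtain ⟨zz, hzz⟩ : ∃ zz : Fin (n + 1 + 1) → QS w.R, ∀ a, zz a = (w.p a).qs z := ⟨_, fun _ => rfl⟩
  have stx : ∀ k m, x k.succ m = x k.castSucc m + w.τ k * (w.p 0).qs (vs (Fin.cases none some k) m) := by
    intro k m
    have := w.hF k (Sum.inr (Sum.inl m))
    rw [f2, map_sub, map_mul, map_sub, map_mul, cV k.castSucc, cV k.succ] at this
    rw [hx, hx, w.ht k]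
    linear_combination this
  have stz : ∀ k, zz k.succ = zz k.castSucc +
      (MvPolynomial.eval (x k.succ) (MvPolynomial.map (w.p 0).qs (Hs (Fin.cases none some k))) -
      MvPolynomial.eval (x k.castSucc) (MvPolynomial.map (w.p 0).qs (Hs (Fin.cases none some k)))) := by
    intro k
    have := w.hF k (Sum.inr (Sum.inr ()))
    rw [f3, map_sub, map_sub, qs_eval, qs_eval, cH k.castSucc, cH k.succ] at this
    rw [hzz, hzz, hx, hx]
    linear_combination this
  obtain ⟨Mi', hMi'⟩ : ∃ Mi' : Fin n → Fin n → QS w.R, Mi' = fun a b => (w.p 0).qs (Mi a b) := ⟨_, rfl⟩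
  obtain ⟨u', hu'⟩ : ∃ u' : Fin n → Fin n → QS w.R, u' = fun a b => (w.p 0).qs (u a b) := ⟨_, rfl⟩
  obtain ⟨vi', hvi'⟩ : ∃ vi' : Fin n → QS w.R, vi' = fun a => (w.p 0).qs (vi a) := ⟨_, rfl⟩
  obtain ⟨H', hH'⟩ : ∃ H' : Fin n → MvPolynomial (Fin n) (QS w.R), H' = fun j => MvPolynomial.map (w.p 0).qs (H j) :=
    ⟨_, rfl⟩
  obtain ⟨Hi', hHi'⟩ : ∃ Hi' : MvPolynomial (Fin n) (QS w.R), Hi' = MvPolynomial.map (w.p 0).qs Hi := ⟨_, rfl⟩
  have hM' : ∀ j l, ∑ m, Mi' j m * u' l m = if j = l then 1 else 0 := by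
    intro j l
    have := congrArg (w.p 0).qs (hM j l)
    rw [map_sum] at this
    rw [hMi', hu']
    simp only [map_mul] at this
    rw [this]
    split_ifs
    · exact map_one _
    · exact map_zero _
  obtain ⟨hsol, hend⟩ := loop_eqH Mi' u' hM' H' vi' Hi' x zz w.τ
    (by
      intro m
      have := stx 0 m
      rw [Fin.cases_zero, hvn] at this
      rw [hvi']
      exact this)
    (by
      intro j m
      have := stx j.succ m
      rw [Fin.cases_succ, hvs] at this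
      rw [hu']
      exact this)
    (by
      have := stz 0
      rw [Fin.cases_zero, hHn] at this
      rw [hHi']
      exact this)
    (by
      intro j
      have := stz j.succ
      rw [Fin.cases_succ, hHs] at this
      rw [hH']
      exact this)
  have hLP0 : LH Mi' u' H' vi' Hi' = MvPolynomial.map (w.p 0).qs (LH Mi u H vi Hi) := by
    rw [map_LH, hMi', hu', hH', hvi', hHi']
  have hLP00 : LH0 Mi' u' H' = MvPolynomial.map (w.p 0).qs (LH0 Mi u H) := by
    rw [map_LH0, hMi', hu', hH']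
  apply loop_core (vd G 1) q z hq w.R (w.p 0) (w.p (Fin.last (n + 1))) w.τ _ _ (LH_mem hMi hu hH hvi hHi)
    (LH0_mem hMi hu hH) (cG _) w.rl _ _ _ a0 γ ha0 hγ hun
  · intro j
    rw [← hsol j]
    unfold sol
    apply (Kn w.R 1 le_rfl _).sum_mem
    intro l _
    apply (Kn w.R 1 le_rfl _).mul_mem
    · show dg (Mi' j l) 1 ≤ _
      rw [hMi', Pj.qs_dg]
      exact ((w.p 0).map_mono (hMi j l)).trans (le_sup_right.trans le_sup_right)
    · apply (Kn w.R 1 le_rfl _).sub_mem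
      · show dg (x (Fin.last (n + 1)) l) 1 ≤ _
        rw [hx, Pj.qs_dg]
        exact ((w.p _).map_mono (dg_le_vd q 1 l)).trans (le_sup_right.trans le_sup_left)
      · apply (Kn w.R 1 le_rfl _).add_mem
        · show dg (x 0 l) 1 ≤ _
          rw [hx, Pj.qs_dg]
          exact ((w.p _).map_mono (dg_le_vd q 1 l)).trans (le_sup_left.trans le_sup_right)
        · apply (Kn w.R 1 le_rfl _).mul_mem
          · show dg (w.τ 0) 1 ≤ _
            exact le_sup_left.trans le_sup_left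
          · show dg (vi' l) 1 ≤ _
            rw [hvi', Pj.qs_dg]
            exact ((w.p _).map_mono (hvi l)).trans (le_sup_right.trans le_sup_right)
  · rw [← hLP0, ← hx, ← hx, ← hzz, ← hzz]
    exact hend
  · intro a b s
    rw [← hLP0, ← hLP00]
    exact eval_LH_zero Mi' u' H' vi' Hi' a b s

end

end Pool.Agent.Helper31.EC

namespace Pool.Agent.Helper38.NS

open Pool.Agent.Helper31.EC QS Pool.Agent.Helper19.SP

/-- LOOP (50b, sections 5 and 7), form with primitives -/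
theorem loopH {W : Sp} {ι : Type} [Fintype ι] (G : ι → QS W) {n N : ℕ} (t : QS W) (q : Fin n → QS W)
    (z : QS W) (v : Fin N → Fin n → QS W) (H : Fin N → MvPolynomial (Fin n) (QS W)) (hN : n ≤ N) (a0 c : ℝ)
    (ha0 : a0 < 1) (hc : 0 < c) (hq : Rl q (vd G 1)) (hv : ∀ i j, dg (v i j) 1 ≤ vd G 1)
    (hH : ∀ i, H i ∈ PK (vd G 1))
    (hdet : IsUnit (Matrix.det (Matrix.of fun i j : Fin n => v (Fin.castLE hN i) j)))
    (h1 : ∀ i, Helper31.EC.h (dg t 1) (vd (fun k => q k - t * v i k) 1 ⊔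
      dg (z - MvPolynomial.eval q (H i)) 1 ⊔ vd G 1) = 1)
    (hun : UnS z (vd q 1 ⊔ vd G 1) a0 c) :
    ∃ f : MvPolynomial (Fin n) (QS W), f ∈ PK (vd G 1) ∧ f.coeff 0 = 0 ∧
      ∀ i (x : Fin n → QS W) (s : QS W), MvPolynomial.eval (fun j => x j + s * v i j) f -
        MvPolynomial.eval x f = MvPolynomial.eval (fun j => x j + s * v i j) (H i) -
          MvPolynomial.eval x (H i) := by
  classical
  obtain ⟨e, he⟩ : ∃ e : Fin n → Fin N, e = Fin.castLE hN := ⟨_, rfl⟩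
  obtain ⟨M, hM⟩ : ∃ M : Matrix (Fin n) (Fin n) (QS W), M = Matrix.of fun i j => v (e i) j :=
    ⟨_, rfl⟩
  have hMd : IsUnit M.det := by rw [hM, he]; exact hdet
  have hMe : ∀ i j, M i j = v (e i) j := fun i j => by rw [hM]; rfl
  have hinv : ∀ i j, dg (M⁻¹ i j) 1 ≤ vd G 1 := inv_mem M le_rfl _ (fun i j => by rw [hMe]; exact hv _ _) hMd
  obtain ⟨Mi, hMi⟩ : ∃ Mi : Fin n → Fin n → QS W, ∀ j m, Mi j m = M⁻¹ m j := ⟨fun j m => M⁻¹ m j, fun _ _ => rfl⟩
  obtain ⟨u, hu⟩ : ∃ u : Fin n → Fin n → QS W, ∀ j m, u j m = v (e j) m := ⟨_, fun _ _ => rfl⟩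
  have huf : ∀ j, u j = v (e j) := fun j => funext fun m => hu j m
  have hMu : ∀ j l, ∑ m, Mi j m * u l m = if j = l then 1 else 0 := by
    intro j l
    have e1 : ∑ m, Mi j m * u l m = (M * M⁻¹) l j := by
      rw [Matrix.mul_apply]
      apply Finset.sum_congr rfl
      intro m _
      rw [hMi, hu, hMe]
      ring
    rw [e1, Matrix.mul_nonsing_inv _ hMd, Matrix.one_apply]
    by_cases h : j = l
    · rw [if_pos h, if_pos h.symm]
    · rw [if_neg h, if_neg (fun hc => h hc.symm)]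
  have mMi : ∀ j l, dg (Mi j l) 1 ≤ vd G 1 := fun j l => by rw [hMi]; exact hinv _ _
  have mu : ∀ j l, dg (u j l) 1 ≤ vd G 1 := fun j l => by rw [hu]; exact hv _ _
  refine ⟨PFH Mi u (fun j => H (e j)), PFH_mem mMi mu (fun j => hH _), PFH_coeff_zero _ _ _, fun i => ?_⟩
  have key := loop_LH G t q z Mi u hMu (fun j => H (e j)) (v i) (H i) hq mMi mu (hv i) (fun j => hH _) (hH i)
    (h1 i) (fun j => by rw [huf]; exact h1 (e j)) a0 c ha0 hc hun
  intro x s
  exact PFH_eq Mi u (fun j => H (e j)) (v i) (H i) key x s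

end Pool.Agent.Helper38.NS
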