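import Pool.Agent.Helper19.SP.LoopA
import Pool.Agent.Helper38.NS.LeafB

/-! LOOP (50b, section 5): slopes of a line in frozen directions, over an unsaturated coordinate, come from a
potential. -/

set_option autoImplicit false

namespace Pool.Agent.Helper31.EC

open Finset Filter Topology Pool.Agent.Helper69.RK Pool.Agent.Helper19.SP

noncomputable section

open Sp QS

/-- the transport along loops is trivial -/
theorem loop_LP {W : Sp} {ι : Type} [Fintype ι] (G : ι → QS W) {n : ℕ} (t : QS W) (q : Fin n → QS W) (z : QS W)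
    (Mi u : Fin n → Fin n → QS W) (hM : ∀ j l, ∑ m, Mi j m * u l m = if j = l then 1 else 0)
    (P : Fin n → MvPolynomial (Fin n) (QS W)) (vi : Fin n → QS W) (Pi : MvPolynomial (Fin n) (QS W))
    (hq : Rl q (vd G 1)) (hMi : ∀ j l, dg (Mi j l) 1 ≤ vd G 1) (hu : ∀ j l, dg (u j l) 1 ≤ vd G 1)
    (hvi : ∀ l, dg (vi l) 1 ≤ vd G 1) (hP : ∀ j, P j ∈ PK (vd G 1)) (hPi : Pi ∈ PK (vd G 1))
    (h1 : h (dg t 1) (vd (fun k => q k - t * vi k) 1 ⊔ dg (z - t * MvPolynomial.eval q Pi) 1 ⊔ vd G 1) = 1)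
    (h1' : ∀ j, h (dg t 1) (vd (fun k => q k - t * u j k) 1 ⊔ dg (z - t * MvPolynomial.eval q (P j)) 1 ⊔
      vd G 1) = 1)
    (h2 : dg (MvPolynomial.eval q Pi) 1 ≤ vd (fun k => q k - t * vi k) 1 ⊔ vd G 1)
    (h2' : ∀ j, dg (MvPolynomial.eval q (P j)) 1 ≤ vd (fun k => q k - t * u j k) 1 ⊔ vd G 1)
    (a0 γ : ℝ) (ha0 : a0 < 1) (hγ : 0 < γ) (hun : UnS z (vd q 1 ⊔ vd G 1) a0 γ) :
    LP Mi u P vi Pi = LP0 Mi u P := by
  classical
  -- directions and slopes by types
  obtain ⟨vs, hvn, hvs⟩ : ∃ vs : Option (Fin n) → Fin n → QS W, vs none = vi ∧ ∀ j, vs (some j) = u j :=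
    ⟨fun o => o.elim vi u, rfl, fun _ => rfl⟩
  obtain ⟨Ps, hPn, hPs⟩ : ∃ Ps : Option (Fin n) → MvPolynomial (Fin n) (QS W), Ps none = Pi ∧
      ∀ j, Ps (some j) = P j := ⟨fun o => o.elim Pi P, rfl, fun _ => rfl⟩
  have kv : ∀ o l, dg (vs o l) 1 ≤ vd G 1 := by
    rintro (_ | j) l
    · rw [hvn]; exact hvi l
    · rw [hvs]; exact hu j l
  have kP : ∀ o, Ps o ∈ PK (vd G 1) := by
    rintro (_ | j)
    · rw [hPn]; exact hPi
    · rw [hPs]; exact hP j
  have kt : ∀ o, h (dg t 1) (vd (fun k => q k - t * vs o k) 1 ⊔ dg (z - t * MvPolynomial.eval q (Ps o)) 1 ⊔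
      vd G 1) = 1 := by
    rintro (_ | j)
    · rw [hvn, hPn]; exact h1
    · rw [hvs, hPs]; exact h1' j
  have ke : ∀ o, dg (MvPolynomial.eval q (Ps o)) 1 ≤ vd (fun k => q k - t * vs o k) 1 ⊔ vd G 1 := by
    rintro (_ | j)
    · rw [hvn, hPn]; exact h2
    · rw [hvs, hPs]; exact h2' j
  -- the labels
  obtain ⟨G', g1, g2, g3, g4⟩ : ∃ G' : ι ⊕ ((Option (Fin n) × Fin n) ⊕ ((Fin n × Fin n) ⊕ (Σ o : Option (Fin n),
      (Ps o).support))) → QS W, (∀ a, G' (Sum.inl a) = G a) ∧ (∀ o m, G' (Sum.inr (Sum.inl (o, m))) = vs o m) ∧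
        (∀ j m, G' (Sum.inr (Sum.inr (Sum.inl (j, m)))) = Mi j m) ∧
        (∀ o (m : (Ps o).support), G' (Sum.inr (Sum.inr (Sum.inr ⟨o, m⟩))) = (Ps o).coeff m.1) :=
    ⟨Sum.elim G (Sum.elim (fun x => vs x.1 x.2) (Sum.elim (fun x => Mi x.1 x.2)
        (fun x => (Ps x.1).coeff x.2.1))), fun _ => rfl, fun _ _ => rfl, fun _ _ => rfl, fun _ _ => rfl⟩
  have hGG : vd G' 1 = vd G 1 := by
    apply le_antisymm
    · rw [vd_le]
      rintro (a | ⟨a, b⟩ | ⟨a, b⟩ | ⟨a, b⟩)
      · rw [g1]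
        exact dg_le_vd G 1 a
      · rw [g2]
        exact kv _ _
      · rw [g3]
        exact hMi _ _
      · rw [g4]
        exact kP _ _
    · rw [vd_le]
      intro a
      rw [← g1 a]
      exact dg_le_vd G' 1 (Sum.inl a)
  -- the walk
  obtain ⟨c, hc1, hc2⟩ : ∃ c : Fin n ⊕ Unit → QS W, (∀ m, c (Sum.inl m) = q m) ∧ c (Sum.inr ()) = z :=
    ⟨Sum.elim q (fun _ => z), fun _ => rfl, rfl⟩
  obtain ⟨s, hs1, hs2⟩ : ∃ s : Option (Fin n) → Fin n ⊕ Unit → QS W, (∀ o m, s o (Sum.inl m) = vs o m) ∧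
      ∀ o, s o (Sum.inr ()) = MvPolynomial.eval q (Ps o) :=
    ⟨fun o => Sum.elim (vs o) (fun _ => MvPolynomial.eval q (Ps o)), fun _ _ => rfl, fun _ => rfl⟩
  have hline : ∀ o, h (dg t 1) (vd (lnf G' t c (s o)) 1) = 1 := by
    intro o
    apply le_antisymm (h_dg_le_one _ _)
    refine (kt o).ge.trans (h_anti ?_)
    rw [vd_lnf, hGG]
    refine sup_le le_sup_right (sup_le ?_ ?_)
    · rw [vd_le]
      rintro (m | m)
      · rw [hs1]
        exact (kv o m).trans le_sup_right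
      · rw [hs2]
        refine (ke o).trans (sup_le (le_sup_left.trans le_sup_left) le_sup_right)
    · rw [vd_le]
      rintro (m | m)
      · rw [hs1, hc1]
        exact (dg_le_vd (fun k => q k - t * vs o k) 1 m).trans (le_sup_left.trans le_sup_left)
      · rw [hs2, hc2]
        exact le_sup_right.trans le_sup_left
  obtain ⟨w⟩ := exists_walk G' t c s hline (n + 1) (Fin.cases none some)
  -- literally common data
  have cV : ∀ a o m, (w.p a).qs (vs o m) = (w.p 0).qs (vs o m) := by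
    intro a o m
    have := w.com a 0 (Sum.inr (Sum.inl (o, m)))
    rw [g2] at this
    exact this
  have cP : ∀ a o, MvPolynomial.map (w.p a).qs (Ps o) = MvPolynomial.map (w.p 0).qs (Ps o) := by
    intro a o
    apply map_eq_of_coeff
    intro m hm
    have := w.com a 0 (Sum.inr (Sum.inr (Sum.inr ⟨o, ⟨m, hm⟩⟩)))
    rw [g4] at this
    exact this
  have cG : ∀ a, (w.p a).map (vd G 1) = (w.p 0).map (vd G 1) := by
    intro a
    rw [← hGG, ← Pj.qs_vd, ← Pj.qs_vd]
    congr 1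
    funext i
    exact w.com a 0 i
  -- the points
  obtain ⟨x, hx⟩ : ∃ x : Fin (n + 1 + 1) → Fin n → QS w.R, ∀ a m, x a m = (w.p a).qs (q m) := ⟨_, fun _ _ => rfl⟩
  obtain ⟨zz, hzz⟩ : ∃ zz : Fin (n + 1 + 1) → QS w.R, ∀ a, zz a = (w.p a).qs z := ⟨_, fun _ => rfl⟩
  have stx : ∀ k m, x k.succ m = x k.castSucc m + w.τ k * (w.p 0).qs (vs (Fin.cases none some k) m) := by
    intro k m
    have := w.hc k (Sum.inl m)
    rw [hc1, hs1, cV k.castSucc] at this
    rw [hx, hx]
    exact this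
  have stz : ∀ k, zz k.succ = zz k.castSucc + w.τ k *
      MvPolynomial.eval (x k.castSucc) (MvPolynomial.map (w.p 0).qs (Ps (Fin.cases none some k))) := by
    intro k
    have := w.hc k (Sum.inr ())
    rw [hc2, hs2, qs_eval, cP k.castSucc] at this
    have e : x k.castSucc = fun m => (w.p k.castSucc).qs (q m) := funext fun m => hx _ m
    rw [hzz, hzz, e]
    exact this
  obtain ⟨Mi', hMi'⟩ : ∃ Mi' : Fin n → Fin n → QS w.R, Mi' = fun a b => (w.p 0).qs (Mi a b) := ⟨_, rfl⟩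
  obtain ⟨u', hu'⟩ : ∃ u' : Fin n → Fin n → QS w.R, u' = fun a b => (w.p 0).qs (u a b) := ⟨_, rfl⟩
  obtain ⟨vi', hvi'⟩ : ∃ vi' : Fin n → QS w.R, vi' = fun a => (w.p 0).qs (vi a) := ⟨_, rfl⟩
  obtain ⟨P', hP'⟩ : ∃ P' : Fin n → MvPolynomial (Fin n) (QS w.R), P' = fun j => MvPolynomial.map (w.p 0).qs (P j) :=
    ⟨_, rfl⟩
  obtain ⟨Pi', hPi'⟩ : ∃ Pi' : MvPolynomial (Fin n) (QS w.R), Pi' = MvPolynomial.map (w.p 0).qs Pi := ⟨_, rfl⟩
  have hM' : ∀ j l, ∑ m, Mi' j m * u' l m = if j = l then 1 else 0 := by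
    intro j l
    have := congrArg (w.p 0).qs (hM j l)
    rw [map_sum] at this
    rw [hMi', hu']
    simp only [map_mul] at this
    rw [this]
    split_ifs
    · exact map_one _
    · exact map_zero _
  obtain ⟨hsol, hend⟩ := loop_eq Mi' u' hM' P' vi' Pi' x zz w.τ
    (by
      intro m
      have := stx 0 m
      rw [Fin.cases_zero, hvn] at this
      rw [hvi']
      exact this)
    (by
      intro j m
      have := stx j.succ m
      rw [Fin.cases_succ, hvs] at this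
      rw [hu']
      exact this)
    (by
      have := stz 0
      rw [Fin.cases_zero, hPn] at this
      rw [hPi']
      exact this)
    (by
      intro j
      have := stz j.succ
      rw [Fin.cases_succ, hPs] at this
      rw [hP']
      exact this)
  -- informations
  obtain ⟨Gm, hGm⟩ : ∃ Gm, Gm = (w.p 0).map (vd G 1) := ⟨_, rfl⟩
  obtain ⟨Y, hY⟩ : ∃ Y : Fin (n + 1 + 1) → w.R.L, ∀ a, Y a = (w.p a).map (vd q 1) := ⟨_, fun _ => rfl⟩
  have hYx : ∀ a, vd (x a) 1 = Y a := by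
    intro a
    rw [hY, ← Pj.qs_vd]
    congr 1
    funext m
    exact hx a m
  have hZ' : ∀ a, dg (zz a) 1 = (w.p a).map (dg z 1) := fun a => by rw [hzz, Pj.qs_dg]
  have hLP0 : LP Mi' u' P' vi' Pi' = MvPolynomial.map (w.p 0).qs (LP Mi u P vi Pi) := by
    rw [map_LP, hMi', hu', hP', hvi', hPi']
  have hLP00 : LP0 Mi' u' P' = MvPolynomial.map (w.p 0).qs (LP0 Mi u P) := by
    rw [map_LP0, hMi', hu', hP']
  have mLP : LP Mi' u' P' vi' Pi' ∈ PK Gm := by
    rw [hLP0, hGm]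
    exact map_PK (w.p 0) (LP_mem hMi hu hP hvi hPi)
  have mLP0 : LP0 Mi' u' P' ∈ PK Gm := by
    rw [hLP00, hGm]
    exact map_PK (w.p 0) (LP0_mem hMi hu hP)
  have mMi : ∀ j l, dg (Mi' j l) 1 ≤ Gm := by
    intro j l
    rw [hMi', hGm]
    show dg ((w.p 0).qs (Mi j l)) 1 ≤ _
    rw [Pj.qs_dg]
    exact (w.p 0).map_mono (hMi j l)
  have mvi : ∀ l, dg (vi' l) 1 ≤ Gm := by
    intro l
    rw [hvi', hGm]
    show dg ((w.p 0).qs (vi l)) 1 ≤ _
    rw [Pj.qs_dg]
    exact (w.p 0).map_mono (hvi l)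
  obtain ⟨X, hX⟩ : ∃ X, X = Y (Fin.last (n + 1)) ⊔ (Y 0 ⊔ Gm) := ⟨_, rfl⟩
  have hx0X : ∀ m, dg (x 0 m) 1 ≤ X := by
    intro m
    rw [hX, ← hYx 0]
    exact (dg_le_vd (x 0) 1 m).trans (le_sup_left.trans le_sup_right)
  have hxKX : ∀ m, dg (x (Fin.last (n + 1)) m) 1 ≤ X := by
    intro m
    rw [hX, ← hYx (Fin.last (n + 1))]
    exact (dg_le_vd _ 1 m).trans le_sup_left
  have hGX : Gm ≤ X := by
    rw [hX]
    exact le_sup_right.trans le_sup_right
  -- counts
  have cnt := loop_counts (n := n) (X := X) (Q := Y 0) (Q' := Y (Fin.last (n + 1))) (G := Gm)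
    (T := dg (w.τ 0) 1) (Z := dg (zz 0) 1) (Z' := dg (zz (Fin.last (n + 1))) 1) (V := vd w.τ 1)
    (by
      intro B
      rw [← hYx]
      have := h_sd_le (x (Fin.last (n + 1))) Finset.univ B
      rwa [sd_univ, Finset.card_univ, Fintype.card_fin] at this)
    (fun B => h_dg_le_one _ B)
    (by
      have := w.rl (vd q 1 ⊔ vd G 1 ⊔ dg z 1)
      unfold Rl at this
      rw [Fintype.card_fin] at this
      push_cast at this
      rw [← this, Pj.map_sup, Pj.map_sup, hY, hGm, hZ'])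
    (by
      rw [vd_le]
      intro k
      induction k using Fin.cases with
      | zero => exact le_sup_left.trans le_sup_left
      | succ j =>
        rw [← hsol j]
        unfold sol
        apply (Kn w.R 1 le_rfl _).sum_mem
        intro l _
        apply (Kn w.R 1 le_rfl _).mul_mem
        · exact (mMi j l).trans (le_sup_right.trans le_sup_right)
        · apply (Kn w.R 1 le_rfl _).sub_mem
          · have := dg_le_vd (x (Fin.last (n + 1))) 1 l
            rw [hYx] at this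
            exact this.trans (le_sup_right.trans le_sup_left)
          · apply (Kn w.R 1 le_rfl _).add_mem
            · have := dg_le_vd (x 0) 1 l
              rw [hYx] at this
              exact this.trans (le_sup_left.trans le_sup_right)
            · apply (Kn w.R 1 le_rfl _).mul_mem
              · show dg (w.τ 0) 1 ≤ _
                exact le_sup_left.trans le_sup_left
              · exact (mvi l).trans (le_sup_right.trans le_sup_right))
    hX
    (by
      have e1 : zz 0 = zz (Fin.last (n + 1)) - MvPolynomial.eval (pnt (x 0) (w.τ 0) (x (Fin.last (n + 1))))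
          (LP Mi' u' P' vi' Pi') := by rw [hend]; ring
      have e2 := dg_sub_le (zz (Fin.last (n + 1))) (MvPolynomial.eval (pnt (x 0) (w.τ 0)
        (x (Fin.last (n + 1)))) (LP Mi' u' P' vi' Pi')) (le_refl (1 : ℝ))
      rw [← e1] at e2
      refine e2.trans (sup_le (le_sup_left.trans le_sup_left) ?_)
      apply eval_mem mLP _ (hGX.trans le_sup_right)
      rintro (m | m | m)
      · exact (hx0X m).trans le_sup_right
      · exact le_sup_right.trans le_sup_left
      · exact (hxKX m).trans le_sup_right)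
    (by
      rw [hZ', hZ', hY, hY, hGm, ← cG (Fin.last (n + 1)), ← Pj.map_sup, Pj.h_map,
        cG (Fin.last (n + 1)), ← Pj.map_sup, Pj.h_map])
  obtain ⟨cnt1, cnt2⟩ := cnt
  -- absorption
  have habs : MvPolynomial.eval (pnt (x 0) (w.τ 0) (x (Fin.last (n + 1)))) (LP Mi' u' P' vi' Pi') =
      MvPolynomial.eval (pnt (x 0) (w.τ 0) (x (Fin.last (n + 1)))) (LP0 Mi' u' P') := by
    obtain ⟨Φ, hΦ⟩ : ∃ Φ, Φ = pev (x 0) (x (Fin.last (n + 1))) (LP Mi' u' P' vi' Pi') := ⟨_, rfl⟩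
    have hΦe : ∀ s, pe (fun a : Fin (Φ.natDegree + 1) => Φ.coeff a) s =
        MvPolynomial.eval (pnt (x 0) s (x (Fin.last (n + 1)))) (LP Mi' u' P' vi' Pi') := by
      intro s
      rw [pe_eval Φ s Φ.natDegree (Nat.lt_succ_self _), hΦ, pev_eval]
    have mΦ : ∀ a, dg (Φ.coeff a) 1 ≤ X := by
      intro a
      rw [hΦ]
      exact pev_coeff _ _ _ mLP hGX hx0X hxKX _
    have key := absorb' X (fun a : Fin (Φ.natDegree + 1) => Φ.coeff a) (zz 0) (zz (Fin.last (n + 1))) (w.τ 0)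
      (fun j => mΦ _)
      (by rw [hΦe, hend]; ring) cnt2 a0 γ ha0 hγ
      (by
        rw [hzz]
        apply (hun.pull (w.p 0)).mono
        rw [Pj.map_sup, ← hY, ← hGm, hX]
        exact le_sup_right)
    rw [← hΦe, key, ← key 0, hΦe, eval_LP, eval_LP0, zero_mul, zero_add]
    congr 1
    funext m
    rw [zero_mul, add_zero]
  -- the polynomials agree
  have hfin : LP Mi' u' P' vi' Pi' = LP0 Mi' u' P' := by
    apply mv_unique Gm (pnt (x 0) (w.τ 0) (x (Fin.last (n + 1)))) _ _ _ mLP mLP0 habs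
    apply Rl.of_ge
    have e1 : vd (pnt (x 0) (w.τ 0) (x (Fin.last (n + 1)))) 1 =
        Y 0 ⊔ (dg (w.τ 0) 1 ⊔ Y (Fin.last (n + 1))) := by
      rw [← hYx, ← hYx]
      apply le_antisymm
      · rw [vd_le]
        rintro (m | m | m)
        · exact (dg_le_vd (x 0) 1 m).trans le_sup_left
        · exact le_sup_left.trans le_sup_right
        · exact (dg_le_vd (x (Fin.last (n + 1))) 1 m).trans (le_sup_right.trans le_sup_right)
      · refine sup_le ?_ (sup_le ?_ ?_)
        · rw [vd_le]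
          intro m
          exact dg_le_vd (pnt (x 0) (w.τ 0) (x (Fin.last (n + 1)))) 1 (Sum.inl m)
        · exact dg_le_vd (pnt (x 0) (w.τ 0) (x (Fin.last (n + 1)))) 1 (Sum.inr (Sum.inl ()))
        · rw [vd_le]
          intro m
          exact dg_le_vd (pnt (x 0) (w.τ 0) (x (Fin.last (n + 1)))) 1 (Sum.inr (Sum.inr m))
    rw [e1, h_chain, cnt1]
    have e2 : h (Y 0) Gm = n := by
      rw [hY, hGm, Pj.h_map]
      have := hq
      unfold Rl at this
      rw [Fintype.card_fin] at this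
      exact this
    rw [e2]
    simp only [Fintype.card_sum, Fintype.card_fin, Fintype.card_unit]
    push_cast
    linarith
  rw [hLP0, hLP00] at hfin
  exact MvPolynomial.map_injective _ (w.p 0).qs_injective hfin

end

end Pool.Agent.Helper31.EC

namespace Pool.Agent.Helper38.NS

open Pool.Agent.Helper31.EC QS Pool.Agent.Helper19.SP

/-- LOOP (50b, section 5) -/
theorem loopQ : LoopQ := by
  classical
  intro W ι _ G d N q z v P hN c hc hq hv hP hv0 hdet h1 h2 hun
  obtain ⟨e, he⟩ : ∃ e : Fin (d + 1) → Fin (N + 1), e = Fin.castLE (Nat.succ_le_succ hN) := ⟨_, rfl⟩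
  obtain ⟨M, hM⟩ : ∃ M : Matrix (Fin (d + 1)) (Fin (d + 1)) (QS W), M = Matrix.of fun i j => v (e i) j :=
    ⟨_, rfl⟩
  have hMd : IsUnit M.det := by rw [hM, he]; exact hdet
  have hMe : ∀ i j, M i j = v (e i) j := fun i j => by rw [hM]; rfl
  have hinv : ∀ i j, dg (M⁻¹ i j) 1 ≤ vd G 1 := inv_mem M le_rfl _ (fun i j => by rw [hMe]; exact hv _ _) hMd
  obtain ⟨Mi, hMi⟩ : ∃ Mi : Fin (d + 1) → Fin (d + 1) → QS W, ∀ j m, Mi j m = M⁻¹ m j := ⟨fun j m => M⁻¹ m j, fun _ _ => rfl⟩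
  obtain ⟨u, hu⟩ : ∃ u : Fin (d + 1) → Fin (d + 1) → QS W, ∀ j m, u j m = v (e j) m := ⟨_, fun _ _ => rfl⟩
  have huf : ∀ j, u j = v (e j) := fun j => funext fun m => hu j m
  have hMu : ∀ j l, ∑ m, Mi j m * u l m = if j = l then 1 else 0 := by
    intro j l
    have e1 : ∑ m, Mi j m * u l m = (M * M⁻¹) l j := by
      rw [Matrix.mul_apply]
      apply Finset.sum_congr rfl
      intro m _
      rw [hMi, hu, hMe]
      ring
    rw [e1, Matrix.mul_nonsing_inv _ hMd, Matrix.one_apply]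
    by_cases h : j = l
    · rw [if_pos h, if_pos h.symm]
    · rw [if_neg h, if_neg (fun hc => h hc.symm)]
  have mMi : ∀ j l, dg (Mi j l) 1 ≤ vd G 1 := fun j l => by rw [hMi]; exact hinv _ _
  have mu : ∀ j l, dg (u j l) 1 ≤ vd G 1 := fun j l => by rw [hu]; exact hv _ _
  refine ⟨PF Mi u (fun j => P (e j)), PF_mem mMi mu (fun j => hP _), PF_coeff_zero _ _ _, fun i => ?_⟩
  have key := loop_LP G (q 0) q z Mi u hMu (fun j => P (e j)) (v i) (P i) hq mMi mu (hv i) (fun j => hP _) (hP i)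
    (h1 i) (fun j => by rw [huf]; exact h1 (e j)) (h2 i) (fun j => by rw [huf]; exact h2 (e j)) 0 c one_pos hc
    (hun.mono le_sup_left)
  intro x s
  exact PF_eq Mi u (fun j => P (e j)) (v i) (P i) key x s

end Pool.Agent.Helper38.NS
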