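import Pool.Agent.Helper19.SP.Levels

/-! ABSORPTION: a robustly unsaturated variable absorbs no nonconstant polynomial of a real variable. -/

set_option autoImplicit false

namespace Pool.Agent.Helper31.EC

open Finset Filter Topology Pool.Agent.Helper69.RK Pool.Agent.Helper19.SP

noncomputable section

open Sp

variable {S : Sp}

theorem Sp.typ_not_of_pr {W : ∀ k, (S.F k).Ω → Prop} (h : ¬ 0 < ul (S.pr W)) : Typ (fun k ω => ¬ W k ω) := by
  have h1 : 0 ≤ ul (S.pr W) := const_le_ul (UB_pr _) (Eventually.of_forall fun k => pr_nonneg _ k)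
  have h2 : ul (S.pr W) = 0 := le_antisymm (not_lt.mp h) h1
  have h3 := ul_tendsto (UB_pr W)
  rw [h2] at h3
  unfold Typ
  refine h3.congr fun k => ?_
  have h4 : (fun ω : (S.F k).Ω => ¬ ¬ W k ω) = W k := by
    funext ω
    exact propext not_not
  rw [h4]
  rfl

theorem Sp.not_typ_of_pr {W : ∀ k, (S.F k).Ω → Prop} (h : 0 < ul (S.pr W)) : ¬ Typ (fun k ω => ¬ W k ω) := by
  intro hT
  unfold Typ at hT
  have h4 : ∀ k, (fun ω : (S.F k).Ω => ¬ ¬ W k ω) = W k := by
    intro k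
    funext ω
    exact propext not_not
  simp only [h4] at hT
  have h5 : ul (S.pr W) = 0 := ul_eq hT
  linarith

/-- one of finitely many events which cover an event of positive probability has positive probability -/
theorem Sp.exists_pr_pos {E : ∀ k, (S.F k).Ω → Prop} (hE : 0 < ul (S.pr E)) (N : ℕ)
    (W : ℕ → ∀ k, (S.F k).Ω → Prop)
    (hc : ∀ᶠ k in UF, ∀ ω, (S.F k).μ ω ≠ 0 → E k ω → ∃ i ≤ N, W i k ω) : ∃ i ≤ N, 0 < ul (S.pr (W i)) := by
  by_contra hn
  push Not at hn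
  apply not_typ_of_pr hE
  have key : ∀ M : ℕ, M ≤ N → Typ (fun k ω => ∀ i ≤ M, ¬ W i k ω) := by
    intro M
    induction M with
    | zero =>
      intro _
      refine (typ_not_of_pr (not_lt.mpr (hn 0 (Nat.zero_le _)))).mono (Eventually.of_forall fun k ω _ h i hi => ?_)
      rw [Nat.le_zero] at hi
      rw [hi]
      exact h
    | succ M ih =>
      intro hM
      refine ((ih (by omega)).and (typ_not_of_pr (not_lt.mpr (hn (M + 1) hM)))).mono
        (Eventually.of_forall fun k ω _ h i hi => ?_)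
      rcases Nat.lt_or_ge i (M + 1) with h1 | h1
      · exact h.1 i (by omega)
      · have : i = M + 1 := by omega
        rw [this]
        exact h.2
  refine (key N le_rfl).mono ?_
  filter_upwards [hc] with k hk ω hω h hEω
  obtain ⟨i, hi, hW⟩ := hk ω hω hEω
  exact h i hi hW

namespace QS

theorem mk_pv {m : ℕ} (c : Fin (m + 1) → TR S) (s : TR S) : mk (pv c s) = pe (fun a => mk (c a)) (mk s) := by
  unfold pv pe
  rw [map_sum]
  apply Finset.sum_congr rfl
  intro a _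
  rw [map_mul, map_pow]

/-- **Absorption.** -/
theorem absorb {k : ℕ} (X : S.L) (c : Fin (k + 1) → QS S) (z z' τ : QS S) (hc : ∀ j, dg (c j) 1 ≤ X)
    (hz : z = z' - pe c τ) (hτ : h (dg τ 1) (X ⊔ dg z' 1) = 1) (a0 γ : ℝ) (ha0 : a0 < 1) (hγ : 0 < γ)
    (hu : UnS z X a0 γ) : ∀ j, j ≠ 0 → c j = 0 := by
  intro j0 hj0
  -- the degree is positive
  obtain ⟨m, rfl⟩ : ∃ m, k = m + 1 := by
    cases k with
    | zero => exact absurd (Fin.fin_one_eq_zero j0) hj0
    | succ m => exact ⟨m, rfl⟩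
  obtain ⟨j1, rfl⟩ : ∃ j1 : Fin (m + 1), j0 = j1.succ := ⟨j0.pred hj0, (Fin.succ_pred j0 hj0).symm⟩
  by_contra hne
  obtain ⟨cR, hcR⟩ : ∃ cR : Fin (m + 1 + 1) → TR S, ∀ i, mk (cR i) = c i := ⟨fun i => rep (c i), fun i => mk_rep _⟩
  obtain ⟨τR, hτR⟩ : ∃ τR : TR S, mk τR = τ := ⟨rep τ, mk_rep _⟩
  -- the size of the coefficient
  have h1 : ∃ δ : ℝ, 0 < δ ∧ δ ≤ 1 ∧ ¬ Typ (fun k ω => |TR.ev (cR j1.succ) k ω| ≤ S.dl (1 - δ) k) := by
    by_contra hcon
    push Not at hcon
    apply hne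
    rw [← hcR, ← map_zero mk, mk_eq]
    apply TR.ag_of_levels
    intro δ hδ
    have h2 := hcon (min δ 1) (lt_min hδ one_pos) (min_le_right _ _)
    refine h2.mono (Eventually.of_forall fun k ω _ h3 => ?_)
    rw [TR.ev_zero, sub_zero]
    refine h3.trans (S.dl_anti ?_ k)
    have := min_le_left δ 1
    linarith
  obtain ⟨δ, hδ, hδ1, hnt⟩ := h1
  obtain ⟨gs, hgs⟩ : ∃ gs, gs = 1 - δ := ⟨_, rfl⟩
  rw [← hgs] at hnt
  have hgs0 : 0 ≤ gs := by linarith
  have hgs1 : gs < 1 := by linarith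
  have hE0 := TR.pr_pos_of_not_typ hnt
  obtain ⟨a, ha⟩ : ∃ a, a = max a0 gs := ⟨_, rfl⟩
  have ha1 : a < 1 := by rw [ha]; exact max_lt ha0 hgs1
  have ha0' : a0 ≤ a := by rw [ha]; exact le_max_left _ _
  have hags : gs ≤ a := by rw [ha]; exact le_max_right _ _
  obtain ⟨ε, hε⟩ : ∃ ε, ε = (1 - a) * min γ 1 / 10 := ⟨_, rfl⟩
  have hmg : 0 < min γ 1 := lt_min hγ one_pos
  have hε0 : 0 < ε := by
    rw [hε]
    have : 0 < 1 - a := by linarith
    positivity
  have hε1 : ε ≤ (1 - a) / 10 := by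
    rw [hε]
    have h2 := min_le_right γ 1
    have : (1 - a) * min γ 1 ≤ (1 - a) * 1 := mul_le_mul_of_nonneg_left h2 (by linarith)
    linarith
  have hε2 : 5 * ε < γ * (1 - a) := by
    rw [hε]
    have h2 := min_le_left γ 1
    have h3 : (1 - a) * min γ 1 ≤ (1 - a) * γ := mul_le_mul_of_nonneg_left h2 (by linarith)
    have h4 : 0 < (1 - a) * min γ 1 := mul_pos (by linarith) hmg
    linarith
  -- bounds of the coefficients
  obtain ⟨K, hK, hKb⟩ : ∃ K : ℕ → ℝ, S.Sub K ∧ ∀ᶠ k in UF, ∀ ω, (S.F k).μ ω ≠ 0 → ∀ i, |TR.ev (cR i) k ω| ≤ K k :=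
    (TR.vec cR).bd
  obtain ⟨N, hN⟩ : ∃ N : ℕ, gs / ε ≤ N := exists_nat_ge _
  have hN' : gs ≤ N * ε := by rwa [div_le_iff₀ hε0] at hN
  obtain ⟨W, hW⟩ : ∃ W : ℕ → ∀ k, (S.F k).Ω → Prop, W = fun (i : ℕ) k ω =>
      (i : ℝ) * ε ≤ gs ∧ (∀ j : Fin (m + 1), |TR.ev (cR j.succ) k ω| ≤ (K k + 1) * S.dl (i * ε) k) ∧
        ∃ j : Fin (m + 1), S.dl (i * ε + ε) k < |TR.ev (cR j.succ) k ω| := ⟨_, rfl⟩
  obtain ⟨i, hiN, hWi⟩ := Sp.exists_pr_pos hE0 N W (by
    filter_upwards [hKb, hK.1] with k hk hk0 ω hω hE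
    rw [not_le] at hE
    classical
    have hex : ∃ i : ℕ, ∃ j : Fin (m + 1), S.dl (i * ε + ε) k < |TR.ev (cR j.succ) k ω| := by
      refine ⟨N, j1, lt_of_le_of_lt (S.dl_anti ?_ k) hE⟩
      linarith
    have hspec := Nat.find_spec hex
    have hmin : ∀ l, l < Nat.find hex → ∀ j : Fin (m + 1), |TR.ev (cR j.succ) k ω| ≤ S.dl (l * ε + ε) k := by
      intro l hl j
      have := Nat.find_min hex hl
      push Not at this
      exact this j
    have hle : Nat.find hex ≤ N := Nat.find_min' hex ⟨j1, lt_of_le_of_lt (S.dl_anti (by linarith) k) hE⟩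
    refine ⟨Nat.find hex, hle, ?_⟩
    rw [hW]
    refine ⟨?_, ?_, hspec⟩
    · rcases Nat.eq_zero_or_pos (Nat.find hex) with h2 | h2
      · rw [h2]; push_cast; linarith
      · by_contra hgt
        push Not at hgt
        obtain ⟨l, hl⟩ : ∃ l, Nat.find hex = l + 1 := ⟨Nat.find hex - 1, by omega⟩
        have h3 := hmin l (by omega) j1
        have h4 : (l : ℝ) * ε + ε = (Nat.find hex : ℝ) * ε := by rw [hl]; push_cast; ring
        rw [h4] at h3
        have h5 := S.dl_anti hgt.le k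
        linarith
    · intro j
      rcases Nat.eq_zero_or_pos (Nat.find hex) with h2 | h2
      · rw [h2]
        push_cast
        rw [zero_mul, S.dl_zero, mul_one]
        have := hk ω hω j.succ
        linarith
      · obtain ⟨l, hl⟩ : ∃ l, Nat.find hex = l + 1 := ⟨Nat.find hex - 1, by omega⟩
        have h3 := hmin l (by omega) j
        have h4 : (l : ℝ) * ε + ε = (Nat.find hex : ℝ) * ε := by rw [hl]; push_cast; ring
        rw [h4] at h3
        have h5 := S.dl_pos ((Nat.find hex : ℝ) * ε) k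
        nlinarith)
  obtain ⟨E, hE⟩ : ∃ E : ∀ k, (S.F k).Ω → Prop, E = W i := ⟨_, rfl⟩
  rw [← hE] at hWi
  -- positivity of the event
  have hpr := eventually_gt_of_lt_ul (UB_pr E) hWi
  have hsup : ∀ᶠ k in UF, ∀ ω, ((S.rest E).F k).μ ω ≠ 0 → (S.F k).μ ω ≠ 0 ∧ E k ω := by
    filter_upwards [hpr] with k hk ω hω
    exact ⟨((S.F k).rest_supp (E k) ω hω).1, ((S.F k).rest_supp (E k) ω hω).2 hk.ne'⟩
  have hgi : (i : ℝ) * ε ≤ gs := by
    by_contra hgt
    have : ¬ 0 < ul (S.pr E) := by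
      have h2 : S.pr E = fun _ => 0 := by
        funext k
        show mass (res (S.F k).μ (E k)) = 0
        have h3 : E k = fun _ => False := by
          funext ω
          rw [hE, hW]
          apply propext
          constructor
          · intro h4; exact hgt h4.1
          · intro h4; exact h4.elim
        rw [h3]
        exact mass_res_false k
      rw [h2, ul_const]
      exact lt_irrefl 0
    exact this hWi
  -- the restricted configuration
  obtain ⟨X1, hX1⟩ : ∃ X1 : (S.rest E).L, X1 = restL E hWi X ⊔ restL E hWi (dg z' 1) := ⟨_, rfl⟩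
  have hτE : h (TR.dg (TR.rest E τR) 1) X1 = 1 := by
    rw [hX1, ← restL_sup]
    apply TR.real_rst E hWi τR
    rw [← dg_mk τR le_rfl, hτR]
    exact hτ
  have hcE : ∀ j, TR.dg (TR.rest E (cR j)) 1 ≤ X1 := by
    intro j
    rw [TR.rest_dg E hWi, hX1]
    refine le_trans (restL_mono E hWi ?_) le_sup_left
    rw [← dg_mk (cR j) le_rfl, hcR]
    exact hc j
  have hlev := TR.poly_levels X1 (fun j => TR.rest E (cR j)) (TR.rest E τR) hcE hτE (i * ε) ε a hε0
    (by positivity) (by linarith) (by linarith) (fun k => K k + 1) (hK.add (S.Sub_const zero_le_one))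
    (by
      filter_upwards [hsup] with k hk ω hω j
      have := (hk ω hω).2
      rw [hE, hW] at this
      exact this.2.1 j)
    (by
      filter_upwards [hsup] with k hk ω hω
      have := (hk ω hω).2
      rw [hE, hW] at this
      exact this.2.2)
  -- comparison with `z`
  obtain ⟨Y, hY⟩ : ∃ Y : QS (S.rest E), Y = mk (pv (fun j => TR.rest E (cR j)) (TR.rest E τR)) := ⟨_, rfl⟩
  have hYr : Y = QS.rest E hWi (pe c τ) := by
    have e1 : pe c τ = mk (pv cR τR) := by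
      rw [mk_pv, hτR]
      congr 1
      funext j
      exact (hcR j).symm
    rw [e1, QS.rest_mk, hY]
    congr 1
    unfold pv
    rw [map_sum]
    apply Finset.sum_congr rfl
    intro j _
    rw [map_mul, map_pow]
  obtain ⟨zE, hzE⟩ : ∃ zE : QS (S.rest E), zE = QS.rest E hWi z := ⟨_, rfl⟩
  obtain ⟨zE', hzE'⟩ : ∃ zE' : QS (S.rest E), zE' = QS.rest E hWi z' := ⟨_, rfl⟩
  have hzY : zE = zE' - Y := by rw [hzE, hzE', hYr, ← map_sub, hz]
  have hX1' : X1 = restL E hWi X ⊔ dg zE' 1 := by rw [hX1, hzE', QS.rest_dg]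
  rw [← dg_mk _ le_rfl, ← dg_mk _ ha1.le, ← hY] at hlev
  have b1 : dg Y 1 ≤ dg zE 1 ⊔ X1 := by
    have e1 : Y = zE' - zE := by rw [hzY]; ring
    have e2 := dg_sub_le zE' zE le_rfl
    rw [← e1] at e2
    refine e2.trans (sup_le ?_ le_sup_left)
    rw [hX1']
    exact le_sup_right.trans le_sup_right
  have b2 : dg zE a ≤ dg Y a ⊔ X1 := by
    have e2 := dg_sub_le zE' Y ha1.le
    rw [← hzY] at e2
    refine e2.trans (sup_le ?_ le_sup_left)
    rw [hX1']
    exact (dg_mono zE' ha1.le).trans (le_sup_right.trans le_sup_right)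
  have b3 : h (dg Y 1) (dg Y a ⊔ X1) ≤ h (dg zE 1) (dg zE a ⊔ restL E hWi X) := by
    calc h (dg Y 1) (dg Y a ⊔ X1) ≤ h (dg zE 1 ⊔ X1) (dg Y a ⊔ X1) := h_mono b1
      _ = h (dg zE 1) (dg Y a ⊔ X1) := h_sup_right_of_le le_sup_right
      _ ≤ h (dg zE 1) (dg zE a ⊔ restL E hWi X) := by
          apply h_anti
          apply sup_le b2
          refine le_trans ?_ le_sup_right
          rw [hX1']
          exact le_sup_left
  have b4 := hu S (Pj.id S) E hWi a 1 ha0' ha1.le le_rfl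
  rw [Pj.id_map, Pj.id_map, restL_sup, ← QS.rest_dg, ← QS.rest_dg, ← hzE] at b4
  have b5 : (1 - γ) * (1 - a) = 1 - a - γ * (1 - a) := by ring
  linarith

/-- absorption, constant form: the polynomial is constant -/
theorem absorb' {k : ℕ} (X : S.L) (c : Fin (k + 1) → QS S) (z z' τ : QS S) (hc : ∀ j, dg (c j) 1 ≤ X)
    (hz : z = z' - pe c τ) (hτ : h (dg τ 1) (X ⊔ dg z' 1) = 1) (a0 γ : ℝ) (ha0 : a0 < 1) (hγ : 0 < γ)
    (hu : UnS z X a0 γ) : ∀ x, pe c x = c 0 := by
  intro x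
  have h1 := absorb X c z z' τ hc hz hτ a0 γ ha0 hγ hu
  unfold pe
  rw [Finset.sum_eq_single 0]
  · simp
  · intro j _ hj
    rw [h1 j hj, zero_mul]
  · intro h2
    exact absurd (Finset.mem_univ _) h2

end QS

end

end Pool.Agent.Helper31.EC
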