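import Pool.Agent.Helper19.SP.PolyTyp

/-! A polynomial of a real variable has full digits beyond the size of its coefficients. -/

set_option autoImplicit false

namespace Pool.Agent.Helper19.SP

open Finset

/-- second order Taylor estimate for powers -/
theorem pow_taylor (K x y : ℝ) (hK : 1 ≤ K) (hx : |x| ≤ K) (hy : |y| ≤ K) (n : ℕ) :
    |y ^ (n + 1) - x ^ (n + 1) - (n + 1) * x ^ n * (y - x)| ≤ ((n : ℝ) + 1) ^ 2 * K ^ (n + 1) * |y - x| ^ 2 := by
  induction n with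
  | zero =>
    have e : y ^ (0 + 1) - x ^ (0 + 1) - ((0 : ℕ) + 1 : ℝ) * x ^ 0 * (y - x) = 0 := by
      push_cast; ring
    rw [e, abs_zero]
    positivity
  | succ n ih =>
    have e : y ^ (n + 1 + 1) - x ^ (n + 1 + 1) - (((n + 1 : ℕ) : ℝ) + 1) * x ^ (n + 1) * (y - x) =
        y * (y ^ (n + 1) - x ^ (n + 1) - (n + 1) * x ^ n * (y - x)) + (n + 1) * x ^ n * (y - x) ^ 2 := by
      push_cast; ring
    rw [e]
    refine (abs_add_le _ _).trans ?_
    rw [abs_mul, abs_mul, abs_mul, abs_pow, abs_pow]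
    have h1 : |y| * |y ^ (n + 1) - x ^ (n + 1) - (n + 1) * x ^ n * (y - x)| ≤
        K * (((n : ℝ) + 1) ^ 2 * K ^ (n + 1) * |y - x| ^ 2) := mul_le_mul hy ih (abs_nonneg _) (by linarith)
    have h2 : |((n : ℝ) + 1)| = n + 1 := abs_of_nonneg (by positivity)
    have h3 : |x| ^ n ≤ K ^ n := pow_le_pow_left₀ (abs_nonneg _) hx n
    have hKn : (0 : ℝ) ≤ K ^ n := by positivity
    have h4 : K ^ n ≤ K ^ (n + 1 + 1) := pow_le_pow_right₀ hK (by omega)
    have hd : (0 : ℝ) ≤ |y - x| ^ 2 := by positivity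
    have h5 : |((n : ℝ) + 1)| * |x| ^ n * |y - x| ^ 2 ≤ ((n : ℝ) + 1) * K ^ (n + 1 + 1) * |y - x| ^ 2 := by
      rw [h2]
      apply mul_le_mul_of_nonneg_right _ hd
      apply mul_le_mul_of_nonneg_left (h3.trans h4) (by positivity)
    have h6 : K * (((n : ℝ) + 1) ^ 2 * K ^ (n + 1) * |y - x| ^ 2) =
        ((n : ℝ) + 1) ^ 2 * K ^ (n + 1 + 1) * |y - x| ^ 2 := by ring
    rw [h6] at h1
    have h7 : (((n + 1 : ℕ) : ℝ) + 1) ^ 2 * K ^ (n + 1 + 1) * |y - x| ^ 2 =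
        ((n : ℝ) + 1) ^ 2 * K ^ (n + 1 + 1) * |y - x| ^ 2 + ((n : ℝ) + 1) * K ^ (n + 1 + 1) * |y - x| ^ 2 +
          ((n : ℝ) + 2) * K ^ (n + 1 + 1) * |y - x| ^ 2 := by
      push_cast; ring
    rw [h7]
    have h8 : 0 ≤ ((n : ℝ) + 2) * K ^ (n + 1 + 1) * |y - x| ^ 2 := by positivity
    linarith

/-- the derivative -/
def dv {R : Type*} [CommRing R] {m : ℕ} (c : Fin (m + 2) → R) : Fin (m + 1) → R :=
  fun j => ((j : ℕ) + 1 : R) * c j.succ

theorem pv_succ {R : Type*} [CommRing R] {m : ℕ} (c : Fin (m + 2) → R) (s : R) :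
    pv c s = c 0 + ∑ j : Fin (m + 1), c j.succ * s ^ ((j : ℕ) + 1) := by
  unfold pv
  rw [Fin.sum_univ_succ]
  simp

theorem pv_taylor {m : ℕ} (c : Fin (m + 2) → ℝ) (K x y C : ℝ) (hK : 1 ≤ K) (hx : |x| ≤ K) (hy : |y| ≤ K)
    (hC : ∀ j : Fin (m + 1), |c j.succ| ≤ C) :
    |pv c y - pv c x - pv (dv c) x * (y - x)| ≤
      ((m : ℝ) + 1) * (((m : ℝ) + 1) ^ 2 * K ^ (m + 1)) * C * |y - x| ^ 2 := by
  have e : pv c y - pv c x - pv (dv c) x * (y - x) = ∑ j : Fin (m + 1), c j.succ *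
      (y ^ ((j : ℕ) + 1) - x ^ ((j : ℕ) + 1) - ((j : ℕ) + 1) * x ^ (j : ℕ) * (y - x)) := by
    rw [pv_succ, pv_succ]
    unfold pv dv
    rw [Finset.sum_mul, add_sub_add_left_eq_sub, ← Finset.sum_sub_distrib, ← Finset.sum_sub_distrib]
    apply Finset.sum_congr rfl
    intro j _
    ring
  rw [e]
  refine (Finset.abs_sum_le_sum_abs _ _).trans ?_
  have h1 : ∀ j ∈ (Finset.univ : Finset (Fin (m + 1))), |c j.succ *
      (y ^ ((j : ℕ) + 1) - x ^ ((j : ℕ) + 1) - ((j : ℕ) + 1) * x ^ (j : ℕ) * (y - x))| ≤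
      C * ((((m : ℝ) + 1) ^ 2 * K ^ (m + 1)) * |y - x| ^ 2) := by
    intro j _
    rw [abs_mul]
    have hC0 : 0 ≤ C := (abs_nonneg _).trans (hC j)
    refine mul_le_mul (hC j) ?_ (abs_nonneg _) hC0
    refine (pow_taylor K x y hK hx hy j).trans ?_
    apply mul_le_mul_of_nonneg_right _ (by positivity)
    have hj : ((j : ℕ) : ℝ) ≤ m := by exact_mod_cast Nat.lt_succ_iff.mp j.2
    have hj' : (j : ℕ) + 1 ≤ m + 1 := by have := j.2; omega
    apply mul_le_mul
    · exact pow_le_pow_left₀ (by positivity) (by linarith) 2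
    · exact pow_le_pow_right₀ hK hj'
    · positivity
    · positivity
  refine (Finset.sum_le_sum h1).trans (le_of_eq ?_)
  rw [Finset.sum_const, Finset.card_univ, Fintype.card_fin, nsmul_eq_mul]
  push_cast
  ring

end Pool.Agent.Helper19.SP

namespace Pool.Agent.Helper31.EC

open Finset Filter Topology Pool.Agent.Helper69.RK Pool.Agent.Helper19.SP

noncomputable section

theorem Sp.Sub.pow {S : Sp} {K : ℕ → ℝ} (hK : S.Sub K) (n : ℕ) : S.Sub (fun k => K k ^ n) := by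
  induction n with
  | zero => simpa using S.Sub_const zero_le_one
  | succ n ih =>
    have := ih.mul hK
    simpa [pow_succ] using this

namespace TR

open Sp

variable {S : Sp}

theorem ev_dv {m : ℕ} (c : Fin (m + 2) → TR S) (j : Fin (m + 1)) (k : ℕ) (ω : (S.F k).Ω) :
    ev (dv c j) k ω = dv (fun i => ev (c i) k ω) j := by
  unfold dv
  rw [ev_mul]
  congr 1

theorem dv_known {m : ℕ} (c : Fin (m + 2) → TR S) (X : S.L) (r : ℝ) (hc : ∀ i, dg (c i) r ≤ X) (j : Fin (m + 1)) :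
    dg (dv c j) r ≤ X := by
  show dv c j ∈ Kn S r X
  unfold dv
  apply (Kn S r X).mul_mem
  · exact (Kn S r X).add_mem (natCast_mem _ _) (Kn S r X).one_mem
  · exact hc _

/-- **Full digits.** -/
theorem poly_levels {m : ℕ} (X : S.L) (c : Fin (m + 2) → TR S) (s : TR S) (hc : ∀ i, dg (c i) 1 ≤ X)
    (hs : h (dg s 1) X = 1) (g ε a : ℝ) (hε : 0 < ε) (hg : 0 ≤ g) (hgε : g + 2 * ε ≤ 1) (hga : g ≤ a)
    (K : ℕ → ℝ) (hK : S.Sub K)
    (hup : ∀ᶠ k in UF, ∀ ω, (S.F k).μ ω ≠ 0 → ∀ j : Fin (m + 1), |ev (c j.succ) k ω| ≤ K k * S.dl g k)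
    (hlo : ∀ᶠ k in UF, ∀ ω, (S.F k).μ ω ≠ 0 → ∃ j : Fin (m + 1), S.dl (g + ε) k < |ev (c j.succ) k ω|) :
    1 - a - 5 * ε ≤ h (dg (pv c s) 1) (dg (pv c s) a ⊔ X) := by
  obtain ⟨K1, hK1, hsK⟩ := s.2
  have hK1' : S.Sub (fun k => K1 k + 1) := hK1.add (S.Sub_const zero_le_one)
  have hg1 : g ≤ 1 := by linarith
  -- the derivative is large
  have hder := poly_typ X (dv c) s (fun j => dv_known c X 1 hc j) hs (g + ε) ε hε (by linarith) (by linarith)
  -- (1) upper bound for the digits up to `a`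
  have hupper : h (dg (pv c s) a) X ≤ a - g := by
    obtain ⟨A, hA, hAd⟩ := exists_rep_dg c 1 X hc
    have h1 := (vec (fun _ : Fin 1 => pv c s)).h_dg_le a (a - g) (by linarith) A (fun _ _ => True) Typ_true
      (fun k => 1 + (m + 1 : ℝ) * (2 * (K k * (K1 k + 1) ^ (m + 1)))) ((S.Sub_const zero_le_one).add
        ((S.Sub_const (by positivity)).mul ((S.Sub_const (by norm_num)).mul (hK.mul (hK1'.pow _))))) ?_
    · rw [Nat.cast_one, one_mul, hA] at h1
      exact h1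
    · filter_upwards [hup, hsK, hK1.1, hK.1] with k hu hk hk0 hKk ω ω' a1 a2 _ _ _ hAA _
      have e0 : a - (a - g) = g := by ring
      rw [e0]
      have hsb : ∀ ω, (S.F k).μ ω ≠ 0 → |ev s k ω| ≤ K1 k + 1 := fun ω h => (hk ω h).trans (by linarith)
      have hterm : ∀ ω, (S.F k).μ ω ≠ 0 → ∀ j : Fin (m + 1), |ev (c j.succ) k ω * ev s k ω ^ ((j : ℕ) + 1)| ≤
          K k * (K1 k + 1) ^ (m + 1) * S.dl g k := by
        intro ω hω j
        rw [abs_mul, abs_pow]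
        have b1 := hu ω hω j
        have b2 : |ev s k ω| ^ ((j : ℕ) + 1) ≤ (K1 k + 1) ^ (m + 1) := by
          calc _ ≤ (K1 k + 1) ^ ((j : ℕ) + 1) := pow_le_pow_left₀ (abs_nonneg _) (hsb ω hω) _
            _ ≤ _ := pow_le_pow_right₀ (by linarith) (by have := j.2; omega)
        have b3 := mul_le_mul b1 b2 (by positivity) (mul_nonneg hKk (S.dl_pos g k).le)
        calc _ ≤ K k * S.dl g k * (K1 k + 1) ^ (m + 1) := b3
          _ = _ := by ring
      have hsum : ∀ ω, (S.F k).μ ω ≠ 0 → |∑ j : Fin (m + 1), ev (c j.succ) k ω * ev s k ω ^ ((j : ℕ) + 1)| ≤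
          (m + 1 : ℝ) * (K k * (K1 k + 1) ^ (m + 1) * S.dl g k) := by
        intro ω hω
        refine (Finset.abs_sum_le_sum_abs _ _).trans ?_
        refine (Finset.sum_le_sum fun j _ => hterm ω hω j).trans (le_of_eq ?_)
        rw [Finset.sum_const, Finset.card_univ, Fintype.card_fin, nsmul_eq_mul]
        push_cast; ring
      show |ev (pv c s) k ω - ev (pv c s) k ω'| ≤ _
      rw [ev_pv, ev_pv, pv_succ, pv_succ]
      have c0 := (hAd k ω ω' hAA 0).trans (S.dl_anti hg1 k)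
      have c1 := hsum ω a1
      have c2 := hsum ω' a2
      rw [abs_le] at c0 c1 c2 ⊢
      constructor <;> nlinarith [c0.1, c0.2, c1.1, c1.2, c2.1, c2.2]
  -- (2) the digits of `s`
  have hdig : dg s (1 - (g + 2 * ε)) ≤ dg (pv c s) 1 ⊔ (dg s (3 * ε) ⊔ X) := by
    set X' := dg (pv c s) 1 ⊔ (dg s (3 * ε) ⊔ X) with hX'
    obtain ⟨A1, hA1, hA1d⟩ := exists_rep_dg c 1 X' (fun i => (hc i).trans (le_sup_right.trans le_sup_right))
    obtain ⟨A2, hA2, hA2d⟩ := exists_rep_dg (fun _ : Fin 1 => s) (3 * ε) X' (fun _ => le_sup_left.trans le_sup_right)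
    obtain ⟨A3, hA3, hA3d⟩ := exists_rep_dg (fun _ : Fin 1 => pv c s) 1 X' (fun _ => le_sup_left)
    have hA : cl (Inf.sup (Inf.sup A1 A2) A3) = X' := by
      rw [cl_sup, cl_sup, hA1, hA2, hA3, sup_idem, sup_idem]
    rw [← hA]
    have hKC : S.Sub (fun k => ((m : ℝ) + 1) * (((m : ℝ) + 1) ^ 2 * (K1 k + 1) ^ (m + 1)) * K k) :=
      ((S.Sub_const (by positivity)).mul ((S.Sub_const (by positivity)).mul (hK1'.pow _))).mul hK
    have hKL : S.Sub (fun k => 2 * (1 + (m + 2 : ℝ) * (K1 k + 1) ^ (m + 1))) :=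
      (S.Sub_const (by norm_num)).mul ((S.Sub_const zero_le_one).add ((S.Sub_const (by positivity)).mul (hK1'.pow _)))
    apply dg_le_cl _ _ _ _ hder _ hKL
    filter_upwards [hup, hlo, hsK, hK1.1, hK.1, hKC.eventually_le (half_pos hε),
      (S.Sub_const zero_le_one).eventually_le (half_pos hε)] with k hu hl hk hk0 hKk hKCk h1k
    intro ω ω' m1 m2 t1 _ _ hAA
    have hn := (S.F k).pos
    have hAA1 : A1.1 k ω ω' := hAA.1.1
    have hAA2 : A2.1 k ω ω' := hAA.1.2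
    have hAA3 : A3.1 k ω ω' := hAA.2
    have hs1 : |ev s k ω| ≤ K1 k + 1 := (hk ω m1).trans (by linarith)
    have hs2 : |ev s k ω'| ≤ K1 k + 1 := (hk ω' m2).trans (by linarith)
    have hK11 : (1 : ℝ) ≤ K1 k + 1 := by linarith
    -- derivative at `ω`
    have hD : S.dl (g + 2 * ε) k < |pv (dv fun i => ev (c i) k ω) (ev s k ω)| := by
      have e1 : g + ε + ε = g + 2 * ε := by ring
      have e2 := t1 (by
        obtain ⟨j, hj⟩ := hl ω m1
        refine ⟨j, lt_of_lt_of_le hj ?_⟩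
        rw [ev_dv]
        unfold dv
        rw [abs_mul]
        have : (1 : ℝ) ≤ |((j : ℕ) : ℝ) + 1| := by
          rw [abs_of_nonneg (by positivity)]
          have : (0 : ℝ) ≤ ((j : ℕ) : ℝ) := Nat.cast_nonneg _
          linarith
        nlinarith [abs_nonneg (ev (c j.succ) k ω)])
      rw [e1, ev_pv] at e2
      have e3 : (fun i => ev (dv c i) k ω) = dv fun i => ev (c i) k ω := by
        funext j
        exact ev_dv c j k ω
      rw [e3] at e2
      exact e2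
    -- Taylor
    have hT := pv_taylor (fun i => ev (c i) k ω) (K1 k + 1) (ev s k ω) (ev s k ω') (K k * S.dl g k) hK11 hs1 hs2
      (fun j => hu ω m1 j)
    have hss : |ev s k ω' - ev s k ω| ≤ S.dl (3 * ε) k := by
      rw [abs_sub_comm]
      exact hA2d k ω ω' hAA2 0
    -- difference of the values of the polynomial frozen at `ω`
    have hfroz : |pv (fun i => ev (c i) k ω) (ev s k ω') - pv (fun i => ev (c i) k ω) (ev s k ω)| ≤
        (1 + (m + 2 : ℝ) * (K1 k + 1) ^ (m + 1)) * S.dl 1 k := by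
      have b1 : |ev (pv c s) k ω - ev (pv c s) k ω'| ≤ S.dl 1 k := hA3d k ω ω' hAA3 0
      rw [ev_pv, ev_pv] at b1
      have b2 : pv (fun i => ev (c i) k ω) (ev s k ω') - pv (fun i => ev (c i) k ω) (ev s k ω) =
          -(pv (fun i => ev (c i) k ω) (ev s k ω) - pv (fun i => ev (c i) k ω') (ev s k ω')) +
            ∑ i : Fin (m + 2), (ev (c i) k ω - ev (c i) k ω') * ev s k ω' ^ (i : ℕ) := by
        unfold pv
        rw [neg_sub]
        have : ∑ i : Fin (m + 2), (ev (c i) k ω - ev (c i) k ω') * ev s k ω' ^ (i : ℕ) =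
            ∑ i : Fin (m + 2), ev (c i) k ω * ev s k ω' ^ (i : ℕ) -
              ∑ i : Fin (m + 2), ev (c i) k ω' * ev s k ω' ^ (i : ℕ) := by
          rw [← Finset.sum_sub_distrib]
          apply Finset.sum_congr rfl
          intro i _
          ring
        rw [this]
        ring
      rw [b2]
      refine (abs_add_le _ _).trans ?_
      rw [abs_neg]
      have b3 : |∑ i : Fin (m + 2), (ev (c i) k ω - ev (c i) k ω') * ev s k ω' ^ (i : ℕ)| ≤
          (m + 2 : ℝ) * ((K1 k + 1) ^ (m + 1) * S.dl 1 k) := by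
        refine (Finset.abs_sum_le_sum_abs _ _).trans ?_
        have b4 : ∀ i ∈ (Finset.univ : Finset (Fin (m + 2))),
            |(ev (c i) k ω - ev (c i) k ω') * ev s k ω' ^ (i : ℕ)| ≤ (K1 k + 1) ^ (m + 1) * S.dl 1 k := by
          intro i _
          rw [abs_mul, abs_pow, mul_comm]
          apply mul_le_mul
          · calc |ev s k ω'| ^ (i : ℕ) ≤ (K1 k + 1) ^ (i : ℕ) := pow_le_pow_left₀ (abs_nonneg _) hs2 _
              _ ≤ _ := pow_le_pow_right₀ hK11 (by have := i.2; omega)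
          · exact hA1d k ω ω' hAA1 i
          · exact abs_nonneg _
          · positivity
        refine (Finset.sum_le_sum b4).trans (le_of_eq ?_)
        rw [Finset.sum_const, Finset.card_univ, Fintype.card_fin, nsmul_eq_mul]
        push_cast; ring
      calc _ ≤ S.dl 1 k + (m + 2 : ℝ) * ((K1 k + 1) ^ (m + 1) * S.dl 1 k) := add_le_add b1 b3
        _ = _ := by ring
    -- conclusion
    obtain ⟨x, hx⟩ : ∃ x, x = |ev s k ω' - ev s k ω| := ⟨_, rfl⟩
    have hx0 : 0 ≤ x := by rw [hx]; exact abs_nonneg _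
    obtain ⟨d, hd⟩ : ∃ d, d = pv (dv fun i => ev (c i) k ω) (ev s k ω) := ⟨_, rfl⟩
    rw [← hd] at hD hT
    obtain ⟨F, hF⟩ : ∃ F, F = pv (fun i => ev (c i) k ω) (ev s k ω') - pv (fun i => ev (c i) k ω) (ev s k ω) :=
      ⟨_, rfl⟩
    rw [← hF] at hfroz hT
    have q1 : |d| * x ≤ |F| + ((m : ℝ) + 1) * (((m : ℝ) + 1) ^ 2 * (K1 k + 1) ^ (m + 1)) * (K k * S.dl g k) * x ^ 2 := by
      have r1 : d * (ev s k ω' - ev s k ω) = F - (F - d * (ev s k ω' - ev s k ω)) := by ring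
      have r2 : |d| * x = |d * (ev s k ω' - ev s k ω)| := by rw [abs_mul, hx]
      rw [r2, r1]
      refine (abs_sub _ _).trans ?_
      rw [hx]
      exact add_le_add le_rfl hT
    have q2 : ((m : ℝ) + 1) * (((m : ℝ) + 1) ^ 2 * (K1 k + 1) ^ (m + 1)) * (K k * S.dl g k) * x ^ 2 ≤
        S.dl (g + 2 * ε) k / 2 * x := by
      have r1 : ((m : ℝ) + 1) * (((m : ℝ) + 1) ^ 2 * (K1 k + 1) ^ (m + 1)) * (K k * S.dl g k) * x ^ 2 =
          (((m : ℝ) + 1) * (((m : ℝ) + 1) ^ 2 * (K1 k + 1) ^ (m + 1)) * K k) * (S.dl g k * x) * x := by ring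
      rw [r1]
      apply mul_le_mul_of_nonneg_right _ hx0
      have r2 : S.dl g k * x ≤ S.dl g k * S.dl (3 * ε) k :=
        mul_le_mul_of_nonneg_left (by rw [hx]; exact hss) (S.dl_pos g k).le
      have r3 : S.dl g k * S.dl (3 * ε) k = S.dl (g + 2 * ε) k * (S.dl (ε / 2) k * S.dl (ε / 2) k) := by
        rw [← S.dl_add, ← S.dl_add, ← S.dl_add]
        congr 1; ring
      have r4 : (2 : ℝ) ^ (ε / 2 * (S.F k).n) * S.dl (ε / 2) k = 1 := by
        unfold dl
        rw [← Real.rpow_add (by norm_num : (0 : ℝ) < 2), add_neg_cancel, Real.rpow_zero]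
      have p1 := S.dl_pos (ε / 2) k
      have r5 : (((m : ℝ) + 1) * (((m : ℝ) + 1) ^ 2 * (K1 k + 1) ^ (m + 1)) * K k) * S.dl (ε / 2) k ≤ 1 := by
        refine le_trans (mul_le_mul_of_nonneg_right ?_ p1.le) r4.le
        linarith
      have r6 : 2 * S.dl (ε / 2) k ≤ 1 := by
        refine le_trans (mul_le_mul_of_nonneg_right ?_ p1.le) r4.le
        linarith
      have r7 : 0 ≤ ((m : ℝ) + 1) * (((m : ℝ) + 1) ^ 2 * (K1 k + 1) ^ (m + 1)) * K k := by positivity
      calc (((m : ℝ) + 1) * (((m : ℝ) + 1) ^ 2 * (K1 k + 1) ^ (m + 1)) * K k) * (S.dl g k * x)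
          ≤ (((m : ℝ) + 1) * (((m : ℝ) + 1) ^ 2 * (K1 k + 1) ^ (m + 1)) * K k) *
            (S.dl (g + 2 * ε) k * (S.dl (ε / 2) k * S.dl (ε / 2) k)) := by
              rw [← r3]
              exact mul_le_mul_of_nonneg_left r2 r7
        _ = ((((m : ℝ) + 1) * (((m : ℝ) + 1) ^ 2 * (K1 k + 1) ^ (m + 1)) * K k) * S.dl (ε / 2) k) *
            (S.dl (g + 2 * ε) k * S.dl (ε / 2) k) := by ring
        _ ≤ 1 * (S.dl (g + 2 * ε) k * S.dl (ε / 2) k) := by
            apply mul_le_mul_of_nonneg_right r5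
            have := S.dl_pos (g + 2 * ε) k
            positivity
        _ ≤ S.dl (g + 2 * ε) k / 2 := by
            have := S.dl_pos (g + 2 * ε) k
            nlinarith
    have q3 : S.dl (g + 2 * ε) k * x ≤ |d| * x := mul_le_mul_of_nonneg_right hD.le hx0
    have q4 : S.dl (g + 2 * ε) k * x ≤ 2 * |F| := by linarith
    have q5 : S.dl 1 k = S.dl (g + 2 * ε) k * S.dl (1 - (g + 2 * ε)) k := by
      rw [← S.dl_add]
      congr 1; ring
    have p2 := S.dl_pos (g + 2 * ε) k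
    rw [abs_sub_comm, ← hx]
    have q6 : S.dl (g + 2 * ε) k * x ≤ S.dl (g + 2 * ε) k *
        (2 * (1 + (m + 2 : ℝ) * (K1 k + 1) ^ (m + 1)) * S.dl (1 - (g + 2 * ε)) k) := by
      calc S.dl (g + 2 * ε) k * x ≤ 2 * |F| := q4
        _ ≤ 2 * ((1 + (m + 2 : ℝ) * (K1 k + 1) ^ (m + 1)) * S.dl 1 k) := by linarith
        _ = _ := by rw [q5]; ring
    exact le_of_mul_le_mul_left q6 p2
  -- (3) entropies
  have h1 : 1 - (g + 2 * ε) - 3 * ε ≤ h (dg (pv c s) 1) X := by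
    have b0 : h (dg (pv c s) 1) (dg s (3 * ε) ⊔ X) ≤ h (dg (pv c s) 1) X := h_anti le_sup_right
    have b1 : h (dg s (1 - (g + 2 * ε))) (dg s (3 * ε) ⊔ X) ≤ h (dg (pv c s) 1) (dg s (3 * ε) ⊔ X) := by
      have c1 := h_mono (B := dg s (3 * ε) ⊔ X) hdig
      rw [h_sup_right_of_le (le_refl (dg s (3 * ε) ⊔ X))] at c1
      exact c1
    have b2 := h_chain (dg s (3 * ε)) (dg s (1 - (g + 2 * ε))) X
    have b3 := real_level s X hs (show 0 ≤ 1 - (g + 2 * ε) by linarith) (by linarith)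
    have b4 : h (dg s (1 - (g + 2 * ε))) X ≤ h (dg s (3 * ε) ⊔ dg s (1 - (g + 2 * ε))) X := h_mono le_sup_right
    have b5 : h (dg s (3 * ε)) X ≤ 3 * ε := (h_le_H _ _).trans (H_dg_le s (by linarith))
    linarith
  have h2 := h_chain (dg (pv c s) a) (dg (pv c s) 1) X
  have h3 : h (dg (pv c s) 1) X ≤ h (dg (pv c s) a ⊔ dg (pv c s) 1) X := h_mono le_sup_right
  linarith

end TR

end

end Pool.Agent.Helper31.EC
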