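import Mathlib

/-! The transport along the directions of a basis, as a polynomial (algebra of the potential). -/

set_option autoImplicit false

namespace Pool.Agent.Helper19.SP

open Finset MvPolynomial

noncomputable section

variable {A : Type*} [CommRing A] {n : ℕ}

/-- coordinates of `y - x` in the basis -/
def sol (Mi : Fin n → Fin n → A) (x y : Fin n → A) (j : Fin n) : A := ∑ l, Mi j l * (y l - x l)

/-- the points of the broken line from `x` to `y` -/
def pt (Mi u : Fin n → Fin n → A) (x y : Fin n → A) (j m : Fin n) : A :=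
  x m + ∑ l, if l < j then sol Mi x y l * u l m else 0

/-- transport along the broken line -/
def bf (Mi u : Fin n → Fin n → A) (P : Fin n → MvPolynomial (Fin n) A) (x y : Fin n → A) : A :=
  ∑ j, sol Mi x y j * eval (pt Mi u x y j) (P j)

def SOL (Mi : Fin n → Fin n → A) (j : Fin n) : MvPolynomial (Fin n ⊕ Fin n) A :=
  ∑ l, C (Mi j l) * (X (Sum.inr l) - X (Sum.inl l))

def PT (Mi u : Fin n → Fin n → A) (j m : Fin n) : MvPolynomial (Fin n ⊕ Fin n) A :=
  X (Sum.inl m) + ∑ l, if l < j then SOL Mi l * C (u l m) else 0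

def BP (Mi u : Fin n → Fin n → A) (P : Fin n → MvPolynomial (Fin n) A) : MvPolynomial (Fin n ⊕ Fin n) A :=
  ∑ j, SOL Mi j * bind₁ (PT Mi u j) (P j)

theorem eval_bind1 {σ τ : Type*} (f : σ → MvPolynomial τ A) (P : MvPolynomial σ A) (x : τ → A) :
    eval x (bind₁ f P) = eval (fun i => eval x (f i)) P :=
  eval₂Hom_bind₁ (RingHom.id A) x f P

theorem eval_SOL (Mi : Fin n → Fin n → A) (x y : Fin n → A) (j : Fin n) :
    eval (Sum.elim x y) (SOL Mi j) = sol Mi x y j := by
  unfold SOL sol
  rw [map_sum]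
  apply Finset.sum_congr rfl
  intro l _
  rw [map_mul, map_sub, eval_C, eval_X, eval_X, Sum.elim_inr, Sum.elim_inl]

theorem eval_PT (Mi u : Fin n → Fin n → A) (x y : Fin n → A) (j m : Fin n) :
    eval (Sum.elim x y) (PT Mi u j m) = pt Mi u x y j m := by
  unfold PT pt
  rw [map_add, map_sum, eval_X, Sum.elim_inl]
  congr 1
  apply Finset.sum_congr rfl
  intro l _
  by_cases h : l < j
  · rw [if_pos h, if_pos h, map_mul, eval_SOL, eval_C]
  · rw [if_neg h, if_neg h, map_zero]

theorem eval_BP (Mi u : Fin n → Fin n → A) (P : Fin n → MvPolynomial (Fin n) A) (x y : Fin n → A) :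
    eval (Sum.elim x y) (BP Mi u P) = bf Mi u P x y := by
  unfold BP bf
  rw [map_sum]
  apply Finset.sum_congr rfl
  intro j _
  have e : (fun i => eval (Sum.elim x y) (PT Mi u j i)) = pt Mi u x y j := funext fun m => eval_PT Mi u x y j m
  rw [map_mul, eval_SOL, eval_bind1, e]

/-- substitution used for the loop -/
def sb1 (vi : Fin n → A) : Fin n ⊕ Fin n → MvPolynomial (Fin n ⊕ (Unit ⊕ Fin n)) A :=
  Sum.elim (fun m => X (Sum.inl m) + X (Sum.inr (Sum.inl ())) * C (vi m)) (fun l => X (Sum.inr (Sum.inr l)))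

def sb0 : Fin n ⊕ Fin n → MvPolynomial (Fin n ⊕ (Unit ⊕ Fin n)) A :=
  Sum.elim (fun m => X (Sum.inl m)) (fun l => X (Sum.inr (Sum.inr l)))

/-- the transport along the loop `(v, basis)` -/
def LP (Mi u : Fin n → Fin n → A) (P : Fin n → MvPolynomial (Fin n) A) (vi : Fin n → A)
    (Pi : MvPolynomial (Fin n) A) : MvPolynomial (Fin n ⊕ (Unit ⊕ Fin n)) A :=
  X (Sum.inr (Sum.inl ())) * rename Sum.inl Pi + bind₁ (sb1 vi) (BP Mi u P)

def LP0 (Mi u : Fin n → Fin n → A) (P : Fin n → MvPolynomial (Fin n) A) :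
    MvPolynomial (Fin n ⊕ (Unit ⊕ Fin n)) A := bind₁ sb0 (BP Mi u P)

/-- the point `(x, τ, y)` -/
def pnt (x : Fin n → A) (τ : A) (y : Fin n → A) : Fin n ⊕ (Unit ⊕ Fin n) → A :=
  Sum.elim x (Sum.elim (fun _ => τ) y)

theorem eval_LP (Mi u : Fin n → Fin n → A) (P : Fin n → MvPolynomial (Fin n) A) (vi : Fin n → A)
    (Pi : MvPolynomial (Fin n) A) (x : Fin n → A) (τ : A) (y : Fin n → A) :
    eval (pnt x τ y) (LP Mi u P vi Pi) = τ * eval x Pi + bf Mi u P (fun m => x m + τ * vi m) y := by
  unfold LP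
  have e : (fun i => eval (pnt x τ y) (sb1 vi i)) = Sum.elim (fun m => x m + τ * vi m) y := by
    funext i
    rcases i with m | l
    · show eval (pnt x τ y) (X (Sum.inl m) + X (Sum.inr (Sum.inl ())) * C (vi m)) = x m + τ * vi m
      rw [map_add, map_mul, eval_X, eval_X, eval_C]
      rfl
    · show eval (pnt x τ y) (X (Sum.inr (Sum.inr l))) = y l
      rw [eval_X]
      rfl
  rw [map_add, map_mul, eval_X, eval_bind1, ← eval_BP, eval_rename, e]
  rfl

theorem eval_LP0 (Mi u : Fin n → Fin n → A) (P : Fin n → MvPolynomial (Fin n) A)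
    (x : Fin n → A) (τ : A) (y : Fin n → A) : eval (pnt x τ y) (LP0 Mi u P) = bf Mi u P x y := by
  unfold LP0
  have e : (fun i => eval (pnt x τ y) (sb0 i)) = Sum.elim x y := by
    funext i
    rcases i with m | l
    · show eval (pnt x τ y) (X (Sum.inl m)) = x m
      rw [eval_X]
      rfl
    · show eval (pnt x τ y) (X (Sum.inr (Sum.inr l))) = y l
      rw [eval_X]
      rfl
  rw [eval_bind1, ← eval_BP, e]

/-- the potential -/
def PF (Mi u : Fin n → Fin n → A) (P : Fin n → MvPolynomial (Fin n) A) : MvPolynomial (Fin n) A :=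
  -bind₁ (Sum.elim X (fun _ => 0)) (BP Mi u P)

theorem eval_PF (Mi u : Fin n → Fin n → A) (P : Fin n → MvPolynomial (Fin n) A) (x : Fin n → A) :
    eval x (PF Mi u P) = -bf Mi u P x 0 := by
  unfold PF
  have e : (fun i => eval x ((Sum.elim X (fun _ => 0) : Fin n ⊕ Fin n → MvPolynomial (Fin n) A) i)) =
      Sum.elim x 0 := by
    funext i
    rcases i with m | l
    · show eval x (X m) = x m
      rw [eval_X]
    · show eval x (0 : MvPolynomial (Fin n) A) = 0
      rw [map_zero]
  rw [map_neg, eval_bind1, ← eval_BP, e]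

theorem PF_coeff_zero (Mi u : Fin n → Fin n → A) (P : Fin n → MvPolynomial (Fin n) A) :
    (PF Mi u P).coeff 0 = 0 := by
  have h1 : (PF Mi u P).coeff 0 = eval (0 : Fin n → A) (PF Mi u P) := by
    rw [← constantCoeff_eq]
    rw [MvPolynomial.constantCoeff_eq, ← MvPolynomial.constantCoeff_eq]
    have := MvPolynomial.eval_zero' (R := A) (σ := Fin n)
    simp [MvPolynomial.eval_zero]
  rw [h1, eval_PF]
  unfold bf sol
  simp

section map

variable {B : Type*} [CommRing B] (φ : A →+* B)

theorem map_SOL (Mi : Fin n → Fin n → A) (j : Fin n) :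
    map φ (SOL Mi j) = SOL (fun a b => φ (Mi a b)) j := by
  unfold SOL
  rw [map_sum]
  apply Finset.sum_congr rfl
  intro l _
  rw [map_mul, map_sub, map_C, map_X, map_X]

theorem map_PT (Mi u : Fin n → Fin n → A) (j m : Fin n) :
    map φ (PT Mi u j m) = PT (fun a b => φ (Mi a b)) (fun a b => φ (u a b)) j m := by
  unfold PT
  rw [map_add, map_sum, map_X]
  congr 1
  apply Finset.sum_congr rfl
  intro l _
  by_cases h : l < j
  · rw [if_pos h, if_pos h, map_mul, map_SOL, map_C]
  · rw [if_neg h, if_neg h, map_zero]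

theorem map_BP (Mi u : Fin n → Fin n → A) (P : Fin n → MvPolynomial (Fin n) A) :
    map φ (BP Mi u P) = BP (fun a b => φ (Mi a b)) (fun a b => φ (u a b)) (fun j => map φ (P j)) := by
  unfold BP
  rw [map_sum]
  apply Finset.sum_congr rfl
  intro j _
  rw [map_mul, map_SOL, map_bind₁]
  congr 2
  congr 1
  funext m
  exact map_PT φ Mi u j m

theorem map_LP (Mi u : Fin n → Fin n → A) (P : Fin n → MvPolynomial (Fin n) A) (vi : Fin n → A)
    (Pi : MvPolynomial (Fin n) A) : map φ (LP Mi u P vi Pi) =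
      LP (fun a b => φ (Mi a b)) (fun a b => φ (u a b)) (fun j => map φ (P j)) (fun m => φ (vi m)) (map φ Pi) := by
  unfold LP
  rw [map_add, map_mul, map_X, map_rename, map_bind₁, map_BP]
  congr 2
  congr 1
  funext i
  rcases i with m | l
  · show map φ (X (Sum.inl m) + X (Sum.inr (Sum.inl ())) * C (vi m)) = X (Sum.inl m) + X (Sum.inr (Sum.inl ())) *
      C (φ (vi m))
    rw [map_add, map_mul, map_X, map_X, map_C]
  · show map φ (X (Sum.inr (Sum.inr l))) = X (Sum.inr (Sum.inr l))
    rw [map_X]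

theorem map_LP0 (Mi u : Fin n → Fin n → A) (P : Fin n → MvPolynomial (Fin n) A) : map φ (LP0 Mi u P) =
    LP0 (fun a b => φ (Mi a b)) (fun a b => φ (u a b)) (fun j => map φ (P j)) := by
  unfold LP0
  rw [map_bind₁, map_BP]
  congr 2
  funext i
  rcases i with m | l
  · show map φ (X (Sum.inl m)) = X (Sum.inl m)
    rw [map_X]
  · show map φ (X (Sum.inr (Sum.inr l))) = X (Sum.inr (Sum.inr l))
    rw [map_X]

theorem map_PF (Mi u : Fin n → Fin n → A) (P : Fin n → MvPolynomial (Fin n) A) : map φ (PF Mi u P) =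
    PF (fun a b => φ (Mi a b)) (fun a b => φ (u a b)) (fun j => map φ (P j)) := by
  unfold PF
  rw [map_neg, map_bind₁, map_BP]
  congr 3
  funext i
  rcases i with m | l
  · show map φ (X m) = X m
    rw [map_X]
  · show map φ (0 : MvPolynomial (Fin n) A) = 0
    rw [map_zero]

end map

/-- the potential, if the loop polynomials are constant -/
theorem PF_eq (Mi u : Fin n → Fin n → A) (P : Fin n → MvPolynomial (Fin n) A) (vi : Fin n → A)
    (Pi : MvPolynomial (Fin n) A) (h : LP Mi u P vi Pi = LP0 Mi u P) (x : Fin n → A) (s : A) :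
    eval (fun m => x m + s * vi m) (PF Mi u P) - eval x (PF Mi u P) = s * eval x Pi := by
  have h1 := congrArg (eval (pnt x s 0)) h
  rw [eval_LP, eval_LP0] at h1
  rw [eval_PF, eval_PF]
  linear_combination -h1

/-! ### broken lines -/

/-- points of a broken line with increments -/
theorem path_sum {K : ℕ} (x : Fin (K + 1) → A) (d : Fin K → A) (h : ∀ k, x k.succ = x k.castSucc + d k)
    (k : Fin (K + 1)) : x k = x 0 + ∑ l : Fin K, if l.castSucc < k then d l else 0 := by
  classical
  induction k using Fin.induction with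
  | zero =>
    have h1 : ∑ l : Fin K, (if l.castSucc < (0 : Fin (K + 1)) then d l else 0) = 0 := by
      apply Finset.sum_eq_zero
      intro l _
      rw [if_neg]
      exact Fin.not_lt_zero _
    rw [h1, add_zero]
  | succ k ih =>
    rw [h k, ih, add_assoc]
    congr 1
    have h2 : d k = ∑ l : Fin K, if l = k then d l else 0 := by
      rw [Finset.sum_ite_eq' Finset.univ k]
      simp
    conv_lhs => rw [h2]
    rw [← Finset.sum_add_distrib]
    apply Finset.sum_congr rfl
    intro l _
    have e1 : l.castSucc < k.castSucc ↔ l < k := Fin.castSucc_lt_castSucc_iff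
    have e2 : l.castSucc < k.succ ↔ l ≤ k := Fin.castSucc_lt_succ_iff
    by_cases h3 : l < k
    · rw [if_pos (e1.mpr h3), if_neg h3.ne, if_pos (e2.mpr h3.le), add_zero]
    · by_cases h4 : l = k
      · rw [if_neg (fun hc => h3 (e1.mp hc)), if_pos h4, if_pos (e2.mpr h4.le), zero_add]
      · rw [if_neg (fun hc => h3 (e1.mp hc)), if_neg h4,
          if_neg (fun hc => h3 (lt_of_le_of_ne (e2.mp hc) h4)), add_zero]

/-- the end of a broken line -/
theorem path_last {K : ℕ} (x : Fin (K + 1) → A) (d : Fin K → A) (h : ∀ k, x k.succ = x k.castSucc + d k) :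
    x (Fin.last K) = x 0 + ∑ l : Fin K, d l := by
  rw [path_sum x d h (Fin.last K)]
  congr 1
  apply Finset.sum_congr rfl
  intro l _
  rw [if_pos (Fin.castSucc_lt_last l)]

/-- transport along a broken line in the directions `vi, u_0, …, u_(n-1)` -/
theorem loop_eq (Mi u : Fin n → Fin n → A) (hM : ∀ j l, ∑ m, Mi j m * u l m = if j = l then 1 else 0)
    (P : Fin n → MvPolynomial (Fin n) A) (vi : Fin n → A)
    (Pi : MvPolynomial (Fin n) A) (x : Fin (n + 1 + 1) → Fin n → A) (z : Fin (n + 1 + 1) → A) (τ : Fin (n + 1) → A)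
    (hx0 : ∀ m, x 1 m = x 0 m + τ 0 * vi m)
    (hx : ∀ (j : Fin n) m, x j.succ.succ m = x j.succ.castSucc m + τ j.succ * u j m)
    (hz0 : z 1 = z 0 + τ 0 * eval (x 0) Pi)
    (hz : ∀ j : Fin n, z j.succ.succ = z j.succ.castSucc + τ j.succ * eval (x j.succ.castSucc) (P j)) :
    (∀ j, sol Mi (fun m => x 0 m + τ 0 * vi m) (x (Fin.last (n + 1))) j = τ j.succ) ∧
    z (Fin.last (n + 1)) = z 0 + eval (pnt (x 0) (τ 0) (x (Fin.last (n + 1)))) (LP Mi u P vi Pi) := by
  classical
  -- the points after the first step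
  obtain ⟨y, hy⟩ : ∃ y : Fin (n + 1) → Fin n → A, y = fun k => x k.succ := ⟨_, rfl⟩
  have hy0 : y 0 = fun m => x 0 m + τ 0 * vi m := by
    funext m
    rw [hy]
    exact hx0 m
  have hys : ∀ m (k : Fin n), y k.succ m = y k.castSucc m + τ k.succ * u k m := by
    intro m k
    rw [hy]
    show x k.succ.succ m = x k.castSucc.succ m + _
    rw [hx k m, Fin.succ_castSucc]
  have hlast : x (Fin.last (n + 1)) = y (Fin.last n) := by rw [hy]; rfl
  have hpath : ∀ (k : Fin (n + 1)) m, y k m = y 0 m + ∑ l : Fin n, if l.castSucc < k then τ l.succ * u l m else 0 :=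
    fun k m => path_sum (fun k => y k m) (fun l => τ l.succ * u l m) (hys m) k
  have hend : ∀ m, y (Fin.last n) m = y 0 m + ∑ l : Fin n, τ l.succ * u l m :=
    fun m => path_last (fun k => y k m) (fun l => τ l.succ * u l m) (hys m)
  have hsol : ∀ j, sol Mi (y 0) (y (Fin.last n)) j = τ j.succ := by
    intro j
    unfold sol
    have e1 : ∀ l, Mi j l * (y (Fin.last n) l - y 0 l) = ∑ a : Fin n, τ a.succ * (Mi j l * u a l) := by
      intro l
      rw [hend l, add_sub_cancel_left, Finset.mul_sum]
      apply Finset.sum_congr rfl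
      intro a _
      ring
    rw [Finset.sum_congr rfl fun l _ => e1 l, Finset.sum_comm]
    have e2 : ∀ a : Fin n, ∑ l, τ a.succ * (Mi j l * u a l) = if j = a then τ a.succ else 0 := by
      intro a
      rw [← Finset.mul_sum, hM j a]
      split_ifs <;> simp
    rw [Finset.sum_congr rfl fun a _ => e2 a, Finset.sum_ite_eq]
    simp
  refine ⟨fun j => ?_, ?_⟩
  · rw [← hy0, hlast]
    exact hsol j
  · rw [eval_LP, ← hy0, hlast]
    have hzz : z (Fin.last (n + 1)) = z 1 + ∑ j : Fin n, τ j.succ * eval (x j.succ.castSucc) (P j) := by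
      have := path_last (fun k : Fin (n + 1) => z k.succ) (fun j => τ j.succ * eval (x j.succ.castSucc) (P j))
        (fun j => by
          show z j.succ.succ = z j.castSucc.succ + _
          rw [hz j, Fin.succ_castSucc])
      exact this
    rw [hzz, hz0]
    have hb : bf Mi u P (y 0) (y (Fin.last n)) = ∑ j : Fin n, τ j.succ * eval (x j.succ.castSucc) (P j) := by
      unfold bf
      apply Finset.sum_congr rfl
      intro j _
      have e5 : pt Mi u (y 0) (y (Fin.last n)) j = x j.succ.castSucc := by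
        funext m
        unfold pt
        have e3 : x j.succ.castSucc m = y j.castSucc m := by
          rw [hy]
          show x j.succ.castSucc m = x j.castSucc.succ m
          rw [Fin.succ_castSucc]
        rw [e3, hpath j.castSucc m]
        congr 1
        apply Finset.sum_congr rfl
        intro l _
        rw [hsol l]
        have e4 : l.castSucc < j.castSucc ↔ l < j := Fin.castSucc_lt_castSucc_iff
        by_cases h : l < j
        · rw [if_pos h, if_pos (e4.mpr h)]
        · rw [if_neg h, if_neg (fun hc => h (e4.mp hc))]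
      rw [hsol j, e5]
    rw [hb]
    ring

end

end Pool.Agent.Helper19.SP
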