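import Pool.Agent.Helper31.EC.Sep

/-! Walks with frozen labels: every step is a copy of the current point given a line through it and the labels. -/

set_option autoImplicit false

namespace Pool.Agent.Helper31.EC

open Finset Filter Topology Pool.Agent.Helper69.RK

noncomputable section

open Sp QS

/-- copies given a finite family of functions -/
theorem Pj.exists_copy' {W S : Sp} (p : Pj W S) {ι : Type} [Fintype ι] (f : ι → QS S) :
    ∃ (D : Sp) (p1 : Pj D W) (p2 : Pj D S), (∀ i, p1.qs (p.qs (f i)) = p2.qs (f i)) ∧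
      (∀ x y, I (p1.map x) (p2.map y) (p1.map (p.map (vd f 1))) = 0) := by
  set e : Fin (Fintype.card ι) ≃ ι := (Fintype.equivFin ι).symm with he
  obtain ⟨D, p1, p2, h1, h2⟩ := p.exists_copy (fun i => f (e i))
  refine ⟨D, p1, p2, fun i => ?_, fun x y => ?_⟩
  · obtain ⟨j, rfl⟩ := e.surjective i
    exact h1 j
  · have h3 := h2 x y
    have h4 : vd (fun i => f (e i)) 1 = vd f 1 := vd_equiv e f 1
    rw [h4] at h3
    exact h3

variable {W : Sp}

/-- the data of a line through the point: labels, slopes, intercepts -/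
def lnf {ι μ : Type} (G : ι → QS W) (t : QS W) (c s : μ → QS W) : ι ⊕ (μ ⊕ μ) → QS W :=
  Sum.elim G (Sum.elim s (fun m => c m - t * s m))

theorem vd_lnf {ι μ : Type} [Fintype ι] [Fintype μ] (G : ι → QS W) (t : QS W) (c s : μ → QS W) (r : ℝ) :
    vd (lnf G t c s) r = vd G r ⊔ (vd s r ⊔ vd (fun m => c m - t * s m) r) := by
  apply le_antisymm
  · rw [vd_le]
    rintro (a | a | a)
    · exact (dg_le_vd G r a).trans le_sup_left
    · exact (dg_le_vd s r a).trans (le_sup_left.trans le_sup_right)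
    · exact (dg_le_vd (fun m => c m - t * s m) r a).trans (le_sup_right.trans le_sup_right)
  · apply sup_le
    · rw [vd_le]
      intro a
      exact dg_le_vd (lnf G t c s) r (Sum.inl a)
    · apply sup_le
      · rw [vd_le]
        intro a
        exact dg_le_vd (lnf G t c s) r (Sum.inr (Sum.inl a))
      · rw [vd_le]
        intro a
        exact dg_le_vd (lnf G t c s) r (Sum.inr (Sum.inr a))

/-- one step -/
theorem exists_step {R : Sp} (p : Pj R W) {ι μ : Type} [Fintype ι] [Fintype μ] (G : ι → QS W) (t : QS W)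
    (c s : μ → QS W) (ht : h (dg t 1) (vd (lnf G t c s) 1) = 1) :
    ∃ (D : Sp) (p1 : Pj D R) (p2 : Pj D W) (τ : QS D), τ = p2.qs t - p1.qs (p.qs t) ∧
      (∀ i, p2.qs (G i) = p1.qs (p.qs (G i))) ∧ (∀ m, p2.qs (s m) = p1.qs (p.qs (s m))) ∧
      (∀ m, p2.qs (c m) = p1.qs (p.qs (c m)) + τ * p1.qs (p.qs (s m))) ∧
      (∀ x : R.L, h (dg τ 1) (p1.map x) = 1) ∧
      (∀ x y, I (p1.map x) (p2.map y) (p1.map (p.map (vd (lnf G t c s) 1))) = 0) := by
  obtain ⟨D, p1, p2, h1, h2⟩ := p.exists_copy' (lnf G t c s)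
  have hG : ∀ i, p2.qs (G i) = p1.qs (p.qs (G i)) := fun i => (h1 (Sum.inl i)).symm
  have hs : ∀ m, p2.qs (s m) = p1.qs (p.qs (s m)) := fun m => (h1 (Sum.inr (Sum.inl m))).symm
  have hc : ∀ m, p1.qs (p.qs (c m - t * s m)) = p2.qs (c m - t * s m) := fun m => h1 (Sum.inr (Sum.inr m))
  refine ⟨D, p1, p2, p2.qs t - p1.qs (p.qs t), rfl, hG, hs, fun m => ?_, fun x => ?_, h2⟩
  · have e1 := hc m
    rw [map_sub, map_sub, map_mul, map_mul, map_sub, map_mul, hs m] at e1
    linear_combination -e1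
  · apply le_antisymm (h_dg_le_one _ _)
    obtain ⟨C, hC⟩ : ∃ C, C = p1.map (p.map (vd (lnf G t c s) 1)) := ⟨_, rfl⟩
    have hC2 : C = p2.map (vd (lnf G t c s) 1) := by
      rw [hC, ← p.qs_vd, ← p1.qs_vd, ← p2.qs_vd]
      congr 1
      funext i
      exact h1 i
    have e1 := h2 (x ⊔ p.map (dg t 1)) (dg t 1)
    rw [← hC, I_zero_iff_h'] at e1
    have e2 : h (p2.map (dg t 1)) C = 1 := by rw [hC2, Pj.h_map]; exact ht
    rw [e2] at e1
    -- `t'` is known to `τ` and `t`
    have e3 : p2.map (dg t 1) ≤ dg (p2.qs t - p1.qs (p.qs t)) 1 ⊔ p1.map (x ⊔ p.map (dg t 1)) := by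
      rw [← p2.qs_dg]
      have e4 : p2.qs t = (p2.qs t - p1.qs (p.qs t)) + p1.qs (p.qs t) := by ring
      have e5 := dg_add_le (p2.qs t - p1.qs (p.qs t)) (p1.qs (p.qs t)) (le_refl (1 : ℝ))
      rw [← e4] at e5
      refine e5.trans (sup_le_sup_left ?_ _)
      rw [p1.qs_dg, p.qs_dg]
      exact p1.map_mono le_sup_right
    have e6 : h (p2.map (dg t 1)) (p1.map (x ⊔ p.map (dg t 1)) ⊔ C) ≤
        h (dg (p2.qs t - p1.qs (p.qs t)) 1) (p1.map (x ⊔ p.map (dg t 1)) ⊔ C) := by
      have e7 := h_mono (B := p1.map (x ⊔ p.map (dg t 1)) ⊔ C) (e3.trans (sup_le_sup_left le_sup_left _ :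
        dg (p2.qs t - p1.qs (p.qs t)) 1 ⊔ p1.map (x ⊔ p.map (dg t 1)) ≤
          dg (p2.qs t - p1.qs (p.qs t)) 1 ⊔ (p1.map (x ⊔ p.map (dg t 1)) ⊔ C)))
      rw [h_sup_right_of_le (le_refl (p1.map (x ⊔ p.map (dg t 1)) ⊔ C))] at e7
      exact e7
    rw [e1] at e6
    refine e6.trans (h_anti ?_)
    exact (p1.map_mono le_sup_left).trans le_sup_left

/-- walks with frozen labels `G`, time `t`, coordinates `c`, slopes `s k` of the line of type `k` through the point -/
structure Wk {ι μ κ : Type} [Fintype ι] [Fintype μ] (G : ι → QS W) (t : QS W) (c : μ → QS W) (s : κ → μ → QS W)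
    (K : ℕ) (σ : Fin K → κ) where
  R : Sp
  p : Fin (K + 1) → Pj R W
  τ : Fin K → QS R
  com : ∀ a b i, (p a).qs (G i) = (p b).qs (G i)
  ht : ∀ k, τ k = (p k.succ).qs t - (p k.castSucc).qs t
  hs : ∀ k m, (p k.succ).qs (s (σ k) m) = (p k.castSucc).qs (s (σ k) m)
  hc : ∀ k m, (p k.succ).qs (c m) = (p k.castSucc).qs (c m) + τ k * (p k.castSucc).qs (s (σ k) m)
  rl : ∀ x : W.L, Rl τ ((p 0).map x)

/-- walks exist -/
theorem exists_walk {ι μ κ : Type} [Fintype ι] [Fintype μ] (G : ι → QS W) (t : QS W) (c : μ → QS W)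
    (s : κ → μ → QS W) (ht : ∀ k, h (dg t 1) (vd (lnf G t c (s k)) 1) = 1) :
    ∀ (K : ℕ) (σ : Fin K → κ), Nonempty (Wk G t c s K σ) := by
  intro K
  induction K with
  | zero =>
    intro σ
    refine ⟨⟨W, fun _ => Pj.id W, fun k => k.elim0, fun _ _ _ => rfl, fun k => k.elim0, fun k => k.elim0,
      fun k => k.elim0, fun x => ?_⟩⟩
    unfold Rl
    have h1 : vd (fun k : Fin 0 => (k.elim0 : QS W)) 1 = ⊥ := by
      apply le_antisymm _ bot_le
      rw [vd_le]
      intro i
      exact i.elim0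
    rw [h1, h_zero bot_le]
    simp
  | succ K ih =>
    intro σ
    obtain ⟨w⟩ := ih (fun k => σ k.castSucc)
    obtain ⟨D, p1, p2, τ, hτ, hG, hs, hc, hr, _⟩ := exists_step (w.p (Fin.last K)) G t c (s (σ (Fin.last K)))
      (ht _)
    refine ⟨⟨D, Fin.snoc (fun a => p1.comp (w.p a)) p2, Fin.snoc (fun k => p1.qs (w.τ k)) τ, ?_, ?_, ?_, ?_, ?_⟩⟩
    · have key : ∀ a i, (Fin.snoc (α := fun _ => Pj D W) (fun a => p1.comp (w.p a)) p2 a).qs (G i) =
          p1.qs ((w.p (Fin.last K)).qs (G i)) := by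
        intro a i
        induction a using Fin.lastCases with
        | last => rw [Fin.snoc_last]; exact hG i
        | cast a => rw [Fin.snoc_castSucc, Pj.comp_qs, w.com a (Fin.last K) i]
      intro a b i
      rw [key, key]
    · intro k
      induction k using Fin.lastCases with
      | last =>
        rw [Fin.snoc_last, Fin.succ_last, Fin.snoc_last, Fin.snoc_castSucc, Pj.comp_qs]
        exact hτ
      | cast k =>
        rw [Fin.snoc_castSucc, Fin.succ_castSucc, Fin.snoc_castSucc, Fin.snoc_castSucc, Pj.comp_qs, Pj.comp_qs,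
          w.ht k, map_sub]
    · intro k m
      induction k using Fin.lastCases with
      | last =>
        rw [Fin.succ_last, Fin.snoc_last, Fin.snoc_castSucc, Pj.comp_qs]
        exact hs m
      | cast k =>
        rw [Fin.succ_castSucc, Fin.snoc_castSucc, Fin.snoc_castSucc, Pj.comp_qs, Pj.comp_qs, w.hs k m]
    · intro k m
      induction k using Fin.lastCases with
      | last =>
        rw [Fin.succ_last, Fin.snoc_last, Fin.snoc_castSucc, Fin.snoc_last, Pj.comp_qs, Pj.comp_qs]
        exact hc m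
      | cast k =>
        rw [Fin.succ_castSucc, Fin.snoc_castSucc, Fin.snoc_castSucc, Fin.snoc_castSucc, Pj.comp_qs, Pj.comp_qs,
          Pj.comp_qs, w.hc k m, map_add, map_mul]
    · intro x
      have e0 : (Fin.snoc (α := fun _ => Pj D W) (fun a => p1.comp (w.p a)) p2 0) = p1.comp (w.p 0) := by
        have : (0 : Fin (K + 1 + 1)) = (0 : Fin (K + 1)).castSucc := rfl
        rw [this, Fin.snoc_castSucc]
      rw [e0, Pj.comp_map]
      apply Rl.of_ge
      have e1 : vd (Fin.snoc (α := fun _ => QS D) (fun k => p1.qs (w.τ k)) τ) 1 = p1.map (vd w.τ 1) ⊔ dg τ 1 := by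
        rw [← p1.qs_vd]
        apply le_antisymm
        · rw [vd_le]
          intro k
          induction k using Fin.lastCases with
          | last => rw [Fin.snoc_last]; exact le_sup_right
          | cast k =>
            rw [Fin.snoc_castSucc]
            exact (dg_le_vd (fun k => p1.qs (w.τ k)) 1 k).trans le_sup_left
        · apply sup_le
          · rw [vd_le]
            intro k
            have := dg_le_vd (Fin.snoc (α := fun _ => QS D) (fun k => p1.qs (w.τ k)) τ) 1 k.castSucc
            rw [Fin.snoc_castSucc] at this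
            exact this
          · have := dg_le_vd (Fin.snoc (α := fun _ => QS D) (fun k => p1.qs (w.τ k)) τ) 1 (Fin.last K)
            rw [Fin.snoc_last] at this
            exact this
      rw [e1, h_chain]
      have e2 : h (p1.map (vd w.τ 1)) (p1.map ((w.p 0).map x)) = K := by
        rw [Pj.h_map]
        have := w.rl x
        unfold Rl at this
        rw [Fintype.card_fin] at this
        exact this
      have e3 : h (dg τ 1) (p1.map (vd w.τ 1) ⊔ p1.map ((w.p 0).map x)) = 1 := by
        rw [← p1.map_sup]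
        exact hr _
      rw [e2, e3, Fintype.card_fin]
      push_cast
      exact le_rfl

end

end Pool.Agent.Helper31.EC
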