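import Pool.Agent.Helper19.SP.Absorb
import Pool.Agent.Helper19.SP.Walk
import Pool.Agent.Helper19.SP.LoopAlg
import Pool.Agent.Helper19.SP.MvU

/-! LOOP (50b, section 5): the transport along loops of frozen directions is trivial over an unsaturated coordinate.
Tools: literally common data, partial evaluation, the entropy counts. -/

set_option autoImplicit false

namespace Pool.Agent.Helper31.EC

open Finset Filter Topology Pool.Agent.Helper69.RK Pool.Agent.Helper19.SP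

noncomputable section

open Sp QS

variable {S : Sp}

/-- literally common coefficients -/
theorem map_eq_of_coeff {R W : Sp} (p p' : Pj R W) {σ : Type} (P : MvPolynomial σ (QS W))
    (h : ∀ m ∈ P.support, p.qs (P.coeff m) = p'.qs (P.coeff m)) :
    MvPolynomial.map p.qs P = MvPolynomial.map p'.qs P := by
  ext m
  rw [MvPolynomial.coeff_map, MvPolynomial.coeff_map]
  by_cases hm : m ∈ P.support
  · exact h m hm
  · rw [MvPolynomial.notMem_support_iff.mp hm, map_zero, map_zero]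

/-- partial evaluation of a polynomial in `(x, τ, y)` -/
def pev {A : Type*} [CommRing A] {n : ℕ} (x y : Fin n → A) :
    MvPolynomial (Fin n ⊕ (Unit ⊕ Fin n)) A →+* Polynomial A :=
  MvPolynomial.eval₂Hom Polynomial.C
    (Sum.elim (fun m => Polynomial.C (x m)) (Sum.elim (fun _ => Polynomial.X) (fun m => Polynomial.C (y m))))

theorem pev_eval {A : Type*} [CommRing A] {n : ℕ} (x y : Fin n → A) (F : MvPolynomial (Fin n ⊕ (Unit ⊕ Fin n)) A)
    (s : A) : (pev x y F).eval s = MvPolynomial.eval (pnt x s y) F := by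
  have h1 : (Polynomial.evalRingHom s).comp (pev x y) = MvPolynomial.eval (pnt x s y) := by
    apply MvPolynomial.ringHom_ext
    · intro a
      simp [pev]
    · rintro (m | u | m) <;> simp [pev, pnt]
  exact RingHom.congr_fun h1 F

/-- coefficients of partial evaluations -/
theorem pev_coeff {n : ℕ} (x y : Fin n → QS S) (F : MvPolynomial (Fin n ⊕ (Unit ⊕ Fin n)) (QS S)) {A X : S.L}
    (hF : F ∈ PK A) (hA : A ≤ X) (hx : ∀ m, dg (x m) 1 ≤ X) (hy : ∀ m, dg (y m) 1 ≤ X) (a : ℕ) :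
    dg ((pev x y F).coeff a) 1 ≤ X := by
  obtain ⟨K, hK⟩ : ∃ K : Subring (QS S), ∀ c, c ∈ K ↔ dg c 1 ≤ X := ⟨Kn S 1 le_rfl X, fun _ => Iff.rfl⟩
  have hC : ∀ c : QS S, dg c 1 ≤ X → Polynomial.C c ∈ (Polynomial.mapRingHom K.subtype).range := by
    intro c hc
    have hc' : c ∈ K := (hK c).mpr hc
    exact ⟨Polynomial.C ⟨c, hc'⟩, by simp⟩
  have h1 : pev x y F ∈ (Polynomial.mapRingHom K.subtype).range := by
    rw [F.as_sum, map_sum]
    apply Subring.sum_mem
    intro m _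
    unfold pev
    rw [MvPolynomial.coe_eval₂Hom, MvPolynomial.eval₂_monomial]
    apply Subring.mul_mem
    · exact hC _ ((hF m).trans hA)
    · unfold Finsupp.prod
      apply Subring.prod_mem
      intro i _
      apply Subring.pow_mem
      rcases i with i | i | i
      · exact hC _ (hx i)
      · exact ⟨Polynomial.X, by simp⟩
      · exact hC _ (hy i)
  rw [Polynomial.mem_map_range] at h1
  obtain ⟨c, hc⟩ := h1 a
  rw [← hc]
  exact (hK _).mp c.2

/-- substitution of polynomials with known coefficients -/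
theorem bind1_mem {σ τ : Type} {A : S.L} (f : σ → MvPolynomial τ (QS S)) (hf : ∀ i, f i ∈ PK A)
    {P : MvPolynomial σ (QS S)} (hP : P ∈ PK A) : MvPolynomial.bind₁ f P ∈ PK A := by
  rw [P.as_sum, map_sum]
  apply (PK A).sum_mem
  intro m _
  rw [MvPolynomial.bind₁_monomial]
  apply (PK A).mul_mem (C_mem (hP m))
  exact (PK A).prod_mem fun i _ => (PK A).pow_mem (hf i) _

section mem

variable {n : ℕ} {A : S.L} {Mi u : Fin n → Fin n → QS S} {P : Fin n → MvPolynomial (Fin n) (QS S)}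
  {vi : Fin n → QS S} {Pi : MvPolynomial (Fin n) (QS S)} (hMi : ∀ j l, dg (Mi j l) 1 ≤ A)
  (hu : ∀ j l, dg (u j l) 1 ≤ A) (hP : ∀ j, P j ∈ PK A)

include hMi in
theorem SOL_mem (j : Fin n) : SOL Mi j ∈ PK A :=
  (PK A).sum_mem fun l _ => (PK A).mul_mem (C_mem (hMi j l)) ((PK A).sub_mem (X_mem A _) (X_mem A _))

include hMi hu in
theorem PT_mem (j m : Fin n) : PT Mi u j m ∈ PK A := by
  apply (PK A).add_mem (X_mem A _)
  apply (PK A).sum_mem
  intro l _
  split_ifs
  · exact (PK A).mul_mem (SOL_mem hMi l) (C_mem (hu l m))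
  · exact (PK A).zero_mem

include hMi hu hP in
theorem BP_mem : BP Mi u P ∈ PK A :=
  (PK A).sum_mem fun j _ => (PK A).mul_mem (SOL_mem hMi j) (bind1_mem _ (PT_mem hMi hu j) (hP j))

include hMi hu hP in
theorem LP_mem (hvi : ∀ l, dg (vi l) 1 ≤ A) (hPi : Pi ∈ PK A) : LP Mi u P vi Pi ∈ PK A := by
  apply (PK A).add_mem
  · exact (PK A).mul_mem (X_mem A _) (rename_mem _ hPi)
  · apply bind1_mem _ _ (BP_mem hMi hu hP)
    rintro (m | l)
    · exact (PK A).add_mem (X_mem A _) ((PK A).mul_mem (X_mem A _) (C_mem (hvi m)))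
    · exact X_mem A _

include hMi hu hP in
theorem LP0_mem : LP0 Mi u P ∈ PK A := by
  apply bind1_mem _ _ (BP_mem hMi hu hP)
  rintro (m | l)
  · exact X_mem A _
  · exact X_mem A _

include hMi hu hP in
theorem PF_mem : PF Mi u P ∈ PK A := by
  apply (PK A).neg_mem
  apply bind1_mem _ _ (BP_mem hMi hu hP)
  rintro (m | l)
  · exact X_mem A _
  · exact (PK A).zero_mem

end mem

/-- the entropy counts of a loop -/
theorem loop_counts {W : Sp} {n : ℕ} {X Q Q' G T Z Z' V : W.L} (hQ : ∀ B, h Q' B ≤ n) (hT : ∀ B, h T B ≤ 1)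
    (hV : h V (Q ⊔ G ⊔ Z) = n + 1) (hV' : V ≤ (T ⊔ Q') ⊔ (Q ⊔ G)) (hX : X = Q' ⊔ (Q ⊔ G))
    (hZ : Z ≤ Z' ⊔ T ⊔ X) (hZZ : h Z' (Q' ⊔ G) ≤ h Z (Q ⊔ G)) :
    h (T ⊔ Q') (Q ⊔ G) = n + 1 ∧ h T (X ⊔ Z') = 1 := by
  obtain ⟨C, hC⟩ : ∃ C, C = Q ⊔ G := ⟨_, rfl⟩
  rw [← hC] at hV hV' hX hZZ ⊢
  have a1 : h (T ⊔ Q') (C ⊔ Z) = n + 1 := by
    apply le_antisymm
    · refine (h_sup_le _ _ _).trans ?_
      linarith [hQ (C ⊔ Z), hT (C ⊔ Z)]
    · rw [← hV]
      have h1 : h V (C ⊔ Z) ≤ h ((T ⊔ Q') ⊔ (C ⊔ Z)) (C ⊔ Z) := by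
        apply h_mono
        exact hV'.trans (sup_le_sup_left le_sup_left _)
      rw [h_sup_right_of_le le_rfl] at h1
      exact h1
  have a3 : h (T ⊔ Q') C = n + 1 := by
    apply le_antisymm
    · refine (h_sup_le _ _ _).trans ?_
      linarith [hQ C, hT C]
    · rw [← a1]
      exact h_anti le_sup_left
  have a4 : h Q' (C ⊔ Z) + h T (Q' ⊔ (C ⊔ Z)) = n + 1 := by
    rw [← a1, sup_comm T Q', h_chain]
  have a5 := hQ (C ⊔ Z)
  have a6 := hT (Q' ⊔ (C ⊔ Z))
  have a7 : h Q' (C ⊔ Z) = n := by linarith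
  have a8 : h T (Q' ⊔ (C ⊔ Z)) = 1 := by linarith
  have a9 : h Q' C = n := le_antisymm (hQ C) (by rw [← a7]; exact h_anti le_sup_left)
  have a10 : h Z (Q' ⊔ C) = h Z C := by
    rw [← I_zero_iff_h, I_zero_iff_h', sup_comm Z C, a7, a9]
  have a11 : h (T ⊔ Z) X = h Z C + 1 := by
    rw [sup_comm T Z, h_chain, hX, a10, ← a8]
    congr 2
    rw [sup_comm Z, sup_assoc]
  have a12 : h (T ⊔ Z') X = h Z' X + h T (Z' ⊔ X) := by
    rw [sup_comm T Z', h_chain]
  have a13 : h (T ⊔ Z) X ≤ h (T ⊔ Z') X := by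
    have h1 : h (T ⊔ Z) X ≤ h ((T ⊔ Z') ⊔ X) X := by
      apply h_mono
      refine sup_le (le_sup_left.trans le_sup_left) (hZ.trans ?_)
      rw [sup_comm Z' T]
    rw [h_sup_right_of_le le_rfl] at h1
    exact h1
  have a14 : h Z' X ≤ h Z C := by
    refine le_trans (h_anti ?_) hZZ
    rw [hX, hC]
    exact sup_le le_sup_left (le_sup_right.trans le_sup_right)
  refine ⟨a3, le_antisymm (hT _) ?_⟩
  rw [sup_comm X Z']
  linarith

end

end Pool.Agent.Helper31.EC
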