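import Mathlib

/-! Polynomials of bounded degree: the coefficients are controlled by the values at separated points. -/

set_option autoImplicit false

namespace Pool.Agent.Helper19.SP

open Finset

/-- value of the polynomial with coefficients `d` -/
def pv {R : Type*} [CommRing R] {k : ℕ} (d : Fin (k + 1) → R) (s : R) : R := ∑ i, d i * s ^ (i : ℕ)

theorem vdm_det_lower {k : ℕ} (s : Fin (k + 1) → ℝ) (l : ℝ) (h0 : 0 < l) (h1 : l ≤ 1)
    (hsep : ∀ i j, i ≠ j → l ≤ |s i - s j|) : l ^ ((k + 1) * (k + 1)) ≤ |(Matrix.vandermonde s).det| := by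
  rw [Matrix.det_vandermonde, Finset.abs_prod]
  have h2 : ∀ i : Fin (k + 1), l ^ (k + 1) ≤ |∏ j ∈ Finset.Ioi i, (s j - s i)| := by
    intro i
    rw [Finset.abs_prod]
    have h3 : ∏ _j ∈ Finset.Ioi i, l ≤ ∏ j ∈ Finset.Ioi i, |s j - s i| := by
      apply Finset.prod_le_prod
      · intro j _; exact h0.le
      · intro j hj
        exact hsep j i (Finset.mem_Ioi.mp hj).ne'
    rw [Finset.prod_const] at h3
    refine le_trans ?_ h3
    apply pow_le_pow_of_le_one h0.le h1
    have := Finset.card_le_univ (Finset.Ioi i)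
    rwa [Fintype.card_fin] at this
  have h4 : ∏ _i : Fin (k + 1), l ^ (k + 1) ≤ ∏ i : Fin (k + 1), |∏ j ∈ Finset.Ioi i, (s j - s i)| := by
    apply Finset.prod_le_prod
    · intro i _; positivity
    · intro i _; exact h2 i
  rw [Finset.prod_const, Finset.card_univ, Fintype.card_fin, ← pow_mul] at h4
  exact h4

/-- the constant in the Vandermonde estimate -/
noncomputable def cv (k : ℕ) (K : ℝ) : ℝ := (k + 1) * (((k + 1).factorial : ℝ) * (K ^ k) ^ (k + 1))

theorem cv_nonneg (k : ℕ) {K : ℝ} (hK : 0 ≤ K) : 0 ≤ cv k K := by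
  unfold cv; positivity

/-- coefficients from values at separated points -/
theorem coeff_le {k : ℕ} (s d : Fin (k + 1) → ℝ) (l K e : ℝ) (h0 : 0 < l) (h1 : l ≤ 1) (hK : 1 ≤ K)
    (hs : ∀ i, |s i| ≤ K) (hsep : ∀ i j, i ≠ j → l ≤ |s i - s j|) (hv : ∀ j, |pv d (s j)| ≤ e) (i : Fin (k + 1)) :
    l ^ ((k + 1) * (k + 1)) * |d i| ≤ cv k K * e := by
  have he : 0 ≤ e := (abs_nonneg _).trans (hv 0)
  set V := Matrix.vandermonde s with hV
  have h2 : V.mulVec d = fun j => pv d (s j) := by
    funext j
    rw [hV, Matrix.mulVec, dotProduct]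
    unfold pv
    apply Finset.sum_congr rfl
    intro i _
    rw [Matrix.vandermonde_apply]; ring
  have h3 : V.det * d i = ∑ j, V.adjugate i j * pv d (s j) := by
    have h4 : V.adjugate.mulVec (V.mulVec d) = V.det • d := by
      rw [Matrix.mulVec_mulVec, Matrix.adjugate_mul, Matrix.smul_mulVec, Matrix.one_mulVec]
    have h5 := congrFun h4 i
    rw [h2] at h5
    exact h5.symm
  have hKk : (1 : ℝ) ≤ K ^ k := one_le_pow₀ hK
  have h6 : ∀ j, |V.adjugate i j| ≤ ((k + 1).factorial : ℝ) * (K ^ k) ^ (k + 1) := by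
    intro j
    rw [Matrix.adjugate_apply]
    have h7 := Matrix.det_le (A := V.updateRow j (Pi.single i 1)) (abv := AbsoluteValue.abs) (x := K ^ k) (by
      intro a b
      show |V.updateRow j (Pi.single i 1) a b| ≤ K ^ k
      rw [Matrix.updateRow_apply]
      split_ifs with h8
      · rw [Pi.single_apply]
        split_ifs
        · rw [abs_one]; exact hKk
        · rw [abs_zero]; linarith
      · rw [hV, Matrix.vandermonde_apply, abs_pow]
        have hb : (b : ℕ) ≤ k := Nat.lt_succ_iff.mp b.2
        calc |s a| ^ (b : ℕ) ≤ K ^ (b : ℕ) := pow_le_pow_left₀ (abs_nonneg _) (hs a) _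
          _ ≤ K ^ k := pow_le_pow_right₀ hK hb)
    rw [Fintype.card_fin, nsmul_eq_mul] at h7
    exact h7
  have h8 : |V.det| * |d i| ≤ cv k K * e := by
    rw [← abs_mul, h3]
    refine (Finset.abs_sum_le_sum_abs _ _).trans ?_
    have h9 : ∀ j ∈ (Finset.univ : Finset (Fin (k + 1))), |V.adjugate i j * pv d (s j)| ≤
        ((k + 1).factorial : ℝ) * (K ^ k) ^ (k + 1) * e := by
      intro j _
      rw [abs_mul]
      exact mul_le_mul (h6 j) (hv j) (abs_nonneg _) (by positivity)
    refine (Finset.sum_le_sum h9).trans (le_of_eq ?_)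
    rw [Finset.sum_const, Finset.card_univ, Fintype.card_fin, nsmul_eq_mul]
    unfold cv
    push_cast
    ring
  exact (mul_le_mul_of_nonneg_right (vdm_det_lower s l h0 h1 hsep) (abs_nonneg _)).trans h8

/-- a set of reals without `k + 1` separated points lies in `k` intervals; its cells of width `l` are few -/
theorem card_cells {ι : Type*} (k : ℕ) (l : ℝ) (h0 : 0 < l) (P : ι → Prop) (x : ι → ℝ)
    (hA : ¬ ∃ t : Fin (k + 1) → ι, (∀ i, P (t i)) ∧ ∀ i j, i ≠ j → l ≤ |x (t i) - x (t j)|) (B : Finset ℤ)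
    (hB : ∀ q ∈ B, ∃ a, P a ∧ ⌊x a / l⌋ = q) : B.card ≤ 3 * k := by
  classical
  -- a maximal separated family
  have key : ∃ m : ℕ, m ≤ k ∧ ∃ t : Fin m → ι, (∀ i, P (t i)) ∧ (∀ i j, i ≠ j → l ≤ |x (t i) - x (t j)|) ∧
      ∀ a, P a → ∃ i, |x a - x (t i)| < l := by
    by_contra hc
    push Not at hc
    apply hA
    have : ∀ m : ℕ, m ≤ k + 1 → ∃ t : Fin m → ι, (∀ i, P (t i)) ∧ ∀ i j, i ≠ j → l ≤ |x (t i) - x (t j)| := by
      intro m
      induction m with
      | zero => intro _; exact ⟨fun i => i.elim0, fun i => i.elim0, fun i => i.elim0⟩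
      | succ m ih =>
        intro hm
        obtain ⟨t, ht, ht'⟩ := ih (by omega)
        obtain ⟨a, ha, ha'⟩ := hc m (by omega) t ht ht'
        refine ⟨Fin.snoc t a, ?_, ?_⟩
        · intro i
          induction i using Fin.lastCases with
          | last => rw [Fin.snoc_last]; exact ha
          | cast i => rw [Fin.snoc_castSucc]; exact ht i
        · intro i j
          induction i using Fin.lastCases with
          | last =>
            induction j using Fin.lastCases with
            | last => intro h; exact absurd rfl h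
            | cast j =>
              intro _
              rw [Fin.snoc_last, Fin.snoc_castSucc]
              exact ha' j
          | cast i =>
            induction j using Fin.lastCases with
            | last =>
              intro _
              rw [Fin.snoc_last, Fin.snoc_castSucc, abs_sub_comm]
              exact ha' i
            | cast j =>
              intro h
              rw [Fin.snoc_castSucc, Fin.snoc_castSucc]
              exact ht' i j (fun h' => h (by rw [h']))
    exact this (k + 1) le_rfl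
  obtain ⟨m, hm, t, _, _, ht⟩ := key
  have h1 : B ⊆ Finset.univ.biUnion fun i : Fin m => Finset.Icc (⌊x (t i) / l⌋ - 1) (⌊x (t i) / l⌋ + 1) := by
    intro q hq
    obtain ⟨a, ha, rfl⟩ := hB q hq
    obtain ⟨i, hi⟩ := ht a ha
    rw [Finset.mem_biUnion]
    refine ⟨i, Finset.mem_univ _, ?_⟩
    rw [Finset.mem_Icc]
    have h2 : |x a / l - x (t i) / l| < 1 := by
      rw [← sub_div, abs_div, abs_of_pos h0, div_lt_one h0]
      exact hi
    rw [abs_lt] at h2
    have f1 := Int.floor_le (x a / l)
    have f2 := Int.lt_floor_add_one (x a / l)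
    have f3 := Int.floor_le (x (t i) / l)
    have f4 := Int.lt_floor_add_one (x (t i) / l)
    constructor
    · have : (⌊x (t i) / l⌋ : ℝ) - 2 < ⌊x a / l⌋ := by linarith [h2.1]
      have h3 : ⌊x (t i) / l⌋ - 2 < ⌊x a / l⌋ := by exact_mod_cast this
      omega
    · have : (⌊x a / l⌋ : ℝ) < ⌊x (t i) / l⌋ + 2 := by linarith [h2.2]
      have h3 : ⌊x a / l⌋ < ⌊x (t i) / l⌋ + 2 := by exact_mod_cast this
      omega
  refine (Finset.card_le_card h1).trans ?_
  refine Finset.card_biUnion_le.trans ?_
  have h4 : ∀ i ∈ (Finset.univ : Finset (Fin m)),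
      (Finset.Icc (⌊x (t i) / l⌋ - 1) (⌊x (t i) / l⌋ + 1)).card = 3 := by
    intro i _
    rw [Int.card_Icc]
    have : ⌊x (t i) / l⌋ + 1 + 1 - (⌊x (t i) / l⌋ - 1) = 3 := by ring
    rw [this]; rfl
  rw [Finset.sum_congr rfl h4, Finset.sum_const, Finset.card_univ, Fintype.card_fin, smul_eq_mul]
  omega

end Pool.Agent.Helper19.SP
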