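import Pool.Agent.Helper31.EC.Uns
import Pool.Agent.Helper19.SP.Vdm

/-! Polynomials of a real variable with known coefficients are typically as large as their coefficients. -/

set_option autoImplicit false

namespace Pool.Agent.Helper31.EC

open Finset Filter Topology Pool.Agent.Helper69.RK Pool.Agent.Helper19.SP

noncomputable section

namespace TR

open Sp

variable {S : Sp}

/-- few cells on every atom -/
theorem dg_le_of_card (f : TR S) (b : ℝ) (A : S.Inf) (N : ℕ)
    (hh : ∀ᶠ k in UF, ∀ ω, (S.F k).μ ω ≠ 0 → nvf (S.F k).μ (fun ω' => ⌊ev f k ω' / S.dl b k⌋)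
      (Quotient.mk (A.1 k ⊓ (S.F k).Z)) ω ≤ N) : dg f b ≤ cl A := by
  unfold dg VV.dg
  rw [io_eq (VV.bdd _ b), cl_le, Inf.le_def]
  refine tendsto_of_tendsto_of_tendsto_of_le_of_le' tendsto_const_nhds
    (S.div_n_tendsto (Real.logb 2 N)) (Eventually.of_forall fun k => rt_nonneg _ _ k) ?_
  filter_upwards [hh] with k hk
  have hn := (S.F k).pos
  unfold rt
  apply div_le_div_of_nonneg_right _ hn.le
  have e0 : (S.F k).e ((VV.bdd (vec fun _ : Fin 1 => f) b).toInf.1 k) (A.1 k ⊓ (S.F k).Z) =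
      CH (S.F k).μ (fun ω' => ⌊ev f k ω' / S.dl b k⌋) (Quotient.mk (A.1 k ⊓ (S.F k).Z)) := by
    apply (S.F k).e_congr
    · intro ω ω' _ _
      constructor
      · intro h
        exact congrFun h 0
      · intro h
        funext i
        exact h
    · intro ω ω' _ _
      exact Quotient.eq.symm
  rw [e0]
  have h1 := st_E3.1 (S.F k).Ω _ _ (S.F k).μ (fun ω' => ⌊ev f k ω' / S.dl b k⌋)
    (Quotient.mk (A.1 k ⊓ (S.F k).Z)) (fun _ => (N : ℝ)) (S.F k).nn
    (fun ω hω => by
      have := hk ω hω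
      unfold nvf at this
      exact_mod_cast this)
  rw [← Finset.sum_mul] at h1
  have h2 : ∑ ω, (S.F k).μ ω = 1 := (S.F k).ms
  rw [h2, one_mul] at h1
  exact h1

/-- information on the digits of finitely many functions: representative -/
theorem exists_rep_dg {m : ℕ} (d : Fin m → TR S) (r : ℝ) (X : S.L) (hd : ∀ i, dg (d i) r ≤ X) :
    ∃ A : S.Inf, cl A = X ∧ ∀ k ω ω', A.1 k ω ω' → ∀ i, |ev (d i) k ω - ev (d i) k ω'| ≤ S.dl r k := by
  induction X using cl_ind with | _ B
  refine ⟨Inf.sup B ((vec d).bdd r).toInf, ?_, ?_⟩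
  · rw [cl_sup]
    apply sup_eq_left.mpr
    have h1 := vec_dg_le d r (cl B) hd
    unfold VV.dg at h1
    rwa [io_eq (VV.bdd _ r)] at h1
  · intro k ω ω' h i
    exact (vec d).cellv_close r k ω ω' h.2 i

/-- an event which is not typical has positive probability complement -/
theorem pr_pos_of_not_typ {E : ∀ k, (S.F k).Ω → Prop} (h : ¬ Typ E) :
    0 < ul (S.pr (fun k ω => ¬ E k ω)) := by
  rw [Typ_iff] at h
  have h1 : 0 ≤ ul (S.pr (fun k ω => ¬ E k ω)) :=
    const_le_ul (UB_pr _) (Eventually.of_forall fun k => pr_nonneg _ k)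
  rcases h1.lt_or_eq with h2 | h2
  · exact h2
  · exfalso
    apply h
    rw [ul_pr_compl] at h2
    have h3 := ul_tendsto (UB_pr E)
    have h4 : ul (S.pr E) = 1 := by linarith
    rwa [h4] at h3

theorem ev_sum {ι : Type*} (s : Finset ι) (f : ι → TR S) (k : ℕ) (ω : (S.F k).Ω) :
    ev (∑ i ∈ s, f i) k ω = ∑ i ∈ s, ev (f i) k ω := by
  rw [← evh_apply, map_sum]
  rfl

theorem ev_pow (f : TR S) (n k : ℕ) (ω : (S.F k).Ω) : ev (f ^ n) k ω = ev f k ω ^ n := by
  rw [← evh_apply, map_pow]
  rfl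

theorem ev_pv {m : ℕ} (d : Fin (m + 1) → TR S) (s : TR S) (k : ℕ) (ω : (S.F k).Ω) :
    ev (pv d s) k ω = pv (fun i => ev (d i) k ω) (ev s k ω) := by
  unfold pv
  rw [ev_sum]
  apply Finset.sum_congr rfl
  intro i _
  rw [ev_mul, ev_pow]

/-- entropy of digits -/
theorem H_dg_le (f : TR S) {r : ℝ} (hr : 0 ≤ r) : H (dg f r) ≤ r := by
  have h1 := (vec fun _ : Fin 1 => f).H_dg_le hr
  rw [Nat.cast_one, one_mul] at h1
  exact h1

theorem h_dg_dg (f : TR S) {r s : ℝ} (hrs : r ≤ s) : h (dg f s) (dg f r) ≤ s - r := by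
  have h1 := (vec fun _ : Fin 1 => f).h_dg_dg hrs
  rw [Nat.cast_one, one_mul] at h1
  exact h1

/-- a real variable has full digits at all levels -/
theorem real_level (f : TR S) (X : S.L) (h1 : h (dg f 1) X = 1) {r : ℝ} (h0 : 0 ≤ r) (hr : r ≤ 1) :
    h (dg f r) X = r := by
  apply le_antisymm
  · exact (h_le_H _ _).trans (H_dg_le f h0)
  · have h2 := h_chain (dg f r) (dg f 1) X
    have h3 : dg f r ⊔ dg f 1 = dg f 1 := sup_eq_right.mpr (dg_mono f hr)
    rw [h3, h1] at h2
    have h4 : h (dg f 1) (dg f r ⊔ X) ≤ h (dg f 1) (dg f r) := h_anti le_sup_left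
    have h5 := h_dg_dg f hr
    linarith

/-- a real variable is real on every event of positive probability -/
theorem real_rst (E : ∀ k, (S.F k).Ω → Prop) (hE : 0 < ul (S.pr E)) (f : TR S) (X : S.L) (h1 : h (dg f 1) X = 1) :
    h (dg (TR.rest E f) 1) (restL E hE X) = 1 := by
  have hle : h (dg (TR.rest E f) 1) (restL E hE X) ≤ 1 := (h_le_H _ _).trans (H_dg_le _ zero_le_one)
  have h4 : ul (S.pr E) ≤ 1 := ul_le_const (UB_pr E) (Eventually.of_forall fun k => pr_le_one E k)
  rcases h4.lt_or_eq with h5 | h5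
  · have hE' : 0 < ul (S.pr (fun k ω => ¬ E k ω)) := by rw [ul_pr_compl]; linarith
    have h2 := Sp.h_split E hE hE' (dg f 1) X
    rw [h1, ← TR.rest_dg E hE, ← TR.rest_dg _ hE'] at h2
    have hle' : h (dg (TR.rest (fun k ω => ¬ E k ω) f) 1) (restL (fun k ω => ¬ E k ω) hE' X) ≤ 1 :=
      (h_le_H _ _).trans (H_dg_le _ zero_le_one)
    apply le_antisymm hle
    have h6 : (1 - ul (S.pr E)) * h (dg (TR.rest (fun k ω => ¬ E k ω) f) 1) (restL (fun k ω => ¬ E k ω) hE' X) ≤
        (1 - ul (S.pr E)) * 1 := mul_le_mul_of_nonneg_left hle' (by linarith)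
    by_contra hc
    push Not at hc
    have h7 : ul (S.pr E) * h (dg (TR.rest E f) 1) (restL E hE X) < ul (S.pr E) * 1 :=
      mul_lt_mul_of_pos_left hc hE
    linarith
  · have hT : Typ E := by
      rw [Typ_iff]
      have := ul_tendsto (UB_pr E)
      rwa [h5] at this
    rw [TR.rest_dg E hE]
    have := h_restL_typ E hT (dg f 1) X
    rw [this, h1]

/-- **Polynomials of a real variable.** Typically `|Σ d_i s^i| > 2^(-(g+δ)n)` whenever some `|d_i| > 2^(-gn)`. -/
theorem poly_typ {m : ℕ} (X : S.L) (d : Fin (m + 1) → TR S) (s : TR S) (hd : ∀ i, dg (d i) 1 ≤ X)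
    (hs : h (dg s 1) X = 1) (g δ : ℝ) (hδ : 0 < δ) (hg : 0 ≤ g) (hgδ : g + δ ≤ 1) :
    Typ (fun k ω => (∃ i, S.dl g k < |ev (d i) k ω|) → S.dl (g + δ) k < |ev (pv d s) k ω|) := by
  by_contra hT
  have hpos := pr_pos_of_not_typ hT
  obtain ⟨E, hE⟩ : ∃ E : ∀ k, (S.F k).Ω → Prop, E = fun k ω =>
      ¬ ((∃ i, S.dl g k < |ev (d i) k ω|) → S.dl (g + δ) k < |ev (pv d s) k ω|) := ⟨_, rfl⟩
  rw [← hE] at hpos
  -- the level of the cells
  obtain ⟨M, hM⟩ : ∃ M : ℕ, M = (m + 1) * (m + 1) := ⟨_, rfl⟩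
  have hM0 : (0 : ℝ) < M := by rw [hM]; positivity
  set b : ℝ := δ / (4 * M) with hb
  have hb0 : 0 < b := by positivity
  have hM1 : (1 : ℝ) ≤ M := by
    have : 1 ≤ M := by rw [hM]; exact Nat.one_le_iff_ne_zero.mpr (by positivity)
    exact_mod_cast this
  have hb1 : b ≤ 1 := by
    rw [hb, div_le_one (by positivity)]
    nlinarith
  have hreal := real_level _ _ (real_rst E hpos s X hs) hb0.le hb1
  -- representative of `X`
  obtain ⟨A, hA, hAd⟩ := exists_rep_dg (S := S.rest E) (fun i => TR.rest E (d i)) 1 (restL E hpos X) (fun i => by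
    rw [TR.rest_dg E hpos]; exact restL_mono E hpos (hd i))
  obtain ⟨K, hK, hsK⟩ := s.2
  have key : dg (TR.rest E s) b ≤ cl A := by
    apply dg_le_of_card _ _ _ (3 * m)
    -- constants
    have hKs : S.Sub (fun k => (m + 1 : ℝ) * (K k + 1) ^ m) := by
      have : ∀ j : ℕ, S.Sub (fun k => (K k + 1) ^ j) := by
        intro j
        induction j with
        | zero => simpa using S.Sub_const zero_le_one
        | succ j ih =>
          have := ih.mul (hK.add (S.Sub_const zero_le_one))
          simpa [pow_succ] using this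
      exact (S.Sub_const (by positivity)).mul (this m)
    have hcvs : S.Sub (fun k => cv m (K k + 1) * ((m + 1 : ℝ) * (K k + 1) ^ m + 1)) := by
      have h1 : ∀ j : ℕ, S.Sub (fun k => (K k + 1) ^ j) := by
        intro j
        induction j with
        | zero => simpa using S.Sub_const zero_le_one
        | succ j ih =>
          have := ih.mul (hK.add (S.Sub_const zero_le_one))
          simpa [pow_succ] using this
      have h2 : S.Sub (fun k => cv m (K k + 1)) := by
        have h3 := (S.Sub_const (show (0 : ℝ) ≤ (m + 1) * ((m + 1).factorial : ℝ) by positivity)).mul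
          (h1 (m * (m + 1)))
        have h4 : (fun k => (m + 1 : ℝ) * ((m + 1).factorial : ℝ) * (K k + 1) ^ (m * (m + 1))) =
            fun k => cv m (K k + 1) := by
          funext k
          unfold cv
          rw [pow_mul]; ring
        rwa [h4] at h3
      exact h2.mul (hKs.add (S.Sub_const zero_le_one))
    filter_upwards [hsK, hK.1, hcvs.eventually_le (show 0 < δ / 4 by positivity),
      hKs.eventually_le (show 0 < δ / 4 by positivity), eventually_gt_of_lt_ul (UB_pr E) hpos]
      with k hk hK0 hcv hKk hpb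
    intro ω hω
    have hn := (S.F k).pos
    have hpb' : (S.F k).pb (E k) ≠ 0 := hpb.ne'
    have hsup : ∀ ω', ((S.rest E).F k).μ ω' ≠ 0 → (S.F k).μ ω' ≠ 0 ∧ E k ω' := fun ω' h =>
      ⟨((S.F k).rest_supp (E k) ω' h).1, ((S.F k).rest_supp (E k) ω' h).2 hpb'⟩
    have hlb : 0 < S.dl b k := S.dl_pos b k
    have hl1 : S.dl b k ≤ 1 := by
      have := S.dl_anti hb0.le k
      rwa [dl_zero] at this
    unfold nvf
    refine card_cells m (S.dl b k) hlb (fun ω' : (S.F k).Ω => ((S.rest E).F k).μ ω' ≠ 0 ∧ A.1 k ω' ω)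
      (fun ω' => ev s k ω') ?_ _ ?_
    swap
    · intro q hq
      obtain ⟨ω', hω', rfl⟩ := e3_mem_image hq
      simp only [Finset.mem_filter, Finset.mem_univ, true_and] at hω'
      exact ⟨ω', ⟨hω'.1, (Quotient.exact hω'.2).1⟩, rfl⟩
    · rintro ⟨t, ht', hsep⟩
      have hpt : ∀ i, (S.F k).μ (t i) ≠ 0 ∧ E k (t i) := fun i => hsup _ (ht' i).1
      have hpo := hsup ω hω
      have hEo : (∃ i, S.dl g k < |ev (d i) k ω|) ∧ |ev (pv d s) k ω| ≤ S.dl (g + δ) k := by
        have := hpo.2
        rw [hE] at this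
        push Not at this
        exact this
      have hEt : ∀ i, |ev (pv d s) k (t i)| ≤ S.dl (g + δ) k := by
        intro i
        have := (hpt i).2
        rw [hE] at this
        push Not at this
        exact this.2
      have hK1 : (1 : ℝ) ≤ K k + 1 := by linarith
      have hsb : ∀ i, |ev s k (t i)| ≤ K k + 1 := fun i => (hk _ (hpt i).1).trans (by linarith)
      have hdd : ∀ i j, |ev (d j) k (t i) - ev (d j) k ω| ≤ S.dl 1 k := fun i j => hAd k _ _ (ht' i).2 j
      have hval : ∀ i, |pv (fun j => ev (d j) k ω) (ev s k (t i))| ≤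
          ((m + 1 : ℝ) * (K k + 1) ^ m + 1) * S.dl (g + δ) k := by
        intro i
        have e1 : pv (fun j => ev (d j) k ω) (ev s k (t i)) = ev (pv d s) k (t i) -
            ∑ j : Fin (m + 1), (ev (d j) k (t i) - ev (d j) k ω) * ev s k (t i) ^ (j : ℕ) := by
          rw [ev_pv]
          unfold pv
          rw [← Finset.sum_sub_distrib]
          apply Finset.sum_congr rfl
          intro j _
          ring
        rw [e1]
        refine (abs_sub _ _).trans ?_
        have e2 : |∑ j : Fin (m + 1), (ev (d j) k (t i) - ev (d j) k ω) * ev s k (t i) ^ (j : ℕ)| ≤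
            (m + 1 : ℝ) * ((K k + 1) ^ m * S.dl (g + δ) k) := by
          refine (Finset.abs_sum_le_sum_abs _ _).trans ?_
          have e3 : ∀ j ∈ (Finset.univ : Finset (Fin (m + 1))),
              |(ev (d j) k (t i) - ev (d j) k ω) * ev s k (t i) ^ (j : ℕ)| ≤ (K k + 1) ^ m * S.dl (g + δ) k := by
            intro j _
            rw [abs_mul, abs_pow, mul_comm]
            apply mul_le_mul
            · calc |ev s k (t i)| ^ (j : ℕ) ≤ (K k + 1) ^ (j : ℕ) := pow_le_pow_left₀ (abs_nonneg _) (hsb i) _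
                _ ≤ (K k + 1) ^ m := pow_le_pow_right₀ hK1 (Nat.lt_succ_iff.mp j.2)
            · exact (hdd i j).trans (S.dl_anti hgδ k)
            · exact abs_nonneg _
            · positivity
          refine (Finset.sum_le_sum e3).trans (le_of_eq ?_)
          rw [Finset.sum_const, Finset.card_univ, Fintype.card_fin, nsmul_eq_mul]
          push_cast
          ring
        have e4 := hEt i
        calc _ ≤ S.dl (g + δ) k + (m + 1 : ℝ) * ((K k + 1) ^ m * S.dl (g + δ) k) := add_le_add e4 e2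
          _ = _ := by ring
      obtain ⟨j, hj⟩ := hEo.1
      have hco := coeff_le (fun i => ev s k (t i)) (fun j => ev (d j) k ω) (S.dl b k) (K k + 1) _ hlb hl1 hK1 hsb
        hsep hval j
      -- numerical contradiction
      have n1 : S.dl b k ^ ((m + 1) * (m + 1)) = S.dl (δ / 4) k := by
        unfold dl
        rw [← Real.rpow_natCast, ← Real.rpow_mul (by norm_num), ← hM]
        congr 1
        rw [hb]
        field_simp
      rw [n1] at hco
      have n2 : S.dl (g + δ) k = S.dl g k * S.dl δ k := S.dl_add g δ k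
      have n3 : S.dl δ k = S.dl (δ / 4) k * (S.dl (δ / 4) k * (S.dl (δ / 4) k * S.dl (δ / 4) k)) := by
        rw [← S.dl_add, ← S.dl_add, ← S.dl_add]
        congr 1; ring
      have n4 : (2 : ℝ) ^ (δ / 4 * (S.F k).n) * S.dl (δ / 4) k = 1 := by
        unfold dl
        rw [← Real.rpow_add (by norm_num : (0 : ℝ) < 2)]
        rw [add_neg_cancel, Real.rpow_zero]
      have p1 := S.dl_pos (δ / 4) k
      have p2 := S.dl_pos g k
      have p3 : S.dl (δ / 4) k ≤ 1 := by
        have := S.dl_anti (show (0 : ℝ) ≤ δ / 4 by positivity) k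
        rwa [dl_zero] at this
      have n5 : cv m (K k + 1) * ((m + 1 : ℝ) * (K k + 1) ^ m + 1) * S.dl (δ / 4) k ≤ 1 := by
        refine le_trans (mul_le_mul_of_nonneg_right ?_ p1.le) n4.le
        linarith
      have n6 : S.dl (δ / 4) k * S.dl g k < S.dl (δ / 4) k * |ev (d j) k ω| := mul_lt_mul_of_pos_left hj p1
      have n7 : cv m (K k + 1) * (((m + 1 : ℝ) * (K k + 1) ^ m + 1) * S.dl (g + δ) k) ≤
          S.dl (δ / 4) k * S.dl g k := by
        rw [n2, n3]
        have e1 : cv m (K k + 1) * (((m + 1 : ℝ) * (K k + 1) ^ m + 1) * (S.dl g k *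
            (S.dl (δ / 4) k * (S.dl (δ / 4) k * (S.dl (δ / 4) k * S.dl (δ / 4) k))))) =
            (cv m (K k + 1) * ((m + 1 : ℝ) * (K k + 1) ^ m + 1) * S.dl (δ / 4) k) *
              (S.dl g k * (S.dl (δ / 4) k * (S.dl (δ / 4) k * S.dl (δ / 4) k))) := by ring
        rw [e1]
        have e2 : S.dl g k * (S.dl (δ / 4) k * (S.dl (δ / 4) k * S.dl (δ / 4) k)) ≤ S.dl (δ / 4) k * S.dl g k := by
          have : S.dl (δ / 4) k * (S.dl (δ / 4) k * S.dl (δ / 4) k) ≤ S.dl (δ / 4) k * 1 := by
            apply mul_le_mul_of_nonneg_left _ p1.le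
            nlinarith
          calc _ ≤ S.dl g k * (S.dl (δ / 4) k * 1) := mul_le_mul_of_nonneg_left this p2.le
            _ = _ := by ring
        calc _ ≤ 1 * (S.dl g k * (S.dl (δ / 4) k * (S.dl (δ / 4) k * S.dl (δ / 4) k))) := by
              apply mul_le_mul_of_nonneg_right n5
              positivity
          _ ≤ _ := by rw [one_mul]; exact e2
      linarith
  rw [hA] at key
  have := h_zero key
  rw [hreal] at this
  linarith

end TR

end

end Pool.Agent.Helper31.EC
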